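import Mathlib

/-!
# Automorphisms of the unit disc
-/

set_option autoImplicit false

open Set Filter Topology Complex Metric ComplexConjugate

noncomputable section

namespace Pool.Agent.J6H12.LWP

/-- automorphism of the disc sending `0` to `a` -/
def mob (a w : ℂ) : ℂ := (w + a) / (1 + conj a * w)

variable {a w v : ℂ}

theorem mob_den (ha : ‖a‖ < 1) (hw : ‖w‖ ≤ 1) : 1 + conj a * w ≠ 0 := by
  intro h
  have h1 : ‖conj a * w‖ = 1 := by
    have : conj a * w = -1 := by linear_combination h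
    rw [this, norm_neg, norm_one]
  rw [norm_mul, Complex.norm_conj] at h1
  nlinarith [norm_nonneg a, norm_nonneg w]

theorem mob_den_le (ha : ‖a‖ < 1) (hw : ‖w‖ ≤ 1) : ‖1 + conj a * w‖ ≤ 2 := by
  calc ‖1 + conj a * w‖ ≤ ‖(1 : ℂ)‖ + ‖conj a * w‖ := norm_add_le _ _
    _ ≤ 1 + 1 := by
        rw [norm_one, norm_mul, Complex.norm_conj]
        nlinarith [norm_nonneg a, norm_nonneg w]
    _ = 2 := by norm_num

theorem mob_den_ge (ha : ‖a‖ < 1) (hw : ‖w‖ ≤ 1) : 1 - ‖a‖ ≤ ‖1 + conj a * w‖ := by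
  have h1 : ‖(1 : ℂ)‖ ≤ ‖1 + conj a * w‖ + ‖conj a * w‖ := by
    calc ‖(1 : ℂ)‖ = ‖(1 + conj a * w) - conj a * w‖ := by ring_nf
      _ ≤ _ := norm_sub_le _ _
  rw [norm_one, norm_mul, Complex.norm_conj] at h1
  nlinarith [norm_nonneg a, norm_nonneg w]

theorem mob_id1 (a w : ℂ) : ‖1 + conj a * w‖ ^ 2 - ‖w + a‖ ^ 2 =
    (1 - ‖a‖ ^ 2) * (1 - ‖w‖ ^ 2) := by
  simp only [Complex.sq_norm, Complex.normSq_apply, Complex.add_re, Complex.add_im,
    Complex.mul_re, Complex.mul_im, Complex.conj_re, Complex.conj_im, Complex.one_re,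
    Complex.one_im]
  ring

theorem mob_one_sub (ha : ‖a‖ < 1) (hw : ‖w‖ ≤ 1) :
    1 - ‖mob a w‖ ^ 2 = (1 - ‖a‖ ^ 2) * (1 - ‖w‖ ^ 2) / ‖1 + conj a * w‖ ^ 2 := by
  have h1 : 0 < ‖1 + conj a * w‖ := norm_pos_iff.2 (mob_den ha hw)
  rw [← mob_id1, mob, norm_div, div_pow, sub_div, div_self (by positivity)]

theorem mob_ball (ha : ‖a‖ < 1) (hw : w ∈ ball (0 : ℂ) 1) : mob a w ∈ ball (0 : ℂ) 1 := by
  rw [mem_ball_zero_iff] at hw ⊢
  have h1 := mob_one_sub ha hw.le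
  have h2 : 0 < ‖1 + conj a * w‖ := norm_pos_iff.2 (mob_den ha hw.le)
  have h3 : 0 < (1 - ‖a‖ ^ 2) * (1 - ‖w‖ ^ 2) / ‖1 + conj a * w‖ ^ 2 := by
    apply div_pos (mul_pos _ _) (by positivity)
    · nlinarith [norm_nonneg a]
    · nlinarith [norm_nonneg w]
  nlinarith [norm_nonneg (mob a w)]

theorem mob_sphere (ha : ‖a‖ < 1) (hw : ‖w‖ = 1) : ‖mob a w‖ = 1 := by
  have h1 := mob_one_sub ha hw.le
  rw [hw] at h1
  have h2 : 1 - ‖mob a w‖ ^ 2 = 0 := by rw [h1]; norm_num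
  nlinarith [norm_nonneg (mob a w)]

theorem mob_zero (a : ℂ) : mob a 0 = a := by simp [mob]

theorem mob_inv (ha : ‖a‖ < 1) (hw : ‖w‖ ≤ 1) : mob (-a) (mob a w) = w := by
  have h1 := mob_den ha hw
  have h3 : (1 : ℂ) - conj a * a ≠ 0 := by
    have h4 : conj a * a = ((‖a‖ ^ 2 : ℝ) : ℂ) := by
      rw [mul_comm, Complex.mul_conj, Complex.normSq_eq_norm_sq]
    rw [h4]
    norm_cast
    nlinarith [norm_nonneg a]
  have h2 : 1 + conj (-a) * mob a w = (1 - conj a * a) / (1 + conj a * w) := by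
    rw [mob, map_neg, eq_div_iff h1, add_mul, mul_assoc, div_mul_cancel₀ _ h1]
    ring
  have h5 : mob a w + -a = (w * (1 - conj a * a)) / (1 + conj a * w) := by
    rw [mob, eq_div_iff h1, add_mul, div_mul_cancel₀ _ h1]
    ring
  rw [mob, h2, h5, div_div_div_cancel_right₀ h1, mul_div_cancel_right₀ _ h3]

theorem mob_inv' (ha : ‖a‖ < 1) (hw : ‖w‖ ≤ 1) : mob a (mob (-a) w) = w := by
  have := mob_inv (a := -a) (w := w) (by simpa using ha) hw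
  rwa [neg_neg] at this

theorem mob_diffAt (ha : ‖a‖ < 1) (hw : ‖w‖ ≤ 1) : DifferentiableAt ℂ (mob a) w := by
  unfold mob
  exact (differentiableAt_id.add_const _).div
    ((differentiableAt_const _).add ((differentiableAt_const _).mul differentiableAt_id))
    (mob_den ha hw)

theorem mob_diff (ha : ‖a‖ < 1) : DifferentiableOn ℂ (mob a) (ball 0 1) := fun w hw =>
  (mob_diffAt ha (by rw [mem_ball_zero_iff] at hw; exact hw.le)).differentiableWithinAt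

theorem mob_sub (ha : ‖a‖ < 1) (hw : ‖w‖ ≤ 1) (hv : ‖v‖ ≤ 1) :
    ‖mob a w - mob a v‖ ≤ 2 / (1 - ‖a‖) ^ 2 * ‖w - v‖ := by
  have h1 := mob_den ha hw
  have h2 := mob_den ha hv
  have e : mob a w - mob a v =
      (1 - conj a * a) * (w - v) / ((1 + conj a * w) * (1 + conj a * v)) := by
    rw [mob, mob, div_sub_div _ _ h1 h2]
    congr 1
    ring
  have h3 : ‖(1 : ℂ) - conj a * a‖ ≤ 2 := by
    calc ‖(1 : ℂ) - conj a * a‖ ≤ ‖(1 : ℂ)‖ + ‖conj a * a‖ := norm_sub_le _ _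
      _ ≤ 1 + 1 := by
          rw [norm_one, norm_mul, Complex.norm_conj]
          nlinarith [norm_nonneg a]
      _ = 2 := by norm_num
  have h4 := mob_den_ge ha hw
  have h5 := mob_den_ge ha hv
  have h6 : 0 < 1 - ‖a‖ := by linarith
  rw [e, norm_div, norm_mul, norm_mul]
  have h7 : (1 - ‖a‖) ^ 2 ≤ ‖1 + conj a * w‖ * ‖1 + conj a * v‖ := by
    rw [sq]
    exact mul_le_mul h4 h5 h6.le (h6.le.trans h4)
  calc ‖(1 : ℂ) - conj a * a‖ * ‖w - v‖ / (‖1 + conj a * w‖ * ‖1 + conj a * v‖)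
      ≤ 2 * ‖w - v‖ / (1 - ‖a‖) ^ 2 := by
        apply div_le_div₀ (by positivity) _ (by positivity) h7
        exact mul_le_mul_of_nonneg_right h3 (norm_nonneg _)
    _ = 2 / (1 - ‖a‖) ^ 2 * ‖w - v‖ := by ring

/-- distortion of the distance to the circle -/
theorem mob_dist_le (ha : ‖a‖ < 1) (hw : ‖w‖ ≤ 1) :
    1 - ‖mob a w‖ ≤ 2 / (1 - ‖a‖) ^ 2 * (1 - ‖w‖) := by
  have h1 := mob_one_sub ha hw
  have h4 := mob_den_ge ha hw
  have h6 : 0 < 1 - ‖a‖ := by linarith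
  have h0 := norm_nonneg w
  have hm0 := norm_nonneg (mob a w)
  have h7 : (1 - ‖a‖) ^ 2 ≤ ‖1 + conj a * w‖ ^ 2 := pow_le_pow_left₀ h6.le h4 2
  have h8 : (1 - ‖a‖ ^ 2) * (1 - ‖w‖ ^ 2) / ‖1 + conj a * w‖ ^ 2 ≤
      (2 * (1 - ‖w‖)) / (1 - ‖a‖) ^ 2 := by
    apply div_le_div₀ (by nlinarith) _ (by positivity) h7
    have h9 : 1 - ‖a‖ ^ 2 ≤ 1 := by nlinarith [norm_nonneg a]
    have h10 : 0 ≤ 1 - ‖w‖ ^ 2 := by nlinarith
    have h11 : 1 - ‖w‖ ^ 2 ≤ 2 * (1 - ‖w‖) := by nlinarith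
    nlinarith
  rw [← h1] at h8
  have h12 : ‖mob a w‖ ≤ 1 := by
    have : 0 ≤ 1 - ‖mob a w‖ ^ 2 := by
      rw [h1]
      apply div_nonneg (mul_nonneg _ _) (by positivity)
      · nlinarith [norm_nonneg a]
      · nlinarith
    nlinarith
  have h13 : 1 - ‖mob a w‖ ≤ 1 - ‖mob a w‖ ^ 2 := by nlinarith
  calc 1 - ‖mob a w‖ ≤ 1 - ‖mob a w‖ ^ 2 := h13
    _ ≤ _ := h8
    _ = _ := by ring

end Pool.Agent.J6H12.LWP
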