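import Pool.Agent.J6H12.LWP.Dm
import Pool.Agent.J6H12.LWP.Mob
import Pool.Agent.Y405.LW.B0
import Pool.Agent.Y405.LW.Compl
import Pool.Agent.Y362.LW.Fill
import Pool.Agent.Y365.LW.RMT

/-!
# Enlarging the image of a periodic univalent map inside a prescribed periodic region
-/

set_option autoImplicit false

open Set Filter Topology Complex Metric

noncomputable section

namespace Pool.Agent.J6H12.LWP

open LW242

/-- the covering map is open -/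
theorem E_image_nhds {z : ℂ} {U : Set ℂ} (hU : U ∈ 𝓝 z) : E '' U ∈ 𝓝 (E z) := by
  have h1 : HasStrictDerivAt E (I * E z) z :=
    (E_diff.analyticAt z).hasStrictDerivAt.congr_deriv (E_hasDeriv z).deriv
  have h2 := h1.map_nhds_eq (mul_ne_zero I_ne_zero (E_ne z))
  rw [← h2]
  exact image_mem_map hU

theorem E_image_open {U : Set ℂ} (hU : IsOpen U) : IsOpen (E '' U) := by
  rw [isOpen_iff_mem_nhds]
  rintro _ ⟨z, hz, rfl⟩
  exact E_image_nhds (hU.mem_nhds hz)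

theorem b0p (f : ℂ → ℂ) (V : Set ℂ) (q : ℂ) (hf : Uni f) (hP : Pd f) (hVo : IsOpen V)
    (hVH : V ⊆ Hp) (hVp : ∀ z ∈ V, ∀ k : ℤ, z + ((k * TT : ℝ) : ℂ) ∈ V)
    (hV : ∀ p ∈ Hp, p ∈ closure V → p ∈ V ∨ p ∈ f '' Hp) (hqV : q ∈ V) (hqf : q ∉ f '' Hp)
    (hqc : q ∈ closure (f '' Hp)) :
    ∃ F : ℂ → ℂ, Uni F ∧ Pd F ∧ f '' Hp ⊆ F '' Hp ∧ q ∈ F '' Hp ∧
      (∀ p ∈ F '' Hp, p ∉ f '' Hp → p ∈ V) ∧ F '' Hp ≠ Hp := by
  obtain ⟨hfd, hfm, hfi⟩ := id hf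
  have h00 : (0 : ℂ) ∈ ball (0 : ℂ) 1 := mem_ball_self one_pos
  set D : Set ℂ := dm f '' ball 0 1 with hD
  have hFdd : DifferentiableOn ℂ (dm f) (ball 0 1) := dm_diff hfd hfm hP
  have hFdi : InjOn (dm f) (ball 0 1) := dm_inj hf hP
  have hFdm : MapsTo (dm f) (ball 0 1) (ball 0 1) := dm_maps hfd hfm hP
  have hD0 : (0 : ℂ) ∈ D := ⟨0, h00, dm_zero hfd hfm hP⟩
  have hDb : D ⊆ ball 0 1 := by
    rintro _ ⟨w, hw, rfl⟩
    exact hFdm hw
  have hmemD : ∀ z ∈ Hp, (E z ∈ D ↔ z ∈ f '' Hp) := by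
    intro z hz
    constructor
    · rintro ⟨v, hv, hvz⟩
      have hv0 : v ≠ 0 := by
        rintro rfl
        rw [dm_zero hfd hfm hP] at hvz
        exact E_ne z hvz.symm
      obtain ⟨u, hu, rfl⟩ := E_surj' hv hv0
      rw [dm_E hP hu] at hvz
      obtain ⟨k, hk⟩ := E_eq hvz.symm
      rw [← hP.int k hu] at hk
      exact ⟨_, add_mem hu _, hk.symm⟩
    · rintro ⟨u, hu, rfl⟩
      exact ⟨E u, E_ball hu, dm_E hP hu⟩
  have hDo : IsOpen D := Y405LW.isOpen_image isOpen_ball (convex_ball 0 1).isPreconnected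
    Y405LW.ball_nontrivial hFdd hFdi
  have hDc : IsConnected D :=
    ((convex_ball (0 : ℂ) 1).isConnected Y405LW.ball_nontrivial.nonempty).image _
      hFdd.continuousOn
  have hDcc : IsConnected Dᶜ :=
    Y405LW.s_compl (dm f) hFdd hFdi (isBounded_ball.subset hDb)
  set Vd : Set ℂ := E '' V with hVd
  have hVdo : IsOpen Vd := E_image_open hVo
  have hVdb : Vd ⊆ ball 0 1 := by
    rintro _ ⟨z, hz, rfl⟩
    exact E_ball (hVH hz)
  have hmemV : ∀ z, E z ∈ Vd → z ∈ V := by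
    rintro z ⟨v, hv, hvz⟩
    obtain ⟨k, hk⟩ := E_eq hvz.symm
    rw [hk]
    exact hVp v hv k
  have hqH : q ∈ Hp := hVH hqV
  have hqd : E q ∈ Vd := ⟨q, hqV, rfl⟩
  obtain ⟨ρ, hρ, hρV⟩ := nhds_basis_closedBall.mem_iff.1 (hVdo.mem_nhds hqd)
  have hcl : closure Vd ∩ ball 0 1 ⊆ Vd ∪ D := by
    rintro w ⟨hwc, hwb⟩
    by_cases hw0 : w = 0
    · subst hw0
      exact Or.inr hD0
    obtain ⟨z, hz, rfl⟩ := E_surj' hwb hw0
    have h2 : z ∈ closure V := by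
      rw [mem_closure_iff_nhds]
      intro U hU
      obtain ⟨_, ⟨u, hu, rfl⟩, hu2⟩ := mem_closure_iff_nhds.1 hwc _ (E_image_nhds hU)
      exact ⟨u, hu, hmemV u hu2⟩
    rcases hV _ hz h2 with h3 | h3
    · exact Or.inl ⟨z, h3, rfl⟩
    · exact Or.inr ((hmemD z hz).2 h3)
  have hqD : E q ∉ D := fun h => hqf ((hmemD q hqH).1 h)
  have hqDc : E q ∈ closure D := by
    refine closure_mono ?_ (mem_closure_image E_cont.continuousAt hqc)
    rintro _ ⟨p, ⟨z, hz, rfl⟩, rfl⟩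
    exact (hmemD _ (hfm hz)).2 ⟨z, hz, rfl⟩
  obtain ⟨W, hWo, hWc, hWcc, hDW, hWb, hWD, hWne⟩ := Y362.LW.t D Vd (E q) ρ hDo hDc hDb hDcc hVdo
    hVdb hρ hρV hqDc hqD hcl
  obtain ⟨G0, hG0d, hG0i, hG0W⟩ := Y365.LW.rmt W hWo hWc (isBounded_ball.subset hWb) hWcc
  have h0W : (0 : ℂ) ∈ W := hDW (Or.inl hD0)
  obtain ⟨a, ha, ha0⟩ : (0 : ℂ) ∈ G0 '' ball 0 1 := by rw [hG0W]; exact h0W
  have ha1 : ‖a‖ < 1 := by rwa [mem_ball_zero_iff] at ha
  have hna1 : ‖-a‖ < 1 := by rwa [norm_neg]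
  set G : ℂ → ℂ := fun w => G0 (mob a w) with hG
  have hGd : DifferentiableOn ℂ G (ball 0 1) :=
    hG0d.comp (mob_diff ha1) fun w hw => mob_ball ha1 hw
  have hGi : InjOn G (ball 0 1) := by
    intro w hw v hv h
    have h1 := hG0i (mob_ball ha1 hw) (mob_ball ha1 hv) h
    rw [← mob_inv ha1 (mem_ball_zero_iff.1 hw).le, ← mob_inv ha1 (mem_ball_zero_iff.1 hv).le, h1]
  have hGW : G '' ball 0 1 = W := by
    rw [← hG0W]
    apply Subset.antisymm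
    · rintro _ ⟨w, hw, rfl⟩
      exact ⟨mob a w, mob_ball ha1 hw, rfl⟩
    · rintro _ ⟨w, hw, rfl⟩
      refine ⟨mob (-a) w, mob_ball hna1 hw, ?_⟩
      simp only [hG]
      rw [mob_inv' ha1 (mem_ball_zero_iff.1 hw).le]
  have hGm : MapsTo G (ball 0 1) (ball 0 1) := fun w hw =>
    hWb (hGW ▸ mem_image_of_mem G hw)
  have hG00 : G 0 = 0 := by
    simp only [hG]
    rw [mob_zero, ha0]
  obtain ⟨F, hFu, hFP, hFE⟩ := exists_lift hGd hGm hGi hG00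
  have hmemF : ∀ p ∈ Hp, (p ∈ F '' Hp ↔ E p ∈ W) := by
    intro p hp
    constructor
    · rintro ⟨z, hz, rfl⟩
      rw [hFE z hz, ← hGW]
      exact mem_image_of_mem G (E_ball hz)
    · intro h
      rw [← hGW] at h
      obtain ⟨w, hw, hw1⟩ := h
      have hw0 : w ≠ 0 := by
        rintro rfl
        rw [hG00] at hw1
        exact E_ne p hw1.symm
      obtain ⟨z, hz, rfl⟩ := E_surj' hw hw0
      rw [← hFE z hz] at hw1
      obtain ⟨k, hk⟩ := E_eq hw1.symm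
      rw [← hFP.int k hz] at hk
      exact ⟨_, add_mem hz _, hk.symm⟩
  refine ⟨F, hFu, hFP, ?_, ?_, ?_, ?_⟩
  · rintro _ ⟨z, hz, rfl⟩
    exact (hmemF _ (hfm hz)).2 (hDW (Or.inl ((hmemD _ (hfm hz)).2 ⟨z, hz, rfl⟩)))
  · exact (hmemF _ hqH).2 (hDW (Or.inr (mem_ball_self hρ)))
  · intro p hp hpf
    have hpH : p ∈ Hp := by
      obtain ⟨z, hz, rfl⟩ := hp
      exact hFu.2.1 hz
    have h1 : E p ∈ W := (hmemF p hpH).1 hp
    have h2 : E p ∉ D := fun h => hpf ((hmemD _ hpH).1 h)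
    exact hmemV p (hWD ⟨h1, h2⟩)
  · intro h
    apply hWne
    refine Subset.antisymm hWb fun w hw => ?_
    by_cases hw0 : w = 0
    · rw [hw0]; exact h0W
    obtain ⟨z, hz, rfl⟩ := E_surj' hw hw0
    exact (hmemF z hz).1 (by rw [h]; exact hz)

end Pool.Agent.J6H12.LWP
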