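import Pool.Agent.J6H12.LWP.DiscC
import Pool.Agent.Helper321.DW.Ball

/-!
# The Denjoy–Wolff point; the embedding theorem
-/

set_option autoImplicit false

open Set Filter Topology Complex Metric

noncomputable section

namespace Pool.Agent.J6H12.LWP

open LW242 Pool.Agent.Y256.LW

theorem brfpwith_congr {φ φ' : ℂ → ℂ} {σ d : ℂ} (e : ∀ w ∈ ball (0 : ℂ) 1, φ w = φ' w)
    (h : BRFPwith φ' σ d) : BRFPwith φ σ d := by
  obtain ⟨h1, h2⟩ := h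
  refine ⟨fun M hM => (h1 M hM).congr' ?_, fun M hM => (h2 M hM).congr' ?_⟩
  · filter_upwards [self_mem_nhdsWithin] with w hw
    exact (e w (stolz_ball hw)).symm
  · filter_upwards [self_mem_nhdsWithin] with w hw
    rw [e w (stolz_ball hw)]

/-- Wolff's lemma in the disc -/
theorem wolff_disc {φ : ℂ → ℂ} (hd : DifferentiableOn ℂ φ (ball 0 1))
    (hm : MapsTo φ (ball 0 1) (ball 0 1)) (hnf : ∀ z ∈ ball (0 : ℂ) 1, φ z ≠ z) :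
    ∃ p : ℂ, ‖p‖ = 1 ∧ ∀ z ∈ ball (0 : ℂ) 1,
      (1 - ‖z‖ ^ 2) * ‖φ z - p‖ ^ 2 ≤ (1 - ‖φ z‖ ^ 2) * ‖z - p‖ ^ 2 := by
  obtain ⟨p, hp, hJ⟩ := Pool.Agent.Helper321.DW.wolff_point hd hm hnf
    (fun F hF hm => Pool.Agent.Helper321.DW.sg_SP hF hm)
    (fun G hG ρ hρ h => by
      obtain ⟨x, hx, h1, _⟩ := Pool.Agent.Helper321.DW.EH hG hρ h
      exact ⟨x, hx, h1⟩)
  refine ⟨p, hp, fun z hz => ?_⟩
  have key : ∀ w : ℂ, ‖1 - inner ℂ p w‖ = ‖w - p‖ := by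
    intro w
    have h1 : p * (1 - inner ℂ p w) = p - w := by
      rw [RCLike.inner_apply]
      have h2 : p * (starRingEnd ℂ) p = 1 := by
        rw [Complex.mul_conj, Complex.normSq_eq_norm_sq, hp]; simp
      linear_combination (-w) * h2
    have h3 : ‖p * (1 - inner ℂ p w)‖ = ‖p - w‖ := by rw [h1]
    rw [norm_mul, hp, one_mul] at h3
    rw [h3, norm_sub_rev]
  have := hJ z hz
  rw [key, key] at this
  exact this

/-- existence of the Denjoy–Wolff point -/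
theorem exists_dw {φ : ℂ → ℂ} (hU : UniD φ) (hnf : ∀ z ∈ ball (0 : ℂ) 1, φ z ≠ z) :
    ∃ τ ∈ sphere (0 : ℂ) 1, IsDW φ τ := by
  obtain ⟨τ, hτ, hW⟩ := wolff_disc hU.1 hU.2.1 hnf
  have hτ0 := tau_ne hτ
  have hPU := Phi_uni hτ hU
  have him : ∀ z ∈ Hp, z.im ≤ (Phi τ φ z).im := by
    intro z hz
    have h1 := hW _ (K_ball hτ hz)
    rw [← K_Phi hτ hU.2.1 hz] at h1
    have hz2 : Phi τ φ z ∈ Hp := hPU.2.1 hz
    have n1 := hp_ne hz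
    have n2 := hp_ne hz2
    rw [one_sub hτ n1, one_sub hτ n2, K_norm_tau hτ n1, K_norm_tau hτ n2] at h1
    have p1 : 0 < ‖z + I‖ := norm_pos_iff.2 n1
    have p2 : 0 < ‖Phi τ φ z + I‖ := norm_pos_iff.2 n2
    have e1 : 4 * z.im / ‖z + I‖ ^ 2 * (2 / ‖Phi τ φ z + I‖) ^ 2 =
        z.im * (16 / (‖z + I‖ ^ 2 * ‖Phi τ φ z + I‖ ^ 2)) := by
      field_simp; ring
    have e2 : 4 * (Phi τ φ z).im / ‖Phi τ φ z + I‖ ^ 2 * (2 / ‖z + I‖) ^ 2 =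
        (Phi τ φ z).im * (16 / (‖z + I‖ ^ 2 * ‖Phi τ φ z + I‖ ^ 2)) := by
      field_simp; ring
    rw [e1, e2] at h1
    exact le_of_mul_le_mul_right h1 (by positivity)
  obtain ⟨d, hd, hB⟩ := bwd_tau jwc hτ hPU him
  refine ⟨τ, mem_sphere_zero_iff_norm.2 hτ, Or.inr ⟨mem_sphere_zero_iff_norm.2 hτ, hnf, d, hd,
    brfpwith_congr (fun v hv => ?_) hB⟩⟩
  unfold Psi Phi
  rw [K_K' hτ0 (ball_ne hτ hv), K_K' hτ0 (ball_ne hτ (hU.2.1 hv))]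

/-- the identity -/
theorem isId_good {f : ℂ → ℂ} (h : IsIdD f) : UniD f ∧ ∀ σ : ℂ, ‖σ‖ = 1 → BRFP f σ := by
  have hid : UniD (fun z : ℂ => z) := ⟨differentiableOn_id, fun _ h => h, fun _ _ _ _ h => h⟩
  refine ⟨⟨hid.1.congr h, fun z hz => by rw [h z hz]; exact hz, fun z hz w hw e => by
    rwa [h z hz, h w hw] at e⟩, fun σ hσ => brfp_congr (φ' := fun z => z) h ?_⟩
  obtain ⟨w, hw, hwl⟩ := radial hσ
  have hwl' : Tendsto w atTop (𝓝 σ) := hwl.mono_right nhdsWithin_le_nhds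
  exact jd_brfp hid hσ ⟨w, 1, hw, hwl', hwl', Eventually.of_forall fun k => by linarith⟩

/-- the embedding property of `𝔘[F]`, for at least two points -/
theorem embed_all (F : Set ℂ) (hF : F.Finite) (h2 : F.Nontrivial) (hFs : F ⊆ sphere 0 1)
    (φ : ℂ → ℂ) (hU : UniD φ) (hB : ∀ σ ∈ F, BRFP φ σ) (hid : ¬ IsIdD φ) :
    ∃ ψ : ℝ → ℝ → ℂ → ℂ, IsEvo ψ ∧
      (∀ s t, 0 ≤ s → s ≤ t → UniD (ψ s t) ∧ ∀ σ ∈ F, BRFP (ψ s t) σ) ∧
      ∀ z ∈ ball (0 : ℂ) 1, ψ 0 1 z = φ z := by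
  have hFn : ∀ σ ∈ F, ‖σ‖ = 1 := fun σ hσ => mem_sphere_zero_iff_norm.1 (hFs hσ)
  by_cases hfix : ∃ z ∈ ball (0 : ℂ) 1, φ z = z
  · obtain ⟨τ, hτ, hfx⟩ := hfix
    obtain ⟨ψ, h1, h3, h4⟩ := embed_interior F hF h2.nonempty hFs τ hτ φ hU hfx hB
    exact ⟨ψ, h1, fun s t hs hst => ⟨(h3 s t hs hst).1, (h3 s t hs hst).2.1⟩, h4⟩
  push Not at hfix
  obtain ⟨τ, hτ, hDW⟩ := exists_dw hU hfix
  have hτb : τ ∉ ball (0 : ℂ) 1 := by
    rw [mem_ball_zero_iff, mem_sphere_zero_iff_norm.1 hτ]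
    exact lt_irrefl _
  by_cases hτF : τ ∈ F
  · -- the Denjoy–Wolff point belongs to `F`
    have hne : (F \ {τ}).Nonempty := by
      obtain ⟨σ, hσ, hne⟩ := h2.exists_ne τ
      exact ⟨σ, hσ, hne⟩
    obtain ⟨ψ, h1, h3, h4⟩ := embed_nonempty (F \ {τ}) τ (hF.subset sdiff_subset) hne
      (sdiff_subset.trans hFs) hτ (fun h => h.2 rfl) φ
      (Or.inr ⟨hid, hU, fun σ hσ => hB σ hσ.1, hDW⟩) hid
    refine ⟨ψ, h1, fun s t hs hst => ?_, h4⟩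
    rcases h3 s t hs hst with h | ⟨-, h5, h6, h7⟩
    · exact ⟨(isId_good h).1, fun σ hσ => (isId_good h).2 σ (hFn σ hσ)⟩
    · refine ⟨h5, fun σ hσ => ?_⟩
      by_cases hστ : σ = τ
      · subst hστ
        rcases h7 with ⟨h8, -⟩ | ⟨-, -, d, -, h8⟩
        · exact absurd h8 hτb
        · exact ⟨d, h8⟩
      · exact h6 σ ⟨hσ, hστ⟩
  · obtain ⟨ψ, h1, h3, h4⟩ := embed_nonempty F τ hF h2.nonempty hFs hτ hτF φ
      (Or.inr ⟨hid, hU, hB, hDW⟩) hid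
    refine ⟨ψ, h1, fun s t hs hst => ?_, h4⟩
    rcases h3 s t hs hst with h | ⟨-, h5, h6, -⟩
    · exact ⟨(isId_good h).1, fun σ hσ => (isId_good h).2 σ (hFn σ hσ)⟩
    · exact ⟨h5, h6⟩

end Pool.Agent.J6H12.LWP
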