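import Pool.Agent.J6H12.LWP.RadB

/-!
# Evolution families fixing the origin, without boundary fixed points
-/

set_option autoImplicit false

open Set Filter Topology Complex Metric

noncomputable section

namespace Pool.Agent.J6H12.LWP.Rad

open LW242 Pool.Agent.J6H12.LWP

/-- the inverse of the derivative at the origin -/
def dl (f : ℂ → ℂ) : ℝ := (rr f)⁻¹

theorem dil_congr {f g : ℂ → ℂ} (e : ∀ z ∈ ball (0 : ℂ) 1, g z = f z) : dl g = dl f := by
  unfold dl rr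
  rw [rr_congr e]

theorem dil_comp {f g : ℂ → ℂ} (hf : UZ f) (hg : UZ g) :
    dl (fun z => f (g z)) = dl f * dl g := by
  unfold dl
  rw [rr_comp hf hg, mul_inv]

theorem one_le {f : ℂ → ℂ} (hf : UZ f) : 1 ≤ dl f :=
  (one_le_inv₀ hf.2.2.1).2 (rr_le hf)

theorem dil_id : dl (fun z => z) = 1 := by
  simp [dl, rr]

theorem id_of_dil {f : ℂ → ℂ} (hf : UZ f) (h : dl f = 1) : ∀ z ∈ ball (0 : ℂ) 1, f z = z :=
  id_of_rr hf (by
    unfold dl at h
    exact inv_eq_one.1 h)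

theorem disp {f : ℂ → ℂ} (hf : UZ f) : ∀ z ∈ ball (0 : ℂ) 1,
    ‖f z - z‖ ≤ (dl f - 1) * kap ‖z‖ := by
  intro z hz
  have h1 := uz_disp hf hz
  have h2 := kap_nn (norm_nonneg z) (mem_ball_zero_iff.1 hz)
  have h3 : 1 - rr f ≤ dl f - 1 := by
    have h4 := hf.2.2.1
    have h5 : rr f * dl f = 1 := mul_inv_cancel₀ h4.ne'
    have h6 := one_le hf
    nlinarith [sq_nonneg (dl f - 1)]
  exact h1.trans (mul_le_mul_of_nonneg_right h3 h2)

theorem limit (F : ℕ → ℂ → ℂ) (hF : ∀ k, UZ (F k)) (A : ℝ) (hA : ∀ k, dl (F k) ≤ A) :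
    ∃ G : ℂ → ℂ, UZ G ∧
      (∀ z ∈ ball (0 : ℂ) 1, Tendsto (fun k => F k z) (hyperfilter ℕ) (𝓝 (G z))) ∧
      (∀ z ∈ ball (0 : ℂ) 1, ∀ w : ℕ → ℂ, Tendsto w (hyperfilter ℕ) (𝓝 z) →
        Tendsto (fun k => F k (w k)) (hyperfilter ℕ) (𝓝 (G z))) ∧
      (∀ D : ℝ, Tendsto (fun k => dl (F k)) (hyperfilter ℕ) (𝓝 D) → dl G ≤ D) := by
  have hA0 : 0 < A := lt_of_lt_of_le one_pos ((one_le (hF 0)).trans (hA 0))
  obtain ⟨G, h1, h2, h3, h4⟩ := uz_limit F hF (r₀ := A⁻¹) (inv_pos.2 hA0) (fun k => by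
    have h5 := hA k
    unfold dl at h5
    exact inv_le_of_inv_le₀ (hF k).2.2.1 h5)
  refine ⟨G, h1, h2, h3, fun D hD => ?_⟩
  exact le_of_eq (tendsto_nhds_unique (h4.inv₀ h1.2.2.1.ne') hD)

/-- bounded sequences converge along the hyperfilter -/
theorem ultra_lim (u : ℕ → ℝ) (a b : ℝ) (h : ∀ k, a ≤ u k ∧ u k ≤ b) :
    ∃ D : ℝ, a ≤ D ∧ D ≤ b ∧ Tendsto u (hyperfilter ℕ) (𝓝 D) := G350.ultra_lim u a b h

/-- factorisations of `φ` -/
def Fac (φ : ℂ → ℂ) : Type :=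
  {p : (ℂ → ℂ) × (ℂ → ℂ) // UZ p.1 ∧ UZ p.2 ∧ ∀ z ∈ ball (0 : ℂ) 1, p.1 (p.2 z) = φ z}

variable {φ : ℂ → ℂ}

def Le (p q : Fac φ) : Prop :=
  ∃ h : ℂ → ℂ, UZ h ∧ (∀ z ∈ ball (0 : ℂ) 1, q.1.1 z = p.1.1 (h z)) ∧
    ∀ z ∈ ball (0 : ℂ) 1, p.1.2 z = h (q.1.2 z)

def ell (p : Fac φ) : ℝ := Real.log (dl p.1.1)

theorem le_rfl' (p : Fac φ) : Le p p :=
  ⟨fun z => z, uz_id, fun _ _ => rfl, fun _ _ => rfl⟩

theorem le_tr (p q r : Fac φ) (h1 : Le p q) (h2 : Le q r) : Le p r := by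
  obtain ⟨h, hc, ha, hb⟩ := h1
  obtain ⟨g, gc, ga, gb⟩ := h2
  refine ⟨fun z => h (g z), uz_comp hc gc, ?_, ?_⟩
  · intro z hz
    rw [ga z hz, ha _ (gc.1.2.1 hz)]
  · intro z hz
    rw [hb z hz, gb z hz]

theorem dil_le {p q : Fac φ} {h : ℂ → ℂ} (hc : UZ h)
    (ha : ∀ z ∈ ball (0 : ℂ) 1, q.1.1 z = p.1.1 (h z)) :
    dl q.1.1 = dl p.1.1 * dl h := by
  rw [dil_congr (f := fun z => p.1.1 (h z)) ha, dil_comp p.2.1 hc]

theorem dil_le2 {p q : Fac φ} {h : ℂ → ℂ} (hc : UZ h)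
    (hb : ∀ z ∈ ball (0 : ℂ) 1, p.1.2 z = h (q.1.2 z)) :
    dl p.1.2 = dl h * dl q.1.2 := by
  rw [dil_congr (f := fun z => h (q.1.2 z)) hb, dil_comp hc q.2.2.1]

theorem ell_eq {p q : Fac φ} {h : ℂ → ℂ} (hc : UZ h)
    (ha : ∀ z ∈ ball (0 : ℂ) 1, q.1.1 z = p.1.1 (h z)) : ell q = ell p + Real.log (dl h) := by
  unfold ell
  rw [dil_le hc ha, Real.log_mul]
  · exact (lt_of_lt_of_le one_pos (one_le p.2.1)).ne'
  · exact (lt_of_lt_of_le one_pos (one_le hc)).ne'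

theorem log_nn {h : ℂ → ℂ} (hc : UZ h) : 0 ≤ Real.log (dl h) :=
  Real.log_nonneg (one_le hc)

theorem log_zero {h : ℂ → ℂ} (hc : UZ h)
    (h0 : Real.log (dl h) = 0) : ∀ z ∈ ball (0 : ℂ) 1, h z = z := by
  have h1 := one_le hc
  rcases Real.log_eq_zero.1 h0 with h2 | h2 | h2
  · linarith
  · exact id_of_dil hc h2
  · linarith

theorem log_pos' {h : ℂ → ℂ} (hc : UZ h) (hne : ∃ z ∈ ball (0 : ℂ) 1, h z ≠ z) :
    0 < Real.log (dl h) := by
  rcases (log_nn hc).lt_or_eq with h1 | h1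
  · exact h1
  · exfalso
    obtain ⟨z, hz, hzz⟩ := hne
    exact hzz (log_zero hc h1.symm z hz)

theorem ell_mono (p q : Fac φ) (h : Le p q) : ell p ≤ ell q := by
  obtain ⟨h, hc, ha, -⟩ := h
  rw [ell_eq hc ha]
  linarith [log_nn hc]

theorem ell_strict (p q : Fac φ) (h : Le p q) (he : ell p = ell q) : Le q p := by
  obtain ⟨h, hc, ha, hb⟩ := h
  rw [ell_eq hc ha] at he
  have hid := log_zero hc (by linarith)
  refine ⟨fun z => z, uz_id, ?_, ?_⟩
  · intro z hz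
    rw [ha z hz, hid z hz]
  · intro z hz
    rw [hb z hz, hid _ (q.2.2.1.1.2.1 hz)]

/-- products of dilations -/
theorem dil_prod (p : Fac φ) :
    dl p.1.1 * dl p.1.2 = dl φ := by
  rw [← dil_comp p.2.1 p.2.2.1]
  exact dil_congr p.2.2.2

theorem completeness (p : ℕ → Fac φ) :
    ∃ a : Fac φ, Tendsto (fun k => ell (p k)) (hyperfilter ℕ) (𝓝 (ell a)) ∧
      (∀ q, (∀ᶠ k in (hyperfilter ℕ : Filter ℕ), Le q (p k)) → Le q a) ∧
      (∀ q, (∀ᶠ k in (hyperfilter ℕ : Filter ℕ), Le (p k) q) → Le a q) := by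
  have hNe : (hyperfilter ℕ : Filter ℕ).NeBot := inferInstance
  have b1 : ∀ k, dl (p k).1.1 ≤ dl φ := by
    intro k
    have h1 := one_le (p k).2.1
    have h2 := one_le (p k).2.2.1
    rw [← dil_prod (p k)]
    nlinarith
  have b2 : ∀ k, dl (p k).1.2 ≤ dl φ := by
    intro k
    have h1 := one_le (p k).2.1
    have h2 := one_le (p k).2.2.1
    rw [← dil_prod (p k)]
    nlinarith
  obtain ⟨f, fc, fl, fm, fd⟩ := limit (fun k => (p k).1.1) (fun k => (p k).2.1) _ b1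
  obtain ⟨g, gc, gl, gm, gd⟩ := limit (fun k => (p k).1.2) (fun k => (p k).2.2.1) _ b2
  have hfg : ∀ z ∈ ball (0 : ℂ) 1, f (g z) = φ z := by
    intro z hz
    have h1 := fm (g z) (gc.1.2.1 hz) (fun k => (p k).1.2 z) (gl z hz)
    have h2 : Tendsto (fun k => (p k).1.1 ((p k).1.2 z)) (hyperfilter ℕ) (𝓝 (φ z)) := by
      have : (fun k => (p k).1.1 ((p k).1.2 z)) = fun _ => φ z := by
        funext k
        exact (p k).2.2.2 z hz
      rw [this]
      exact tendsto_const_nhds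
    exact tendsto_nhds_unique h1 h2
  refine ⟨⟨(f, g), fc, gc, hfg⟩, ?_, ?_, ?_⟩
  · -- continuity of the length
    obtain ⟨Df, hDf1, hDf2, hDf3⟩ := ultra_lim (fun k => dl (p k).1.1) 1 (dl φ)
      (fun k => ⟨one_le (p k).2.1, b1 k⟩)
    obtain ⟨Dg, hDg1, hDg2, hDg3⟩ := ultra_lim (fun k => dl (p k).1.2) 1 (dl φ)
      (fun k => ⟨one_le (p k).2.2.1, b2 k⟩)
    have h1 := fd Df hDf3
    have h2 := gd Dg hDg3
    have h3 : Df * Dg = dl φ := by
      have h4 := hDf3.mul hDg3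
      have h5 : (fun k => dl (p k).1.1 * dl (p k).1.2) = fun _ => dl φ := by
        funext k
        exact dil_prod (p k)
      rw [h5] at h4
      exact tendsto_nhds_unique h4 tendsto_const_nhds
    have h6 : dl f * dl g = dl φ := by
      rw [← dil_comp fc gc]
      exact dil_congr hfg
    have h7 := one_le fc
    have h8 := one_le gc
    have h9 : Df = dl f := by
      apply le_antisymm _ h1
      by_contra hcon
      push Not at hcon
      have : dl f * dl g < Df * Dg := by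
        calc dl f * dl g < Df * dl g :=
              mul_lt_mul_of_pos_right hcon (by linarith)
          _ ≤ Df * Dg := mul_le_mul_of_nonneg_left h2 (by linarith)
      linarith
    unfold ell
    rw [← h9]
    exact ((Real.continuousAt_log (by linarith)).tendsto).comp hDf3
  · -- lower bounds
    intro q hq
    have hex : ∀ k, ∃ h : ℂ → ℂ, UZ h ∧ (dl h ≤ dl q.1.2) ∧
        (Le q (p k) → (∀ z ∈ ball (0 : ℂ) 1, (p k).1.1 z = q.1.1 (h z)) ∧
          ∀ z ∈ ball (0 : ℂ) 1, q.1.2 z = h ((p k).1.2 z)) := by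
      intro k
      by_cases hk : Le q (p k)
      · obtain ⟨h, hc, ha, hb⟩ := hk
        refine ⟨h, hc, ?_, fun _ => ⟨ha, hb⟩⟩
        have h1 := dil_le2 hc hb
        have h2 := one_le (p k).2.2.1
        have h3 := one_le hc
        rw [h1]
        nlinarith
      · refine ⟨fun z => z, uz_id, ?_, fun h => absurd h hk⟩
        rw [dil_id]
        exact one_le q.2.2.1
    choose h hc hd hh using hex
    obtain ⟨H, Hc, Hl, Hm, -⟩ := limit h hc _ hd
    refine ⟨H, Hc, ?_, ?_⟩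
    · intro z hz
      show f z = q.1.1 (H z)
      have hcont : ContinuousAt q.1.1 (H z) :=
        (q.2.1.1.1.continuousOn).continuousAt (isOpen_ball.mem_nhds (Hc.1.2.1 hz))
      have h1 : Tendsto (fun k => q.1.1 (h k z)) (hyperfilter ℕ) (𝓝 (q.1.1 (H z))) :=
        hcont.tendsto.comp (Hl z hz)
      have h2 : Tendsto (fun k => q.1.1 (h k z)) (hyperfilter ℕ) (𝓝 (f z)) := by
        refine (fl z hz).congr' ?_
        filter_upwards [hq] with k hk
        exact (hh k hk).1 z hz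
      exact tendsto_nhds_unique h2 h1
    · intro z hz
      show q.1.2 z = H (g z)
      have h1 := Hm (g z) (gc.1.2.1 hz) (fun k => (p k).1.2 z) (gl z hz)
      have h2 : Tendsto (fun k => h k ((p k).1.2 z)) (hyperfilter ℕ) (𝓝 (q.1.2 z)) := by
        refine (tendsto_const_nhds (x := q.1.2 z)).congr' ?_
        filter_upwards [hq] with k hk
        exact (hh k hk).2 z hz
      exact tendsto_nhds_unique h2 h1
  · -- upper bounds
    intro q hq
    have hex : ∀ k, ∃ h : ℂ → ℂ, UZ h ∧ (dl h ≤ dl q.1.1) ∧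
        (Le (p k) q → (∀ z ∈ ball (0 : ℂ) 1, q.1.1 z = (p k).1.1 (h z)) ∧
          ∀ z ∈ ball (0 : ℂ) 1, (p k).1.2 z = h (q.1.2 z)) := by
      intro k
      by_cases hk : Le (p k) q
      · obtain ⟨h, hc, ha, hb⟩ := hk
        refine ⟨h, hc, ?_, fun _ => ⟨ha, hb⟩⟩
        have h1 := dil_le hc ha
        have h2 := one_le (p k).2.1
        have h3 := one_le hc
        rw [h1]
        nlinarith
      · refine ⟨fun z => z, uz_id, ?_, fun h => absurd h hk⟩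
        rw [dil_id]
        exact one_le q.2.1
    choose h hc hd hh using hex
    obtain ⟨H, Hc, Hl, Hm, -⟩ := limit h hc _ hd
    refine ⟨H, Hc, ?_, ?_⟩
    · intro z hz
      show q.1.1 z = f (H z)
      have h1 := fm (H z) (Hc.1.2.1 hz) (fun k => h k z) (Hl z hz)
      have h2 : Tendsto (fun k => (p k).1.1 (h k z)) (hyperfilter ℕ) (𝓝 (q.1.1 z)) := by
        refine (tendsto_const_nhds (x := q.1.1 z)).congr' ?_
        filter_upwards [hq] with k hk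
        exact (hh k hk).1 z hz
      exact tendsto_nhds_unique h2 h1
    · intro z hz
      show g z = H (q.1.2 z)
      have hqz := q.2.2.1.1.2.1 hz
      have h1 := Hl (q.1.2 z) hqz
      have h2 : Tendsto (fun k => h k (q.1.2 z)) (hyperfilter ℕ) (𝓝 (g z)) := by
        refine (gl z hz).congr' ?_
        filter_upwards [hq] with k hk
        exact (hh k hk).2 z hz
      exact tendsto_nhds_unique h2 h1

theorem density (p q : Fac φ) (h : Le p q) (hlt : ell p < ell q) :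
    ∃ r : Fac φ, Le p r ∧ Le r q ∧ ell p < ell r ∧ ell r < ell q := by
  obtain ⟨h, hc, ha, hb⟩ := h
  have hne : ∃ z ∈ ball (0 : ℂ) 1, h z ≠ z := by
    by_contra hcon
    push Not at hcon
    have h1 : dl h = 1 := by
      rw [dil_congr (f := fun z => z) hcon, dil_id]
    rw [ell_eq hc ha, h1, Real.log_one] at hlt
    linarith
  obtain ⟨h1, h2, h1c, h2c, h12, h1n, h2n⟩ := thmZ hc hne
  let r : Fac φ := ⟨(fun z => p.1.1 (h1 z), fun z => h2 (q.1.2 z)),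
    uz_comp (f := p.1.1) (g := h1) p.2.1 h1c, uz_comp (f := h2) (g := q.1.2) h2c q.2.2.1, by
      intro z hz
      show p.1.1 (h1 (h2 (q.1.2 z))) = φ z
      have hqz := q.2.2.1.1.2.1 hz
      rw [h12 _ hqz, ← ha _ hqz]
      exact q.2.2.2 z hz⟩
  have hr1 : ∀ z ∈ ball (0 : ℂ) 1, r.1.1 z = p.1.1 (h1 z) := fun _ _ => rfl
  have hr2 : ∀ z ∈ ball (0 : ℂ) 1, q.1.1 z = r.1.1 (h2 z) := by
    intro z hz
    show q.1.1 z = p.1.1 (h1 (h2 z))
    rw [h12 z hz, ha z hz]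
  refine ⟨r, ⟨h1, h1c, hr1, ?_⟩, ⟨h2, h2c, hr2, fun _ _ => rfl⟩, ?_, ?_⟩
  · intro z hz
    show p.1.2 z = h1 (h2 (q.1.2 z))
    have hqz := q.2.2.1.1.2.1 hz
    rw [h12 _ hqz, hb z hz]
  · rw [ell_eq h1c hr1]
    linarith [log_pos' h1c h1n]
  · rw [ell_eq h2c hr2]
    linarith [log_pos' h2c h2n]

/-- evolution families -/
theorem gz {φ : ℂ → ℂ} (hφ : UZ φ) :
    ∃ (ψ : ℝ → ℝ → ℂ → ℂ) (K : ℂ → ℝ),
    (∀ s t, 0 ≤ s → s ≤ t → UZ (ψ s t)) ∧
    (∀ s, 0 ≤ s → ∀ z ∈ ball (0 : ℂ) 1, ψ s s z = z) ∧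
    (∀ s u t, 0 ≤ s → s ≤ u → u ≤ t → ∀ z ∈ ball (0 : ℂ) 1, ψ s t z = ψ u t (ψ s u z)) ∧
    (∀ s u t, 0 ≤ s → s ≤ u → u ≤ t → ∀ z ∈ ball (0 : ℂ) 1,
      ‖ψ s u z - ψ s t z‖ ≤ K z * (t - u)) ∧
    (∀ z ∈ ball (0 : ℂ) 1, ψ 0 1 z = φ z) := by
  let b0 : Fac φ := ⟨(fun z => z, φ), uz_id, hφ, fun _ _ => rfl⟩
  let b1 : Fac φ := ⟨(φ, fun z => z), hφ, uz_id, fun _ _ => rfl⟩
  obtain ⟨P, hP1, hP2⟩ := chain_all (Fac φ) Le ell b0 b1 le_rfl' (le_tr) (ell_mono)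
    (ell_strict)
    (fun p => ⟨p.1.1, p.2.1, fun _ _ => rfl, fun z hz => (p.2.2.2 z hz).symm⟩)
    (fun p => ⟨p.1.2, p.2.2.1, fun z hz => (p.2.2.2 z hz).symm, fun _ _ => rfl⟩)
    (completeness) density
  have hb0 : ell b0 = 0 := by
    show Real.log (dl (fun z => z)) = 0
    rw [dil_id, Real.log_one]
  obtain ⟨L, hL⟩ : ∃ L, L = ell b1 := ⟨_, rfl⟩
  rw [hb0, ← hL] at hP1 hP2
  have hL0 : 0 ≤ L := by rw [hL]; exact log_nn hφ
  -- transition maps
  have hex : ∀ a b : ℝ, ∃ h : ℂ → ℂ, UZ h ∧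
      (0 ≤ a → a ≤ b → b ≤ L → ∀ z ∈ ball (0 : ℂ) 1, (P b).1.1 z = (P a).1.1 (h z)) := by
    intro a b
    by_cases hab : 0 ≤ a ∧ a ≤ b ∧ b ≤ L
    · obtain ⟨h1, h2, h3⟩ := hab
      obtain ⟨h, hc, ha, -⟩ := hP2 a ⟨h1, h2.trans h3⟩ b ⟨h1.trans h2, h3⟩ h2
      exact ⟨h, hc, fun _ _ _ => ha⟩
    · exact ⟨fun z => z, uz_id, fun h1 h2 h3 => absurd ⟨h1, h2, h3⟩ hab⟩
  choose β βc βe using hex
  have hinj : ∀ a z w, z ∈ ball (0 : ℂ) 1 → w ∈ ball (0 : ℂ) 1 →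
      (P a).1.1 z = (P a).1.1 w → z = w :=
    fun a z w hz hw h => (P a).2.1.1.2.2 hz hw h
  have βm : ∀ a b z, z ∈ ball (0 : ℂ) 1 → β a b z ∈ ball (0 : ℂ) 1 :=
    fun a b z hz => (βc a b).1.2.1 hz
  have βcomp : ∀ a b c, 0 ≤ a → a ≤ b → b ≤ c → c ≤ L → ∀ z ∈ ball (0 : ℂ) 1,
      β a c z = β a b (β b c z) := by
    intro a b c h0 h1 h2 h3 z hz
    apply hinj a _ _ (βm _ _ _ hz) (βm _ _ _ (βm _ _ _ hz))
    rw [← βe a c h0 (h1.trans h2) h3 z hz, ← βe a b h0 h1 (h2.trans h3) _ (βm _ _ _ hz),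
      ← βe b c (h0.trans h1) h2 h3 z hz]
  have βid : ∀ a, 0 ≤ a → a ≤ L → ∀ z ∈ ball (0 : ℂ) 1, β a a z = z := by
    intro a h0 h1 z hz
    apply hinj a _ _ (βm _ _ _ hz) hz
    rw [← βe a a h0 le_rfl h1 z hz]
  have βdil : ∀ a b, 0 ≤ a → a ≤ b → b ≤ L → dl (β a b) = Real.exp (b - a) := by
    intro a b h0 h1 h2
    have h3 := ell_eq (p := P a) (q := P b) (βc a b) (βe a b h0 h1 h2)
    rw [hP1 b ⟨h0.trans h1, h2⟩, hP1 a ⟨h0, h1.trans h2⟩] at h3
    have h4 : Real.log (dl (β a b)) = b - a := by linarith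
    rw [← h4, Real.exp_log (lt_of_lt_of_le one_pos (one_le (βc a b)))]
  have hP0 : ∀ z ∈ ball (0 : ℂ) 1, (P 0).1.1 z = z := by
    apply log_zero (P 0).2.1
    exact hP1 0 ⟨le_rfl, hL0⟩
  have hPL : ∀ z ∈ ball (0 : ℂ) 1, (P L).1.1 z = φ z := by
    have h1 : ell (P L) = L := hP1 L ⟨hL0, le_rfl⟩
    have h2 : Real.log (dl (P L).1.2) = 0 := by
      have h3 := dil_prod (P L)
      have h4 := one_le (P L).2.1
      have h5 := one_le (P L).2.2.1
      have h6 : Real.log (dl φ) = Real.log (dl (P L).1.1) +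
          Real.log (dl (P L).1.2) := by
        rw [← h3, Real.log_mul (by linarith) (by linarith)]
      have h7 : Real.log (dl φ) = L := hL.symm
      have h8 : Real.log (dl (P L).1.1) = L := h1
      linarith
    have h3 := log_zero (P L).2.2.1 h2
    intro z hz
    rw [← (P L).2.2.2 z hz, h3 z hz]
  have hβ0L : ∀ z ∈ ball (0 : ℂ) 1, β 0 L z = φ z := by
    intro z hz
    rw [← hPL z hz, βe 0 L le_rfl hL0 le_rfl z hz, hP0 _ (βm _ _ _ hz)]
  -- the evolution family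
  obtain ⟨A, hA⟩ : ∃ A : ℝ → ℝ, A = fun s => L * (1 - min s 1) := ⟨_, rfl⟩
  have A0 : ∀ s, 0 ≤ A s := by
    intro s
    rw [hA]
    exact mul_nonneg hL0 (by linarith [min_le_right s 1])
  have AL : ∀ s, 0 ≤ s → A s ≤ L := by
    intro s hs
    rw [hA]
    have : 0 ≤ min s 1 := le_min hs zero_le_one
    show L * (1 - min s 1) ≤ L
    nlinarith
  have Am : ∀ s t, s ≤ t → A t ≤ A s := by
    intro s t hst
    rw [hA]
    have : min s 1 ≤ min t 1 := min_le_min_right 1 hst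
    show L * (1 - min t 1) ≤ L * (1 - min s 1)
    nlinarith
  have Al : ∀ s t, s ≤ t → A s - A t ≤ L * (t - s) := by
    intro s t hst
    rw [hA]
    have : min t 1 - min s 1 ≤ t - s := by
      rcases le_total t 1 with h1 | h1
      · rw [min_eq_left h1, min_eq_left (hst.trans h1)]
      · rw [min_eq_right h1]
        rcases le_total s 1 with h2 | h2
        · rw [min_eq_left h2]; linarith
        · rw [min_eq_right h2]; linarith
    show L * (1 - min s 1) - L * (1 - min t 1) ≤ L * (t - s)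
    nlinarith
  refine ⟨fun s t => β (A t) (A s), fun z => L * Real.exp L * kap ‖z‖, ?_, ?_, ?_, ?_, ?_⟩
  · intro s t _ _
    exact βc _ _
  · intro s hs z hz
    exact βid _ (A0 s) (AL s hs) z hz
  · intro s u t hs hsu hut z hz
    exact βcomp _ _ _ (A0 t) (Am u t hut) (Am s u hsu) (AL s hs) z hz
  · intro s u t hs hsu hut z hz
    show ‖β (A u) (A s) z - β (A t) (A s) z‖ ≤ L * Real.exp L * kap ‖z‖ * (t - u)
    rw [βcomp _ _ _ (A0 t) (Am u t hut) (Am s u hsu) (AL s hs) z hz]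
    obtain ⟨w, hw⟩ : ∃ w, w = β (A u) (A s) z := ⟨_, rfl⟩
    rw [← hw]
    have hwB : w ∈ ball (0 : ℂ) 1 := by rw [hw]; exact βm _ _ _ hz
    have hz1 : ‖z‖ < 1 := mem_ball_zero_iff.1 hz
    have hwz : ‖w‖ ≤ ‖z‖ := by rw [hw]; exact uz_norm (βc _ _).1 (βc _ _).2.1 hz
    have hu : 0 ≤ u := hs.trans hsu
    have h1 := disp (βc (A t) (A u)) w hwB
    rw [βdil _ _ (A0 t) (Am u t hut) (AL u hu)] at h1
    have h3 : kap ‖w‖ ≤ kap ‖z‖ := kap_mono (norm_nonneg _) hwz hz1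
    have h14 : 0 ≤ kap ‖w‖ := kap_nn (norm_nonneg _) (hwz.trans_lt hz1)
    have h6 : Real.exp (A u - A t) - 1 ≤ L * (t - u) * Real.exp L := by
      have h7 : 0 ≤ A u - A t := by linarith [Am u t hut]
      have h8 : A u - A t ≤ L := by linarith [AL u hu, A0 t]
      have h9 : 1 - (A u - A t) ≤ Real.exp (-(A u - A t)) := by
        have := Real.add_one_le_exp (-(A u - A t))
        linarith
      have h10 : Real.exp (A u - A t) - 1 ≤ (A u - A t) * Real.exp (A u - A t) := by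
        have h11 : Real.exp (A u - A t) * Real.exp (-(A u - A t)) = 1 := by
          rw [← Real.exp_add]; simp
        have h12 := mul_le_mul_of_nonneg_left h9 (Real.exp_pos (A u - A t)).le
        rw [h11] at h12
        linarith
      refine h10.trans ?_
      exact mul_le_mul (Al u t hut) (Real.exp_le_exp.2 h8) (Real.exp_pos _).le
        (mul_nonneg hL0 (by linarith))
    rw [norm_sub_rev]
    calc ‖β (A t) (A u) w - w‖ ≤ (Real.exp (A u - A t) - 1) * kap ‖w‖ := h1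
      _ ≤ (L * (t - u) * Real.exp L) * kap ‖z‖ :=
          mul_le_mul h6 h3 h14 (mul_nonneg (mul_nonneg hL0 (by linarith)) (Real.exp_pos _).le)
      _ = L * Real.exp L * kap ‖z‖ * (t - u) := by ring
  · intro z hz
    have e0 : A 0 = L := by rw [hA]; simp
    have e1 : A 1 = 0 := by rw [hA]; simp
    show β (A 1) (A 0) z = φ z
    rw [e0, e1]
    exact hβ0L z hz

end Pool.Agent.J6H12.LWP.Rad
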