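import Pool.Agent.J6H12.LWP.DiscC
import Pool.Agent.J6H12.LWP.RadC
import Pool.Agent.J6H12.LWP.DWP

/-!
# Concatenation; paths of automorphisms; the embedding theorem for at most one point
-/

set_option autoImplicit false

open Set Filter Topology Complex Metric ComplexConjugate

noncomputable section

namespace Pool.Agent.J6H12.LWP

open LW242

/-- concatenation of evolution families -/
theorem cat {ψ₁ ψ₂ : ℝ → ℝ → ℂ → ℂ} {K : ℂ → ℝ} {c : ℝ} (h1 : LEv ψ₁ K)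
    (h2 : LEv ψ₂ (fun _ => c)) :
    ∃ (ψ : ℝ → ℝ → ℂ → ℂ) (K' : ℂ → ℝ), LEv ψ K' ∧
      (∀ s t, 0 ≤ s → s ≤ t → ∃ a b a' b', 0 ≤ a ∧ a ≤ b ∧ 0 ≤ a' ∧ a' ≤ b' ∧
        ψ s t = fun z => ψ₂ a' b' (ψ₁ a b z)) ∧
      ∀ z, ψ 0 1 z = ψ₂ 0 1 (ψ₁ 0 1 z) := by
  obtain ⟨a1, a2, a3, a4⟩ := id h1
  obtain ⟨b1, b2, b3, b4⟩ := id h2
  have hc : 0 ≤ c := h2.nonneg z0
  obtain ⟨p, hp⟩ : ∃ p : ℝ → ℝ, p = fun s => min (2 * s) 1 := ⟨_, rfl⟩
  obtain ⟨q, hq⟩ : ∃ q : ℝ → ℝ, q = fun s => max (2 * s - 1) 0 := ⟨_, rfl⟩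
  have p0 : ∀ s, 0 ≤ s → 0 ≤ p s := fun s hs => by
    rw [hp]; exact le_min (by linarith) zero_le_one
  have q0 : ∀ s, 0 ≤ q s := fun s => by rw [hq]; exact le_max_right _ _
  have pm : ∀ s t, s ≤ t → p s ≤ p t := fun s t h => by
    rw [hp]; exact min_le_min_right _ (by linarith)
  have qm : ∀ s t, s ≤ t → q s ≤ q t := fun s t h => by
    rw [hq]; exact max_le_max_right _ (by linarith)
  have pl : ∀ s t, s ≤ t → p t - p s ≤ 2 * (t - s) := fun s t h => by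
    rw [hp]
    show min (2 * t) 1 - min (2 * s) 1 ≤ _
    rcases le_total (2 * s) 1 with e | e
    · rw [min_eq_left e]; linarith [min_le_left (2 * t) 1]
    · rw [min_eq_right e]; linarith [min_le_right (2 * t) 1]
  have ql : ∀ s t, s ≤ t → q t - q s ≤ 2 * (t - s) := fun s t h => by
    rw [hq]
    show max (2 * t - 1) 0 - max (2 * s - 1) 0 ≤ _
    rcases le_total (2 * t - 1) 0 with e | e
    · rw [max_eq_right e]; linarith [le_max_right (2 * s - 1) 0]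
    · rw [max_eq_left e]; linarith [le_max_left (2 * s - 1) 0]
  have qz : ∀ s, 2 * s ≤ 1 → q s = 0 := fun s h => by
    rw [hq]; exact max_eq_right (by linarith)
  have po : ∀ s, 1 ≤ 2 * s → p s = 1 := fun s h => by
    rw [hp]; exact min_eq_right h
  have hm1 : ∀ s t, 0 ≤ s → s ≤ t → ∀ z ∈ ball (0 : ℂ) 1, ψ₁ (p s) (p t) z ∈ ball (0 : ℂ) 1 :=
    fun s t hs hst z hz => (a1 _ _ (p0 s hs) (pm s t hst)).2.1 hz
  refine ⟨fun s t z => ψ₂ (q s) (q t) (ψ₁ (p s) (p t) z), fun z => 2 * (K z + c),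
    ⟨?_, ?_, ?_, ?_⟩, ?_, ?_⟩
  · intro s t hs hst
    exact uniD_comp (b1 _ _ (q0 s) (qm s t hst)) (a1 _ _ (p0 s hs) (pm s t hst))
  · intro s hs z hz
    show ψ₂ (q s) (q s) (ψ₁ (p s) (p s) z) = z
    rw [a2 _ (p0 s hs) z hz, b2 _ (q0 s) z hz]
  · intro s u t hs hsu hut z hz
    show ψ₂ (q s) (q t) (ψ₁ (p s) (p t) z) =
      ψ₂ (q u) (q t) (ψ₁ (p u) (p t) (ψ₂ (q s) (q u) (ψ₁ (p s) (p u) z)))
    have hu : 0 ≤ u := hs.trans hsu
    rcases le_total (2 * u) 1 with e | e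
    · rw [qz u e, qz s (by linarith), b2 0 le_rfl _ (hm1 s u hs hsu z hz),
        ← a3 _ _ _ (p0 s hs) (pm s u hsu) (pm u t hut) z hz]
    · have e2 : p t = 1 := po t (by linarith)
      have hw : ψ₁ (p s) 1 z ∈ ball (0 : ℂ) 1 := by
        have := hm1 s u hs hsu z hz
        rwa [po u e] at this
      rw [e2, po u e, a2 1 zero_le_one _ ((b1 _ _ (q0 s) (qm s u hsu)).2.1 hw),
        ← b3 _ _ _ (q0 s) (qm s u hsu) (qm u t hut) _ hw]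
  · intro s u t hs hsu hut z hz
    show ‖ψ₂ (q s) (q u) (ψ₁ (p s) (p u) z) - ψ₂ (q s) (q t) (ψ₁ (p s) (p t) z)‖ ≤
      2 * (K z + c) * (t - u)
    have hu : 0 ≤ u := hs.trans hsu
    have hK := h1.nonneg hz
    rcases le_total (2 * u) 1 with e | e
    · rw [qz u e, qz s (by linarith), b2 0 le_rfl _ (hm1 s u hs hsu z hz)]
      have g1 := a4 _ _ _ (p0 s hs) (pm s u hsu) (pm u t hut) z hz
      have g2 := b4 0 0 (q t) le_rfl le_rfl (q0 t) _ (hm1 s t hs (hsu.trans hut) z hz)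
      rw [b2 0 le_rfl _ (hm1 s t hs (hsu.trans hut) z hz)] at g2
      have g3 : ‖ψ₁ (p s) (p u) z - ψ₂ 0 (q t) (ψ₁ (p s) (p t) z)‖ ≤
          ‖ψ₁ (p s) (p u) z - ψ₁ (p s) (p t) z‖ +
          ‖ψ₁ (p s) (p t) z - ψ₂ 0 (q t) (ψ₁ (p s) (p t) z)‖ := norm_sub_le_norm_sub_add_norm_sub _ _ _
      have g4 := pl u t hut
      have g5 := ql u t hut
      rw [qz u e] at g5
      have g6 : K z * (p t - p u) ≤ K z * (2 * (t - u)) := mul_le_mul_of_nonneg_left g4 hK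
      have g7 : c * (q t - 0) ≤ c * (2 * (t - u)) := mul_le_mul_of_nonneg_left g5 hc
      linarith
    · have e2 : p t = 1 := po t (by linarith)
      rw [e2, po u e]
      have hw : ψ₁ (p s) 1 z ∈ ball (0 : ℂ) 1 := by
        have := hm1 s u hs hsu z hz
        rwa [po u e] at this
      have g1 := b4 _ _ _ (q0 s) (qm s u hsu) (qm u t hut) _ hw
      have g5 := ql u t hut
      have g7 : c * (q t - q u) ≤ c * (2 * (t - u)) := mul_le_mul_of_nonneg_left g5 hc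
      have g8 : 0 ≤ K z * (t - u) := mul_nonneg hK (by linarith)
      linarith
  · intro s t hs hst
    exact ⟨p s, p t, q s, q t, p0 s hs, pm s t hst, q0 s, qm s t hst, rfl⟩
  · intro z
    have e1 : p 0 = 0 := by rw [hp]; simp
    have e2 : p 1 = 1 := po 1 (by norm_num)
    have e3 : q 0 = 0 := qz 0 (by norm_num)
    have e4 : q 1 = 1 := by rw [hq]; norm_num
    show ψ₂ (q 0) (q 1) (ψ₁ (p 0) (p 1) z) = _
    rw [e1, e2, e3, e4]

/-! ### paths of automorphisms -/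

/-- the automorphism at time `t` -/
def Af (a : ℂ) (ρ : ℝ → ℂ) (t : ℝ) (z : ℂ) : ℂ := mob (t * a) (ρ t * z)

/-- its inverse -/
def Bf (a : ℂ) (ρ : ℝ → ℂ) (t : ℝ) (z : ℂ) : ℂ := (ρ t)⁻¹ * mob (-(t * a)) z

/-- admissible rotation factors -/
structure Rot (ρ : ℝ → ℂ) (c : ℝ) : Prop where
  one : ∀ t ∈ Icc (0 : ℝ) 1, ‖ρ t‖ = 1
  lip : ∀ u ∈ Icc (0 : ℝ) 1, ∀ t ∈ Icc (0 : ℝ) 1, u ≤ t → ‖ρ u - ρ t‖ ≤ c * (t - u)
  zero : ρ 0 = 1

variable {a : ℂ} {ρ : ℝ → ℂ} {c : ℝ}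

theorem ta_le {t : ℝ} (ht : t ∈ Icc (0 : ℝ) 1) : ‖(t : ℂ) * a‖ ≤ ‖a‖ := by
  rw [norm_mul, Complex.norm_real, Real.norm_eq_abs, abs_of_nonneg ht.1]
  exact mul_le_of_le_one_left (norm_nonneg _) ht.2

theorem ta_lt (ha : ‖a‖ < 1) {t : ℝ} (ht : t ∈ Icc (0 : ℝ) 1) : ‖(t : ℂ) * a‖ < 1 :=
  (ta_le ht).trans_lt ha

theorem rot_ne (hρ : Rot ρ c) {t : ℝ} (ht : t ∈ Icc (0 : ℝ) 1) : ρ t ≠ 0 := by
  intro h
  have := hρ.one t ht
  rw [h, norm_zero] at this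
  exact zero_ne_one this

theorem mul_norm_one {u w : ℂ} (hu : ‖u‖ = 1) : ‖u * w‖ = ‖w‖ := by
  rw [norm_mul, hu, one_mul]

theorem uniD_rot {u : ℂ} (hu : ‖u‖ = 1) : UniD (fun w => u * w) := by
  have hu0 : u ≠ 0 := by
    rintro rfl
    rw [norm_zero] at hu
    exact zero_ne_one hu
  refine ⟨(differentiable_id.const_mul u).differentiableOn, fun w hw => ?_, fun w _ v _ e =>
    mul_left_cancel₀ hu0 e⟩
  rw [mem_ball_zero_iff] at hw ⊢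
  rw [mul_norm_one hu]; exact hw

theorem uniD_mob {b : ℂ} (hb : ‖b‖ < 1) : UniD (mob b) :=
  ⟨mob_diff hb, fun w hw => mob_ball hb hw, fun w hw v hv e => by
    rw [← mob_inv hb (mem_ball_zero_iff.1 hw).le, ← mob_inv hb (mem_ball_zero_iff.1 hv).le, e]⟩

theorem af_uni (ha : ‖a‖ < 1) (hρ : Rot ρ c) {t : ℝ} (ht : t ∈ Icc (0 : ℝ) 1) :
    UniD (Af a ρ t) :=
  uniD_comp (f := mob (t * a)) (g := fun w => ρ t * w) (uniD_mob (ta_lt ha ht))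
    (uniD_rot (hρ.one t ht))

theorem bf_uni (ha : ‖a‖ < 1) (hρ : Rot ρ c) {t : ℝ} (ht : t ∈ Icc (0 : ℝ) 1) :
    UniD (Bf a ρ t) := by
  have h1 : ‖(ρ t)⁻¹‖ = 1 := by rw [norm_inv, hρ.one t ht, inv_one]
  have h2 : ‖-((t : ℂ) * a)‖ < 1 := by rw [norm_neg]; exact ta_lt ha ht
  exact uniD_comp (f := fun w => (ρ t)⁻¹ * w) (g := mob (-(t * a))) (uniD_rot h1) (uniD_mob h2)

theorem af_bf (ha : ‖a‖ < 1) (hρ : Rot ρ c) {t : ℝ} (ht : t ∈ Icc (0 : ℝ) 1) {z : ℂ}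
    (hz : ‖z‖ ≤ 1) : Af a ρ t (Bf a ρ t z) = z := by
  unfold Af Bf
  rw [mul_inv_cancel_left₀ (rot_ne hρ ht), mob_inv' (ta_lt ha ht) hz]

theorem bf_af (ha : ‖a‖ < 1) (hρ : Rot ρ c) {t : ℝ} (ht : t ∈ Icc (0 : ℝ) 1) {z : ℂ}
    (hz : ‖z‖ ≤ 1) : Bf a ρ t (Af a ρ t z) = z := by
  unfold Af Bf
  rw [mob_inv (ta_lt ha ht) (by rw [mul_norm_one (hρ.one t ht)]; exact hz),
    inv_mul_cancel_left₀ (rot_ne hρ ht)]

/-- Lipschitz dependence of the automorphisms on the parameter -/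
theorem mob_par (ha : ‖a‖ < 1) {u t : ℝ} (hu : u ∈ Icc (0 : ℝ) 1) (ht : t ∈ Icc (0 : ℝ) 1)
    (hut : u ≤ t) {w : ℂ} (hw : ‖w‖ ≤ 1) :
    ‖mob (u * a) w - mob (t * a) w‖ ≤ 2 / (1 - ‖a‖) ^ 2 * (t - u) := by
  have h1 := mob_den (ta_lt ha hu) hw
  have h2 := mob_den (ta_lt ha ht) hw
  have e : mob (u * a) w - mob (t * a) w =
      ((t - u : ℝ) : ℂ) * (conj a * w ^ 2 - a) /
        ((1 + conj ((u : ℂ) * a) * w) * (1 + conj ((t : ℂ) * a) * w)) := by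
    rw [mob, mob, div_sub_div _ _ h1 h2]
    congr 1
    rw [map_mul, map_mul, Complex.conj_ofReal, Complex.conj_ofReal]
    push_cast
    ring
  have h3 : ‖conj a * w ^ 2 - a‖ ≤ 2 := by
    calc ‖conj a * w ^ 2 - a‖ ≤ ‖conj a * w ^ 2‖ + ‖a‖ := norm_sub_le _ _
      _ ≤ 1 + 1 := by
          rw [norm_mul, norm_pow, Complex.norm_conj]
          have : ‖w‖ ^ 2 ≤ 1 := pow_le_one₀ (norm_nonneg _) hw
          nlinarith [norm_nonneg a, norm_nonneg w]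
      _ = 2 := by norm_num
  have h4 := mob_den_ge (ta_lt ha hu) hw
  have h5 := mob_den_ge (ta_lt ha ht) hw
  have h6 : 0 < 1 - ‖a‖ := by linarith
  have h7 : 1 - ‖a‖ ≤ ‖1 + conj ((u : ℂ) * a) * w‖ := by linarith [ta_le (a := a) hu]
  have h8 : 1 - ‖a‖ ≤ ‖1 + conj ((t : ℂ) * a) * w‖ := by linarith [ta_le (a := a) ht]
  rw [e, norm_div, norm_mul, norm_mul, Complex.norm_real, Real.norm_eq_abs,
    abs_of_nonneg (by linarith)]
  have h9 : (1 - ‖a‖) ^ 2 ≤ ‖1 + conj ((u : ℂ) * a) * w‖ * ‖1 + conj ((t : ℂ) * a) * w‖ := by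
    rw [sq]
    exact mul_le_mul h7 h8 h6.le (h6.le.trans h7)
  calc (t - u) * ‖conj a * w ^ 2 - a‖ /
        (‖1 + conj ((u : ℂ) * a) * w‖ * ‖1 + conj ((t : ℂ) * a) * w‖)
      ≤ (t - u) * 2 / (1 - ‖a‖) ^ 2 := by
        apply div_le_div₀ (mul_nonneg (by linarith) (by norm_num)) _ (by positivity) h9
        exact mul_le_mul_of_nonneg_left h3 (by linarith)
    _ = _ := by ring

/-- the evolution family of automorphisms -/
theorem aut_lev (ha : ‖a‖ < 1) (hρ : Rot ρ c) (hc : 0 ≤ c) :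
    LEv (fun s t z => Af a ρ (min t 1) (Bf a ρ (min s 1) z))
      (fun _ => 2 / (1 - ‖a‖) ^ 2 * c + 2 / (1 - ‖a‖) ^ 2) := by
  have hmin : ∀ t : ℝ, 0 ≤ t → min t 1 ∈ Icc (0 : ℝ) 1 := fun t ht =>
    ⟨le_min ht zero_le_one, min_le_right _ _⟩
  have hle : ∀ {w : ℂ}, w ∈ ball (0 : ℂ) 1 → ‖w‖ ≤ 1 := fun hw => (mem_ball_zero_iff.1 hw).le
  refine ⟨?_, ?_, ?_, ?_⟩
  · intro s t hs hst
    exact uniD_comp (af_uni ha hρ (hmin t (hs.trans hst))) (bf_uni ha hρ (hmin s hs))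
  · intro s hs z hz
    exact af_bf ha hρ (hmin s hs) (hle hz)
  · intro s u t hs hsu hut z hz
    show Af a ρ (min t 1) (Bf a ρ (min s 1) z) =
      Af a ρ (min t 1) (Bf a ρ (min u 1) (Af a ρ (min u 1) (Bf a ρ (min s 1) z)))
    rw [bf_af ha hρ (hmin u (hs.trans hsu)) (hle ((bf_uni ha hρ (hmin s hs)).2.1 hz))]
  · intro s u t hs hsu hut z hz
    show ‖Af a ρ (min u 1) (Bf a ρ (min s 1) z) - Af a ρ (min t 1) (Bf a ρ (min s 1) z)‖ ≤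
      (2 / (1 - ‖a‖) ^ 2 * c + 2 / (1 - ‖a‖) ^ 2) * (t - u)
    have hu0 := hmin u (hs.trans hsu)
    have ht0 := hmin t (hs.trans (hsu.trans hut))
    have hut' : min u 1 ≤ min t 1 := min_le_min_right 1 hut
    have hd : min t 1 - min u 1 ≤ t - u := by
      rcases le_total t 1 with h1 | h1
      · rw [min_eq_left h1, min_eq_left (hut.trans h1)]
      · rw [min_eq_right h1]
        rcases le_total u 1 with h2 | h2
        · rw [min_eq_left h2]; linarith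
        · rw [min_eq_right h2]; linarith
    obtain ⟨v, hv⟩ : ∃ v, v = Bf a ρ (min s 1) z := ⟨_, rfl⟩
    have hvB : v ∈ ball (0 : ℂ) 1 := by rw [hv]; exact (bf_uni ha hρ (hmin s hs)).2.1 hz
    rw [← hv]
    generalize min u 1 = u' at *
    generalize min t 1 = t' at *
    have h6 : 0 < 1 - ‖a‖ := by linarith
    have n1 : ‖ρ u' * v‖ ≤ 1 := by rw [mul_norm_one (hρ.one _ hu0)]; exact hle hvB
    have n2 : ‖ρ t' * v‖ ≤ 1 := by rw [mul_norm_one (hρ.one _ ht0)]; exact hle hvB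
    have g1 := mob_sub (ta_lt ha hu0) n1 n2
    have g2 := mob_par ha hu0 ht0 hut' n2
    have g3 : ‖ρ u' * v - ρ t' * v‖ ≤ c * (t' - u') := by
      rw [← sub_mul, norm_mul]
      calc ‖ρ u' - ρ t'‖ * ‖v‖ ≤ ‖ρ u' - ρ t'‖ * 1 :=
            mul_le_mul_of_nonneg_left (hle hvB) (norm_nonneg _)
        _ = ‖ρ u' - ρ t'‖ := mul_one _
        _ ≤ _ := hρ.lip u' hu0 t' ht0 hut'
    have g4 : 2 / (1 - ‖(u' : ℂ) * a‖) ^ 2 ≤ 2 / (1 - ‖a‖) ^ 2 := by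
      apply div_le_div_of_nonneg_left (by norm_num) (by positivity)
      exact pow_le_pow_left₀ h6.le (by linarith [ta_le (a := a) hu0]) 2
    have g5 : ‖mob (u' * a) (ρ u' * v) - mob (u' * a) (ρ t' * v)‖ ≤
        2 / (1 - ‖a‖) ^ 2 * (c * (t' - u')) :=
      g1.trans (mul_le_mul g4 g3 (norm_nonneg _) (by positivity))
    have g6 : ‖mob (u' * a) (ρ u' * v) - mob (t' * a) (ρ t' * v)‖ ≤
        ‖mob (u' * a) (ρ u' * v) - mob (u' * a) (ρ t' * v)‖ +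
        ‖mob (u' * a) (ρ t' * v) - mob (t' * a) (ρ t' * v)‖ :=
      norm_sub_le_norm_sub_add_norm_sub _ _ _
    show ‖mob (u' * a) (ρ u' * v) - mob (t' * a) (ρ t' * v)‖ ≤ _
    have g7 : (2 / (1 - ‖a‖) ^ 2 * c + 2 / (1 - ‖a‖) ^ 2) * (t' - u') ≤
        (2 / (1 - ‖a‖) ^ 2 * c + 2 / (1 - ‖a‖) ^ 2) * (t - u) :=
      mul_le_mul_of_nonneg_left hd (by positivity)
    linarith


end Pool.Agent.J6H12.LWP
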