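import Pool.Agent.J6H12.LWP.SecP

/-!
# Periodic data: existence, transition maps, compactness
-/

set_option autoImplicit false

open Set Filter Topology Complex Metric

noncomputable section

namespace Pool.Agent.J6H12.LWP

open LW242 Pool.Agent.Y367.LW

/-- compactness of the set of data, with the pointwise limits -/
theorem kk (hNF : S_NF) (hSP : S_SP) (hJ : S_JBD) (hO : S_O) (n : ℕ) (φ : ℂ → ℂ) (c : ℝ)
    (x A : ℕ → ℝ) (hB : Base n φ c x A) (f g : ℕ → ℂ → ℂ) (ζ : ℕ → ℕ → ℝ)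
    (hD : ∀ k, Dat n φ c x A (f k) (g k) (ζ k)) :
    ∃ (f' g' : ℂ → ℂ) (ζ' : ℕ → ℝ), Dat n φ c x A f' g' ζ' ∧
    (∀ j ≤ n, Tendsto (fun k => ζ k j) (hyperfilter ℕ) (𝓝 (ζ' j))) ∧
    Tendsto (fun k => rho (g k)) (hyperfilter ℕ) (𝓝 (rho g')) ∧
    (∀ p ∈ Hp, (∀ᶠ k in (hyperfilter ℕ : Filter ℕ), p ∉ f k '' Hp) → p ∉ f' '' Hp) ∧
    (∀ (f₁ g₁ : ℂ → ℂ) (ζ₁ : ℕ → ℝ), Dat n φ c x A f₁ g₁ ζ₁ →
      (∀ᶠ k in (hyperfilter ℕ : Filter ℕ), f₁ '' Hp ⊆ f k '' Hp) → f₁ '' Hp ⊆ f' '' Hp) ∧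
    (∀ z ∈ Hp, Tendsto (fun k => f k z) (hyperfilter ℕ) (𝓝 (f' z))) ∧
    (∀ z ∈ Hp, Tendsto (fun k => g k z) (hyperfilter ℕ) (𝓝 (g' z))) := by
  have hc := hB.one_le
  have hfM : ∀ k, MapsTo (f k) Hp Hp := fun k => (hD k).f_uni.2.1
  have hgM : ∀ k, MapsTo (g k) Hp Hp := fun k => (hD k).g_uni.2.1
  have hA0 : 0 < A 0 := (hJ _ _ _ _ (hgM 0) ((hD 0).g_jul 0 (Nat.zero_le n))).1
  have hgb : ∀ k, ∀ z ∈ Hp, ‖g k z - (x 0 : ℂ)‖ ≤ A 0 * (‖z - (x 0 : ℂ)‖ ^ 2 / z.im) := by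
    intro k z hz
    have := (hJ _ _ _ _ (hgM k) ((hD k).g_jul 0 (Nat.zero_le n))).2.1 z hz
    rwa [(hD k).zero] at this
  have hfb : ∀ k, ∀ z ∈ Hp, ‖f k z - (x 0 : ℂ)‖ ≤ A 0 * (‖z - (x 0 : ℂ)‖ ^ 2 / z.im) := by
    intro k z hz
    have := (hJ _ _ _ _ (hfM k) ((hD k).f_jul 0 (Nat.zero_le n))).2.1 z hz
    rwa [(hD k).zero] at this
  obtain ⟨f', hf'd, hf'l, -, hf'm, hf'i, hf'o⟩ :=
    hNF f (fun k => (hD k).f_uni.1) (locbdd hA0 hfb)
  obtain ⟨g', hg'd, hg'l, hg'D, hg'm, hg'i, hg'o⟩ :=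
    hNF g (fun k => (hD k).g_uni.1) (locbdd hA0 hgb)
  have hI : (I : ℂ) ∈ Hp := by show 0 < (I : ℂ).im; simp
  -- limits of the marked points
  have hζ : ∀ j, ∃ y : ℝ, j ≤ n → Tendsto (fun k => ζ k j) (hyperfilter ℕ) (𝓝 y) := by
    intro j
    by_cases hj : j ≤ n
    · have hb : ∀ k, ‖ζ k j‖ ≤ A j * (‖I - (x j : ℂ)‖ ^ 2 / (I : ℂ).im)
          + (‖(x 0 : ℂ)‖ + A 0 * (‖I - (x 0 : ℂ)‖ ^ 2 / (I : ℂ).im)) := by
        intro k
        have h1 := (hJ _ _ _ _ (hgM k) ((hD k).g_jul j hj)).2.1 I hI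
        have h2 := hgb k I hI
        have h3 : ‖((ζ k j : ℝ) : ℂ)‖ ≤ ‖g k I - ((ζ k j : ℝ) : ℂ)‖ + ‖g k I‖ := by
          calc ‖((ζ k j : ℝ) : ℂ)‖ = ‖g k I - (g k I - ((ζ k j : ℝ) : ℂ))‖ := by ring_nf
            _ ≤ ‖g k I‖ + ‖g k I - ((ζ k j : ℝ) : ℂ)‖ := norm_sub_le _ _
            _ = _ := by ring
        have h4 : ‖g k I‖ ≤ ‖(x 0 : ℂ)‖ + ‖g k I - (x 0 : ℂ)‖ := by
          calc ‖g k I‖ = ‖(x 0 : ℂ) + (g k I - x 0)‖ := by ring_nf
            _ ≤ _ := norm_add_le _ _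
        have h5 : ‖ζ k j‖ = ‖((ζ k j : ℝ) : ℂ)‖ := (Complex.norm_real _).symm
        rw [h5]
        linarith
      obtain ⟨y, hy⟩ := ulim (fun k => ζ k j) _ (Eventually.of_forall hb)
      exact ⟨y, fun _ => hy⟩
    · exact ⟨0, fun h => absurd h hj⟩
  choose ζ' hζ' using hζ
  have hf'im : ∀ z ∈ Hp, 1 * z.im ≤ (f' z).im := fun z hz =>
    im_pos_of z (fun k => by simpa using (hD k).f_im z hz) (hf'l z hz)
  have hg'im : ∀ z ∈ Hp, c * z.im ≤ (g' z).im := fun z hz =>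
    im_pos_of z (fun k => (hD k).g_im z hz) (hg'l z hz)
  have hf'M : MapsTo f' Hp Hp := by
    intro z hz
    have h1 := hf'im z hz
    have h2 : 0 < z.im := hz
    show 0 < (f' z).im
    linarith
  have hg'M : MapsTo g' Hp Hp := by
    intro z hz
    have h1 := hg'im z hz
    have h2 : 0 < z.im := hz
    show 0 < (g' z).im
    nlinarith
  have hf'inj : InjOn f' Hp := by
    rcases hf'i (fun k => (hD k).f_uni.2.2) with h | ⟨p, hp⟩
    · exact h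
    · exact absurd hp (not_const le_rfl hf'im p)
  have hg'inj : InjOn g' Hp := by
    rcases hg'i (fun k => (hD k).g_uni.2.2) with h | ⟨p, hp⟩
    · exact h
    · exact absurd hp (not_const hc hg'im p)
  refine ⟨f', g', ζ', ?_, fun j hj => hζ' j hj, ?_, ?_, ?_, hf'l, hg'l⟩
  · refine ⟨⟨hf'd, hf'M, hf'inj⟩, ⟨hg'd, hg'M, hg'inj⟩, ?_, ?_, hg'im, ?_, ?_, ?_⟩
    · intro z hz
      have h1 := hf'm (g' z) (hg'M hz) (fun k => g k z) (hg'l z hz)
      have h2 : (fun k => f k (g k z)) = fun _ => φ z := by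
        funext k; exact (hD k).comp z hz
      rw [h2] at h1
      exact tendsto_nhds_unique h1 tendsto_const_nhds
    · intro z hz
      simpa using hf'im z hz
    · have h1 := hζ' 0 (Nat.zero_le n)
      have h2 : (fun k => ζ k 0) = fun _ => x 0 := by
        funext k; exact (hD k).zero
      rw [h2] at h1
      exact (tendsto_nhds_unique tendsto_const_nhds h1).symm
    · intro j hj
      exact jul_closed hg'l tendsto_const_nhds (hζ' j hj) (fun k => (hD k).g_jul j hj)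
    · intro j hj
      exact jul_closed hf'l (hζ' j hj) tendsto_const_nhds (fun k => (hD k).f_jul j hj)
  · have h1 : Tendsto (fun k => ‖deriv (g k) I‖) (hyperfilter ℕ) (𝓝 ‖deriv g' I‖) :=
      (hg'D I hI).norm
    have h2 : Tendsto (fun k => (g k I).im) (hyperfilter ℕ) (𝓝 (g' I).im) :=
      (Complex.continuous_im.tendsto _).comp (hg'l I hI)
    exact h1.div h2 (ne_of_gt (hg'M hI))
  · intro p _ hp
    rcases hf'o p hp with h | h
    · exact h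
    · exact absurd h (not_const le_rfl hf'im p)
  · intro f₁ g₁ ζ₁ hD₁ hsub
    rintro p ⟨w, hw, rfl⟩
    have hw' : 0 < w.im := hw
    have hg₁I : 0 < (g₁ I).im := hD₁.g_uni.2.1 hI
    -- the points z_k
    have hex : ∀ k, ∃ z : ℂ, f₁ '' Hp ⊆ f k '' Hp → (f k z = f₁ w ∧ w.im ≤ z.im ∧
        ‖z - g k I‖ ^ 2 * w.im * (g₁ I).im ≤ ‖w - g₁ I‖ ^ 2 * z.im * (g k I).im) := by
      intro k
      by_cases hk : f₁ '' Hp ⊆ f k '' Hp
      · obtain ⟨h, hU, h1, h2, h3, -⟩ := hO n φ c x A hB f₁ g₁ ζ₁ (f k) (g k) (ζ k) hD₁ (hD k) hk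
        refine ⟨h w, fun _ => ⟨h1 w hw, h3 w hw, ?_⟩⟩
        have h4 := hSP h hU.1 (fun z hz => le_of_lt (hU.2.1 hz)) w hw (g₁ I) hg₁I
        rwa [h2 I hI] at h4
      · exact ⟨0, fun h => absurd h hk⟩
    choose zz hzz using hex
    set Q : ℝ := ‖(x 0 : ℂ)‖ + A 0 * (‖I - (x 0 : ℂ)‖ ^ 2 / (I : ℂ).im) + 1 with hQ
    have hQb : ∀ k, ‖g k I‖ ≤ Q := by
      intro k
      have h2 := hgb k I hI
      have h4 : ‖g k I‖ ≤ ‖(x 0 : ℂ)‖ + ‖g k I - (x 0 : ℂ)‖ := by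
        calc ‖g k I‖ = ‖(x 0 : ℂ) + (g k I - x 0)‖ := by ring_nf
          _ ≤ _ := norm_add_le _ _
      linarith
    have hQ0 : 0 < Q := lt_of_lt_of_le (by
      have : 0 < (g 0 I).im := hgM 0 hI
      have h5 : (g 0 I).im ≤ ‖g 0 I‖ := le_trans (le_abs_self _) (Complex.abs_im_le_norm _)
      linarith) (hQb 0)
    set a : ℝ := w.im * (g₁ I).im with ha
    have ha0 : 0 < a := mul_pos hw' hg₁I
    set b : ℝ := ‖w - g₁ I‖ ^ 2 with hb
    have hb0 : 0 ≤ b := by positivity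
    have hbd : ∀ᶠ k in (hyperfilter ℕ : Filter ℕ), ‖zz k‖ ≤ (Q + 2 * b * Q / a) + Q := by
      filter_upwards [hsub] with k hk
      obtain ⟨-, h2, h3⟩ := hzz k hk
      set D : ℝ := ‖zz k - g k I‖ with hDd
      have hD0 : 0 ≤ D := norm_nonneg _
      have h4 : ‖zz k‖ ≤ D + Q := by
        calc ‖zz k‖ = ‖(zz k - g k I) + g k I‖ := by ring_nf
          _ ≤ ‖zz k - g k I‖ + ‖g k I‖ := norm_add_le _ _
          _ ≤ _ := by have := hQb k; linarith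
      have h5 : (zz k).im ≤ D + Q :=
        le_trans (le_trans (le_abs_self _) (Complex.abs_im_le_norm _)) h4
      have h6 : (g k I).im ≤ Q :=
        le_trans (le_trans (le_abs_self _) (Complex.abs_im_le_norm _)) (hQb k)
      have h6' : 0 < (g k I).im := hgM k hI
      have h5' : 0 ≤ (zz k).im := by linarith
      have h7 : D ^ 2 * a ≤ b * ((D + Q) * Q) := by
        calc D ^ 2 * a = D ^ 2 * w.im * (g₁ I).im := by rw [ha]; ring
          _ ≤ b * (zz k).im * (g k I).im := h3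
          _ = b * ((zz k).im * (g k I).im) := by ring
          _ ≤ b * ((D + Q) * Q) := by
              apply mul_le_mul_of_nonneg_left _ hb0
              exact mul_le_mul h5 h6 h6'.le (by linarith)
      have h8 : D ≤ Q + 2 * b * Q / a := by
        by_cases hDQ : D ≤ Q
        · have : 0 ≤ 2 * b * Q / a := by positivity
          linarith
        · push Not at hDQ
          have hDpos : 0 < D := lt_trans hQ0 hDQ
          have h9 : D * a ≤ 2 * b * Q := by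
            have h10 : D * (D * a) ≤ D * (2 * b * Q) := by
              calc D * (D * a) = D ^ 2 * a := by ring
                _ ≤ b * ((D + Q) * Q) := h7
                _ ≤ b * ((D + D) * Q) := by
                    apply mul_le_mul_of_nonneg_left _ hb0
                    apply mul_le_mul_of_nonneg_right _ hQ0.le
                    linarith
                _ = D * (2 * b * Q) := by ring
            exact le_of_mul_le_mul_left h10 hDpos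
          have h11 : D ≤ 2 * b * Q / a := by
            rw [le_div_iff₀ ha0]; exact h9
          linarith
      linarith
    obtain ⟨z, hz⟩ := ulim zz _ hbd
    have hzim : w.im ≤ z.im := by
      apply ge_of_tendsto ((Complex.continuous_im.tendsto _).comp hz)
      filter_upwards [hsub] with k hk
      exact (hzz k hk).2.1
    have hzH : z ∈ Hp := by
      show 0 < z.im
      linarith
    refine ⟨z, hzH, ?_⟩
    have h1 := hf'm z hzH zz hz
    have h2 : Tendsto (fun k => f k (zz k)) (hyperfilter ℕ) (𝓝 (f₁ w)) := by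
      apply Tendsto.congr' _ tendsto_const_nhds
      filter_upwards [hsub] with k hk
      exact (hzz k hk).1.symm
    exact tendsto_nhds_unique h1 h2


/-- periodic data -/
structure DP (n : ℕ) (φ : ℂ → ℂ) (x A : ℕ → ℝ) (f g : ℂ → ℂ) (ζ : ℕ → ℝ) : Prop where
  d : Dat n φ 1 x A f g ζ
  pf : Pd f
  pg : Pd g

section

variable {n : ℕ} {φ : ℂ → ℂ} {x A : ℕ → ℝ}

theorem zeta_n (h : PB n φ x A) {f g : ℂ → ℂ} {ζ : ℕ → ℝ} (hD : DP n φ x A f g ζ) :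
    ζ n = ζ 0 + TT := by
  have h1 := hD.d.g_jul n le_rfl
  have h2 := jul_shift hD.pg (hD.d.g_jul 0 (Nat.zero_le n)) 1
  have e1 : x 0 + ((1 : ℤ) : ℝ) * TT = x n := by rw [h.xn]; simp
  have e2 : ζ 0 + ((1 : ℤ) : ℝ) * TT = ζ 0 + TT := by simp
  rw [e1, e2] at h2
  exact jul_unique hD.d.g_uni.2.1 h1 h2

theorem kp (h : PB n φ x A) (f g : ℕ → ℂ → ℂ) (ζ : ℕ → ℕ → ℝ)
    (hD : ∀ k, DP n φ x A (f k) (g k) (ζ k)) :
    ∃ (f' g' : ℂ → ℂ) (ζ' : ℕ → ℝ), DP n φ x A f' g' ζ' ∧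
    (∀ j ≤ n, Tendsto (fun k => ζ k j) (hyperfilter ℕ) (𝓝 (ζ' j))) ∧
    Tendsto (fun k => rho (g k)) (hyperfilter ℕ) (𝓝 (rho g')) ∧
    (∀ p ∈ Hp, (∀ᶠ k in (hyperfilter ℕ : Filter ℕ), p ∉ f k '' Hp) → p ∉ f' '' Hp) ∧
    (∀ (f₁ g₁ : ℂ → ℂ) (ζ₁ : ℕ → ℝ), DP n φ x A f₁ g₁ ζ₁ →
      (∀ᶠ k in (hyperfilter ℕ : Filter ℕ), f₁ '' Hp ⊆ f k '' Hp) → f₁ '' Hp ⊆ f' '' Hp) := by
  obtain ⟨f', g', ζ', h1, h2, h3, h4, h5, h6, h7⟩ := kk p_nf sp jbd p_o n φ 1 x A h.b f g ζ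
    (fun k => (hD k).d)
  have hpd : ∀ (F : ℕ → ℂ → ℂ) (G : ℂ → ℂ), (∀ k, Pd (F k)) →
      (∀ z ∈ Hp, Tendsto (fun k => F k z) (hyperfilter ℕ) (𝓝 (G z))) → Pd G := by
    intro F G hF hG z hz
    have l1 := hG _ (add_mem hz TT)
    have l2 := (hG z hz).add_const (TT : ℂ)
    have e : (fun k => F k (z + (TT : ℂ))) = fun k => F k z + (TT : ℂ) := by
      funext k; exact hF k z hz
    rw [e] at l1
    exact tendsto_nhds_unique l1 l2
  exact ⟨f', g', ζ', ⟨h1, hpd f f' (fun k => (hD k).pf) h6, hpd g g' (fun k => (hD k).pg) h7⟩,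
    h2, h3, h4, fun f₁ g₁ ζ₁ hd => h5 f₁ g₁ ζ₁ hd.d⟩

theorem op (h : PB n φ x A) {f g : ℂ → ℂ} {ζ : ℕ → ℝ} {f' g' : ℂ → ℂ} {ζ' : ℕ → ℝ}
    (hD : DP n φ x A f g ζ) (hD' : DP n φ x A f' g' ζ') (hs : f '' Hp ⊆ f' '' Hp) :
    ∃ h : ℂ → ℂ, Uni h ∧ Pd h ∧ (∀ z ∈ Hp, f' (h z) = f z) ∧ ∀ z ∈ Hp, h (g z) = g' z := by
  obtain ⟨k, h1, h2, h3, -, -⟩ := p_o n φ 1 x A h.b f g ζ f' g' ζ' hD.d hD'.d hs
  refine ⟨k, h1, ?_, h2, h3⟩
  intro z hz
  apply hD'.d.f_uni.2.2 (h1.2.1 (add_mem hz TT)) (add_mem (h1.2.1 hz) TT)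
  rw [h2 _ (add_mem hz TT), hD.pf z hz, hD'.pf _ (h1.2.1 hz), h2 z hz]

theorem rp (h : PB n φ x A) {F : ℂ → ℂ} (hF : Uni F) (hFP : Pd F) (hsub : φ '' Hp ⊆ F '' Hp) :
    ∃ (f g : ℂ → ℂ) (ζ : ℕ → ℝ), DP n φ x A f g ζ ∧ f '' Hp = F '' Hp := by
  set G : ℂ → ℂ := fun z => Function.invFunOn F Hp (φ z) with hG
  have hφF : ∀ z ∈ Hp, φ z ∈ F '' Hp := fun z hz => hsub ⟨z, hz, rfl⟩
  have hFG : ∀ z ∈ Hp, F (G z) = φ z := fun z hz =>
    Pool.Agent.Helper202.Univ.invFunOn_right (hφF z hz)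
  have hGM : MapsTo G Hp Hp := fun z hz => Pool.Agent.Helper202.Univ.invFunOn_mem (hφF z hz)
  have hGd : DifferentiableOn ℂ G Hp := by
    intro z hz
    have h1 := Pool.Agent.Helper202.Univ.differentiableAt_inv hp_open hF.1 hF.2.2 (hφF z hz)
    have h2 := (h.b.uni.1.differentiableAt (hp_open.mem_nhds hz))
    exact (h1.comp z h2).differentiableWithinAt
  have hGi : InjOn G Hp := by
    intro z hz w hw e
    apply h.b.uni.2.2 hz hw
    rw [← hFG z hz, ← hFG w hw, e]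
  have hGU : Uni G := ⟨hGd, hGM, hGi⟩
  have hGP : Pd G := by
    intro z hz
    apply hF.2.2 (hGM (add_mem hz TT)) (add_mem (hGM hz) TT)
    rw [hFG _ (add_mem hz TT), h.p z hz, hFP _ (hGM hz), hFG z hz]
  have hFim := (pd_jwc hF.1 hF.2.1 hFP).1
  have hGim := (pd_jwc hGd hGM hGP).1
  have hsp : ∀ j, ∃ ζ : ℝ, j ≤ n → Jul G (x j) ζ (A j) ∧ Jul F ζ (x j) (A j) := by
    intro j
    by_cases hj : j ≤ n
    · obtain ⟨ζ, C1, C2, h1, h2, h12, hg', hf'⟩ :=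
        split F G φ (x j) (x j) (A j) hF.1 hGd hF.2.1 hGM hFim hGim hFG (h.b.jul j hj)
      refine ⟨ζ, fun _ => ⟨jul_mono hGM hg' ?_, jul_mono hF.2.1 hf' ?_⟩⟩ <;> nlinarith
    · exact ⟨0, fun h => absurd h hj⟩
  choose ζ hζ using hsp
  set t : ℝ := ζ 0 - x 0 with ht
  have htr : Uni (fun z : ℂ => z + t) :=
    ⟨(differentiable_id.add_const _).differentiableOn, fun z hz => add_mem hz t,
      fun z _ w _ e => add_right_cancel e⟩
  have htm : ∀ z ∈ Hp, z - (t : ℂ) ∈ Hp := by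
    intro z hz
    have := add_mem hz (-t)
    rwa [Complex.ofReal_neg, ← sub_eq_add_neg] at this
  have htr' : Uni (fun z : ℂ => z - t) :=
    ⟨(differentiable_id.sub_const _).differentiableOn, htm,
      fun z _ w _ e => sub_left_injective e⟩
  refine ⟨fun z => F (z + t), fun z => G z - t, fun j => ζ j - t, ⟨⟨uni_comp hF htr,
    uni_comp htr' hGU, ?_, ?_, ?_, ?_, ?_, ?_⟩, ?_, ?_⟩, ?_⟩
  · intro z hz
    show F (G z - t + t) = φ z
    rw [sub_add_cancel]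
    exact hFG z hz
  · intro z hz
    have h1 := hFim (z + t) (add_mem hz t)
    simpa using h1
  · intro z hz
    have h1 := hGim z hz
    show 1 * z.im ≤ (G z - (t : ℂ)).im
    rw [Complex.sub_im, Complex.ofReal_im, sub_zero, one_mul]
    exact h1
  · show ζ 0 - t = x 0
    rw [ht]; ring
  · intro j hj z hz
    have h1 := (hζ j hj).1 z hz
    have e : (G z - t) - ((ζ j - t : ℝ) : ℂ) = G z - (ζ j : ℂ) := by push_cast; ring
    show z.im * ‖(G z - t) - ((ζ j - t : ℝ) : ℂ)‖ ^ 2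
      ≤ A j * (G z - (t : ℂ)).im * ‖z - (x j : ℂ)‖ ^ 2
    rw [e, Complex.sub_im, Complex.ofReal_im, sub_zero]
    exact h1
  · intro j hj z hz
    have h1 := (hζ j hj).2 (z + t) (add_mem hz t)
    have e : (z + t) - (ζ j : ℂ) = z - ((ζ j - t : ℝ) : ℂ) := by push_cast; ring
    rw [e, Complex.add_im, Complex.ofReal_im, add_zero] at h1
    exact h1
  · intro z hz
    show F (z + TT + t) = F (z + t) + TT
    have e : z + (TT : ℂ) + (t : ℂ) = z + t + TT := by ring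
    rw [e, hFP _ (add_mem hz t)]
  · intro z hz
    show G (z + TT) - t = G z - t + TT
    rw [hGP z hz]; ring
  · apply Subset.antisymm
    · rintro _ ⟨z, hz, rfl⟩
      exact ⟨z + t, add_mem hz t, rfl⟩
    · rintro _ ⟨w, hw, rfl⟩
      exact ⟨w - t, htm w hw, by simp only [sub_add_cancel]⟩

/-- the half-plane as a datum -/
theorem dp_H (h : PB n φ x A) : DP n φ x A (fun z => z) φ x := ⟨dat_H h.b, pd_id, h.p⟩

/-- the smallest domain as a datum -/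
theorem dp_Om (h : PB n φ x A) : DP n φ x A φ (fun z => z) x := by
  refine ⟨⟨h.b.uni, uni_id, fun _ _ => rfl, ?_, fun z _ => by simp, rfl, ?_, h.b.jul⟩, h.p, pd_id⟩
  · intro z hz
    have := h.b.im_ge z hz
    linarith
  · intro j hj z hz
    have h1 := base_A h.b hj
    have h3 : 0 < z.im := hz
    have h5 : 0 ≤ z.im * ‖z - (x j : ℂ)‖ ^ 2 := by positivity
    calc z.im * ‖z - (x j : ℂ)‖ ^ 2 = 1 * (z.im * ‖z - (x j : ℂ)‖ ^ 2) := by ring
      _ ≤ A j * (z.im * ‖z - (x j : ℂ)‖ ^ 2) := by gcongr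
      _ = A j * z.im * ‖z - (x j : ℂ)‖ ^ 2 := by ring

end

end Pool.Agent.J6H12.LWP
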