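import Pool.Agent.J6H12.LWP.Mob
import Pool.Agent.Y242.LW.Main

/-!
# Boundary regular fixed points of univalent self-maps of the disc
-/

set_option autoImplicit false

open Set Filter Topology Complex Metric

noncomputable section

namespace Pool.Agent.J6H12.LWP

open LW242 Pool.Agent.Y256.LW

/-- Julia's condition along a sequence -/
def JD (φ : ℂ → ℂ) (σ : ℂ) : Prop :=
  ∃ (w : ℕ → ℂ) (b : ℝ), (∀ k, w k ∈ ball (0 : ℂ) 1) ∧ Tendsto w atTop (𝓝 σ) ∧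
    Tendsto (fun k => φ (w k)) atTop (𝓝 σ) ∧
    ∀ᶠ k in atTop, 1 - ‖φ (w k)‖ ≤ b * (1 - ‖w k‖)

theorem brfp_congr {φ φ' : ℂ → ℂ} {σ : ℂ} (e : ∀ w ∈ ball (0 : ℂ) 1, φ w = φ' w)
    (h : BRFP φ' σ) : BRFP φ σ := by
  obtain ⟨d, h1, h2⟩ := h
  refine ⟨d, fun M hM => (h1 M hM).congr' ?_, fun M hM => (h2 M hM).congr' ?_⟩
  · filter_upwards [self_mem_nhdsWithin] with w hw
    exact (e w (stolz_ball hw)).symm
  · filter_upwards [self_mem_nhdsWithin] with w hw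
    rw [e w (stolz_ball hw)]

theorem jd_brfp {φ : ℂ → ℂ} (hU : UniD φ) {σ : ℂ} (hσ : ‖σ‖ = 1) (h : JD φ σ) : BRFP φ σ := by
  obtain ⟨w0, b, hw0, hlim0, hφlim0, hb0⟩ := h
  obtain ⟨N, hN⟩ := eventually_atTop.1 hb0
  obtain ⟨w, hw, hlim, hφlim, hb⟩ : ∃ w : ℕ → ℂ, (∀ k, w k ∈ ball (0 : ℂ) 1) ∧
      Tendsto w atTop (𝓝 σ) ∧ Tendsto (fun k => φ (w k)) atTop (𝓝 σ) ∧
      ∀ k, 1 - ‖φ (w k)‖ ≤ b * (1 - ‖w k‖) :=
    ⟨fun k => w0 (k + N), fun k => hw0 _, hlim0.comp (tendsto_add_atTop_nat N),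
      hφlim0.comp (tendsto_add_atTop_nat N), fun k => hN _ (Nat.le_add_left _ _)⟩
  have hm := hU.2.1
  have hb0 : 0 < b := by
    have h1 := hb 0
    have h2 : ‖φ (w 0)‖ < 1 := mem_ball_zero_iff.1 (hm (hw 0))
    have h3 : ‖w 0‖ < 1 := mem_ball_zero_iff.1 (hw 0)
    by_contra hc
    push Not at hc
    nlinarith
  set τ : ℂ := -σ with hτd
  have hτ : ‖τ‖ = 1 := by rw [hτd, norm_neg]; exact hσ
  have hτ0 := tau_ne hτ
  have hI := I_ne_zero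
  have hK0 : K τ ((0 : ℝ) : ℂ) = σ := by
    unfold K
    rw [Complex.ofReal_zero, zero_sub, zero_add, hτd]
    field_simp
  have hPU := Phi_uni hτ hU
  have hz : ∀ k, K' τ (w k) ∈ Hp := fun k => K'_Hp hτ (hw k)
  have hne : σ ≠ τ := by
    intro e
    have := K_real_ne hτ 0
    rw [hK0] at this
    exact this e
  have hKs : K' τ σ = ((0 : ℝ) : ℂ) := by
    rw [← hK0, K'_K hτ0 (real_ne 0)]
  have hc : Tendsto (K' τ) (𝓝 σ) (𝓝 ((0 : ℝ) : ℂ)) := by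
    have := (K'_diff τ hne).continuousAt.tendsto
    rwa [hKs] at this
  have l1 : Tendsto (fun k => K' τ (w k)) atTop (𝓝 ((0 : ℝ) : ℂ)) := hc.comp hlim
  have hPhi : ∀ k, Phi τ φ (K' τ (w k)) = K' τ (φ (w k)) := by
    intro k
    unfold Phi
    rw [K_K' hτ0 (ball_ne hτ (hw k))]
  have l2 : Tendsto (fun k => Phi τ φ (K' τ (w k))) atTop (𝓝 ((0 : ℝ) : ℂ)) := by
    simp only [hPhi]
    exact hc.comp hφlim
  set β : ℕ → ℝ := fun k => 2 * b * (‖K' τ (φ (w k)) + I‖ ^ 2 / ‖K' τ (w k) + I‖ ^ 2) with hβ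
  have l3 : Tendsto β atTop (𝓝 (2 * b * (‖((0 : ℝ) : ℂ) + I‖ ^ 2 / ‖((0 : ℝ) : ℂ) + I‖ ^ 2))) := by
    have l2' : Tendsto (fun k => K' τ (φ (w k))) atTop (𝓝 ((0 : ℝ) : ℂ)) := hc.comp hφlim
    exact ((((l2'.add_const I).norm).pow 2).div (((l1.add_const I).norm).pow 2)
      (by simp)).const_mul _
  have hJ : Jul (Phi τ φ) 0 0 (2 * b * (‖((0 : ℝ) : ℂ) + I‖ ^ 2 / ‖((0 : ℝ) : ℂ) + I‖ ^ 2)) := by
    refine jfin (Phi τ φ) 0 0 _ (fun k => K' τ (w k)) β hPU.1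
      (fun z hz => (hp_im (hPU.2.1 hz)).le) hz l1 l2 (fun k => ?_) l3
    have hz1 := hz k
    have hz2 : K' τ (φ (w k)) ∈ Hp := K'_Hp hτ (hm (hw k))
    have e1 := one_sub hτ (hp_ne hz1)
    have e2 := one_sub hτ (hp_ne hz2)
    rw [K_K' hτ0 (ball_ne hτ (hw k))] at e1
    rw [K_K' hτ0 (ball_ne hτ (hm (hw k)))] at e2
    rw [hPhi k]
    have p1 : 0 < ‖K' τ (w k) + I‖ := norm_pos_iff.2 (hp_ne hz1)
    have p2 : 0 < ‖K' τ (φ (w k)) + I‖ := norm_pos_iff.2 (hp_ne hz2)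
    have n1 : ‖w k‖ < 1 := mem_ball_zero_iff.1 (hw k)
    have n2 : ‖φ (w k)‖ < 1 := mem_ball_zero_iff.1 (hm (hw k))
    have m1 := norm_nonneg (w k)
    have m2 := norm_nonneg (φ (w k))
    rw [eq_div_iff (by positivity)] at e1 e2
    have h5 : 1 - ‖φ (w k)‖ ^ 2 ≤ 2 * b * (1 - ‖w k‖ ^ 2) := by
      have h6 : 1 - ‖φ (w k)‖ ^ 2 ≤ 2 * (1 - ‖φ (w k)‖) := by nlinarith
      have h7 : 1 - ‖w k‖ ≤ 1 - ‖w k‖ ^ 2 := by nlinarith
      have h8 := hb k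
      have h9 : b * (1 - ‖w k‖) ≤ b * (1 - ‖w k‖ ^ 2) := mul_le_mul_of_nonneg_left h7 hb0.le
      linarith
    have h10 : 4 * (K' τ (φ (w k))).im ≤
        2 * b * (1 - ‖w k‖ ^ 2) * ‖K' τ (φ (w k)) + I‖ ^ 2 := by
      rw [← e2]
      exact mul_le_mul_of_nonneg_right h5 (by positivity)
    have e1' : 1 - ‖w k‖ ^ 2 = 4 * (K' τ (w k)).im / ‖K' τ (w k) + I‖ ^ 2 := by
      rw [eq_div_iff (by positivity)]
      exact e1
    rw [e1'] at h10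
    have h11 : 2 * b * (4 * (K' τ (w k)).im / ‖K' τ (w k) + I‖ ^ 2) *
        ‖K' τ (φ (w k)) + I‖ ^ 2 = 4 * (β k * (K' τ (w k)).im) := by
      rw [hβ]; ring
    rw [h11] at h10
    linarith
  have hB := bwd_fix jwc jbd hτ hPU hJ
  rw [hK0] at hB
  refine brfp_congr (fun v hv => ?_) hB
  unfold Psi Phi
  have hv' := ball_ne hτ hv
  rw [K_K' hτ0 hv', K_K' hτ0 (ball_ne hτ (hm hv))]

/-- consequences of being a boundary regular fixed point -/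
theorem brfp_ev {φ : ℂ → ℂ} {σ : ℂ} (hσ : ‖σ‖ = 1) (h : BRFP φ σ) {M : ℝ} (hM : 1 < M) :
    Tendsto φ (𝓝[Stolz σ M] σ) (𝓝 σ) ∧
    ∃ b : ℝ, 0 < b ∧ ∀ᶠ w in 𝓝[Stolz σ M] σ, 1 - ‖φ w‖ ≤ b * (1 - ‖w‖) := by
  obtain ⟨d, h1, h2⟩ := h
  refine ⟨h1 M hM, (‖d‖ + 1) * M, by positivity, ?_⟩
  have h3 := (h2 M hM).norm.eventually_le_const (show ‖d‖ < ‖d‖ + 1 by linarith)
  filter_upwards [h3, self_mem_nhdsWithin] with w hw hwS
  have hwb : ‖w‖ < 1 := hwS.1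
  have hne : w - σ ≠ 0 := by
    intro e
    rw [sub_eq_zero.1 e, hσ] at hwb
    exact lt_irrefl _ hwb
  rw [norm_div, div_le_iff₀ (norm_pos_iff.2 hne)] at hw
  have h4 : ‖σ‖ ≤ ‖φ w - σ‖ + ‖φ w‖ := by
    calc ‖σ‖ = ‖φ w - (φ w - σ)‖ := by ring_nf
      _ ≤ ‖φ w‖ + ‖φ w - σ‖ := norm_sub_le _ _
      _ = _ := by ring
  rw [hσ] at h4
  have h5 := hwS.2
  calc 1 - ‖φ w‖ ≤ ‖φ w - σ‖ := by linarith
    _ ≤ (‖d‖ + 1) * ‖w - σ‖ := hw
    _ ≤ (‖d‖ + 1) * (M * (1 - ‖w‖)) := by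
        apply mul_le_mul_of_nonneg_left h5.le; positivity
    _ = _ := by ring

/-- the radial sequence -/
theorem radial {σ : ℂ} (hσ : ‖σ‖ = 1) :
    ∃ w : ℕ → ℂ, (∀ k, w k ∈ ball (0 : ℂ) 1) ∧ Tendsto w atTop (𝓝[Stolz σ 2] σ) := by
  set r : ℕ → ℝ := fun k => 1 - 1 / ((k : ℝ) + 1 + 1) with hr
  have hr1 : ∀ k, r k < 1 := fun k => by
    have : (0 : ℝ) < 1 / ((k : ℝ) + 1 + 1) := by positivity
    simp only [hr]; linarith
  have hr0 : ∀ k, 0 ≤ r k := fun k => by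
    have h : 1 / ((k : ℝ) + 1 + 1) ≤ 1 := by
      rw [div_le_one (by positivity)]
      have : (0 : ℝ) ≤ k := Nat.cast_nonneg k
      linarith
    simp only [hr]; linarith
  have hrlim : Tendsto r atTop (𝓝 1) := by
    have h1 : Tendsto (fun k : ℕ => 1 / ((k : ℝ) + 1)) atTop (𝓝 0) :=
      tendsto_one_div_add_atTop_nhds_zero_nat
    have h2 := h1.comp (tendsto_add_atTop_nat 1)
    have h3 := h2.const_sub 1
    simp only [sub_zero] at h3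
    refine h3.congr fun k => ?_
    simp [hr]
  have hn : ∀ k, ‖(r k : ℂ) * σ‖ = r k := fun k => by
    rw [norm_mul, hσ, mul_one, Complex.norm_real, Real.norm_eq_abs, abs_of_nonneg (hr0 k)]
  refine ⟨fun k => (r k : ℂ) * σ, fun k => ?_, ?_⟩
  · rw [mem_ball_zero_iff, hn]; exact hr1 k
  · rw [tendsto_nhdsWithin_iff]
    constructor
    · have h1 := ((Complex.continuous_ofReal.tendsto 1).comp hrlim).mul_const σ
      rw [Complex.ofReal_one, one_mul] at h1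
      exact h1
    · refine Eventually.of_forall fun k => ⟨by rw [hn]; exact hr1 k, ?_⟩
      rw [hn]
      have e : (r k : ℂ) * σ - σ = ((r k - 1 : ℝ) : ℂ) * σ := by push_cast; ring
      rw [e, norm_mul, hσ, mul_one, Complex.norm_real, Real.norm_eq_abs,
        abs_of_neg (by linarith [hr1 k])]
      linarith [hr1 k]

theorem uniD_conj {φ : ℂ → ℂ} (hU : UniD φ) {a : ℂ} (ha : ‖a‖ < 1) :
    UniD (fun w => mob a (φ (mob (-a) w))) := by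
  have hna : ‖-a‖ < 1 := by rwa [norm_neg]
  obtain ⟨h1, h2, h3⟩ := hU
  refine ⟨?_, fun w hw => mob_ball ha (h2 (mob_ball hna hw)), ?_⟩
  · exact (mob_diff ha).comp (h1.comp (mob_diff hna) fun w hw => mob_ball hna hw)
      fun w hw => h2 (mob_ball hna hw)
  · intro w hw v hv e
    have hw1 := (mem_ball_zero_iff.1 (h2 (mob_ball hna hw))).le
    have hv1 := (mem_ball_zero_iff.1 (h2 (mob_ball hna hv))).le
    have e1 : φ (mob (-a) w) = φ (mob (-a) v) := by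
      rw [← mob_inv ha hw1, ← mob_inv ha hv1]
      exact congrArg (mob (-a)) e
    have e2 := h3 (mob_ball hna hw) (mob_ball hna hv) e1
    rw [← mob_inv' ha (mem_ball_zero_iff.1 hw).le, ← mob_inv' ha (mem_ball_zero_iff.1 hv).le, e2]

theorem brfp_conj {φ : ℂ → ℂ} (hU : UniD φ) {a σ : ℂ} (ha : ‖a‖ < 1) (hσ : ‖σ‖ = 1)
    (h : BRFP φ σ) : BRFP (fun w => mob a (φ (mob (-a) w))) (mob a σ) := by
  have hna : ‖-a‖ < 1 := by rwa [norm_neg]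
  obtain ⟨w, hw, hwl⟩ := radial hσ
  obtain ⟨h1, b, hb0, hb⟩ := brfp_ev hσ h (show (1 : ℝ) < 2 by norm_num)
  have hwl' : Tendsto w atTop (𝓝 σ) := hwl.mono_right nhdsWithin_le_nhds
  have hca : Tendsto (mob a) (𝓝 σ) (𝓝 (mob a σ)) := (mob_diffAt ha hσ.le).continuousAt.tendsto
  have e : ∀ k, mob a (φ (mob (-a) (mob a (w k)))) = mob a (φ (w k)) := fun k => by
    rw [mob_inv ha (mem_ball_zero_iff.1 (hw k)).le]
  refine jd_brfp (uniD_conj hU ha) (mob_sphere ha hσ) ⟨fun k => mob a (w k),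
    2 / (1 - ‖a‖) ^ 2 * b * (2 / (1 - ‖a‖) ^ 2), fun k => mob_ball ha (hw k), hca.comp hwl', ?_, ?_⟩
  · simp only [e]
    exact hca.comp (h1.comp hwl)
  · filter_upwards [hwl.eventually hb] with k hk
    rw [e]
    have n1 := (mem_ball_zero_iff.1 (hw k)).le
    have n2 := (mem_ball_zero_iff.1 (hU.2.1 (hw k))).le
    have h2 := mob_dist_le ha n2
    have h3 := mob_dist_le hna (mem_ball_zero_iff.1 (mob_ball ha (hw k))).le
    rw [mob_inv ha n1, norm_neg] at h3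
    have h4 : 0 < 1 - ‖a‖ := by linarith
    calc 1 - ‖mob a (φ (w k))‖ ≤ 2 / (1 - ‖a‖) ^ 2 * (1 - ‖φ (w k)‖) := h2
      _ ≤ 2 / (1 - ‖a‖) ^ 2 * (b * (1 - ‖w k‖)) := by
          apply mul_le_mul_of_nonneg_left hk; positivity
      _ ≤ 2 / (1 - ‖a‖) ^ 2 * (b * (2 / (1 - ‖a‖) ^ 2 * (1 - ‖mob a (w k)‖))) := by
          apply mul_le_mul_of_nonneg_left _ (by positivity)
          exact mul_le_mul_of_nonneg_left h3 hb0.le
      _ = _ := by ring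

end Pool.Agent.J6H12.LWP
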