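import Pool.Agent.J6H12.LWP.DiscA
import Pool.Agent.J6H12.LWP.GP

/-!
# Boundary fixed points and lifts
-/

set_option autoImplicit false

open Set Filter Topology Complex Metric

noncomputable section

namespace Pool.Agent.J6H12.LWP

open LW242 Pool.Agent.Y256.LW

theorem one_sub_exp_le (y : ℝ) : 1 - Real.exp (-y) ≤ y := by
  have := Real.add_one_le_exp (-y)
  linarith

theorem le_one_sub_exp {y : ℝ} (h0 : 0 ≤ y) (h1 : y ≤ 1) : y ≤ 2 * (1 - Real.exp (-y)) := by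
  have h2 := Real.add_one_le_exp y
  have h3 : Real.exp (-y) * Real.exp y = 1 := by rw [← Real.exp_add]; simp
  have h4 := Real.exp_pos (-y)
  have h5 : Real.exp (-y) * (y + 1) ≤ 1 := by
    calc Real.exp (-y) * (y + 1) ≤ Real.exp (-y) * Real.exp y :=
          mul_le_mul_of_nonneg_left h2 h4.le
      _ = 1 := h3
  nlinarith

theorem E_real_norm (x : ℝ) : ‖E (x : ℂ)‖ = 1 := by rw [E_norm]; simp

/-- the point `E (x + i e)` -/
theorem E_vert (x e : ℝ) : E ((x : ℂ) + e * I) = (Real.exp (-e) : ℂ) * E x := by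
  unfold E
  rw [mul_add, Complex.exp_add, mul_comm]
  congr 1
  rw [Complex.ofReal_exp]
  congr 1
  push_cast
  linear_combination (e : ℂ) * I_mul_I

theorem vert_stolz (x : ℝ) {e : ℝ} (he : 0 < e) :
    E ((x : ℂ) + e * I) ∈ Stolz (E (x : ℂ)) 2 := by
  have hn : ‖E ((x : ℂ) + e * I)‖ = Real.exp (-e) := by rw [E_norm]; simp
  have hlt : Real.exp (-e) < 1 := by rw [Real.exp_lt_one_iff]; linarith
  refine ⟨by rw [hn]; exact hlt, ?_⟩
  rw [hn, E_vert]
  have e1 : (Real.exp (-e) : ℂ) * E x - E x = ((Real.exp (-e) - 1 : ℝ) : ℂ) * E x := by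
    push_cast; ring
  rw [e1, norm_mul, E_real_norm, mul_one, Complex.norm_real, Real.norm_eq_abs,
    abs_of_neg (by linarith)]
  linarith

theorem vert_lim (x : ℝ) : Tendsto (fun e : ℝ => (x : ℂ) + e * I) (𝓝[>] 0) (𝓝 (x : ℂ)) :=
  (vert_tendsto x).mono_left nhdsWithin_le_nhds

theorem vert_E_lim (x : ℝ) :
    Tendsto (fun e : ℝ => E ((x : ℂ) + e * I)) (𝓝[>] 0) (𝓝[Stolz (E (x : ℂ)) 2] (E x)) := by
  rw [tendsto_nhdsWithin_iff]
  refine ⟨(E_cont.tendsto _).comp (vert_lim x), ?_⟩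
  filter_upwards [self_mem_nhdsWithin] with e he
  exact vert_stolz x he

/-- boundary values of the lift along a vertical segment -/
theorem lift_vert {Φ φ : ℂ → ℂ} (hΦ : Uni Φ) (hE : ∀ z ∈ Hp, E (Φ z) = φ (E z)) {x : ℝ}
    (hl : Tendsto φ (𝓝[Stolz (E (x : ℂ)) 2] (E x)) (𝓝 (E x))) :
    ∃ m : ℤ, Tendsto (fun e : ℝ => Φ ((x : ℂ) + e * I)) (𝓝[>] 0)
      (𝓝 ((x + m * TT : ℝ) : ℂ)) := by
  set u : ℝ → ℂ := fun e => Φ ((x : ℂ) + e * I) - x with hu
  have hEu : ∀ e : ℝ, 0 < e → E (u e) = φ (E ((x : ℂ) + e * I)) / E x := by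
    intro e he
    rw [← hE _ (vert_mem x he), hu]
    unfold E
    rw [mul_sub, Complex.exp_sub]
  have hEl : Tendsto (fun e => E (u e)) (𝓝[>] 0) (𝓝 1) := by
    have h1 : Tendsto (fun e : ℝ => φ (E ((x : ℂ) + e * I)) / E x) (𝓝[>] 0)
        (𝓝 (E (x : ℂ) / E x)) := (hl.comp (vert_E_lim x)).div_const _
    rw [div_self (E_ne _)] at h1
    refine h1.congr' ?_
    filter_upwards [self_mem_nhdsWithin] with e he
    exact (hEu e he).symm
  set l : ℝ → ℂ := fun e => -I * Complex.log (E (u e)) with hl'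
  have hll : Tendsto l (𝓝[>] 0) (𝓝 0) := by
    have h1 : Tendsto Complex.log (𝓝 1) (𝓝 (Complex.log 1)) :=
      (continuousAt_clog (by simp)).tendsto
    rw [Complex.log_one] at h1
    have h2 := (h1.comp hEl).const_mul (-I)
    rw [mul_zero] at h2
    exact h2
  have hnear : ∀ᶠ e in 𝓝[>] (0 : ℝ), E (u e) ∈ slitPlane :=
    hEl.eventually (isOpen_slitPlane.mem_nhds (by simp))
  obtain ⟨δ, hδ, hδ2⟩ := mem_nhdsGT_iff_exists_Ioo_subset.1 hnear
  have hδ0 : (0 : ℝ) < δ := hδ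
  have huc : ContinuousOn u (Ioo 0 δ) := by
    have h1 : ContinuousOn (fun e : ℝ => Φ ((x : ℂ) + e * I)) (Ioo 0 δ) := by
      refine hΦ.1.continuousOn.comp ?_ fun e he => vert_mem x he.1
      fun_prop
    exact h1.sub continuousOn_const
  have hlc : ContinuousOn l (Ioo 0 δ) := by
    have h1 : ContinuousOn (fun e => E (u e)) (Ioo 0 δ) := E_cont.comp_continuousOn huc
    exact continuousOn_const.mul (h1.clog fun e he => hδ2 he)
  have hEE : ∀ e ∈ Ioo 0 δ, E (u e) = E (l e) := by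
    intro e _
    have : E (l e) = E (u e) := by
      have h1 : I * l e = Complex.log (E (u e)) := by
        rw [hl']
        linear_combination (-Complex.log (E (u e))) * I_mul_I
      show cexp (I * l e) = _
      rw [h1, Complex.exp_log (E_ne _)]
    exact this.symm
  have hint : ∀ e ∈ Ioo 0 δ, ∃ k : ℤ, (u e - l e) / (TT : ℂ) = (k : ℂ) := by
    intro e he
    obtain ⟨k, hk⟩ := E_eq (hEE e he)
    refine ⟨k, ?_⟩
    rw [hk]
    have := TT_ne
    push_cast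
    field_simp
    ring
  have hmid : δ / 2 ∈ Ioo 0 δ := ⟨by linarith, by linarith⟩
  obtain ⟨m, hm⟩ := hint _ hmid
  have hpc : IsPreconnected ((fun e => (u e - l e) / (TT : ℂ)) '' Ioo 0 δ) :=
    isPreconnected_Ioo.image _ ((huc.sub hlc).div_const _)
  have hsub : ((fun e => (u e - l e) / (TT : ℂ)) '' Ioo 0 δ) ⊆ range ((↑) : ℤ → ℂ) := by
    rintro _ ⟨e, he, rfl⟩
    obtain ⟨k, hk⟩ := hint e he
    exact ⟨k, hk.symm⟩
  have hss : ((fun e => (u e - l e) / (TT : ℂ)) '' Ioo 0 δ).Subsingleton :=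
    (Set.Countable.isTotallyDisconnected ((countable_range _).mono hsub)) _ Subset.rfl hpc
  have hval : ∀ e ∈ Ioo 0 δ, Φ ((x : ℂ) + e * I) = ((x + m * TT : ℝ) : ℂ) + l e := by
    intro e he
    have h1 := hss ⟨e, he, rfl⟩ ⟨_, hmid, rfl⟩
    simp only at h1
    rw [hm, div_eq_iff TT_ne] at h1
    have h2 : u e = Φ ((x : ℂ) + e * I) - x := rfl
    rw [h2] at h1
    push_cast
    linear_combination h1
  refine ⟨m, ?_⟩
  have h1 : Tendsto (fun e => ((x + m * TT : ℝ) : ℂ) + l e) (𝓝[>] 0)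
      (𝓝 (((x + m * TT : ℝ) : ℂ) + 0)) := hll.const_add _
  rw [add_zero] at h1
  refine h1.congr' ?_
  filter_upwards [Ioo_mem_nhdsGT hδ0] with e he
  exact (hval e he).symm

/-- boundary regular fixed points give Julia's inequality for the lift -/
theorem lift_jul {Φ φ : ℂ → ℂ} (hΦ : Uni Φ) (hE : ∀ z ∈ Hp, E (Φ z) = φ (E z)) {x : ℝ}
    (hB : BRFP φ (E x)) : ∃ (m : ℤ) (C : ℝ), Jul Φ x (x + m * TT) C := by
  obtain ⟨h1, b, hb0, hb⟩ := brfp_ev (E_real_norm x) hB (show (1 : ℝ) < 2 by norm_num)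
  obtain ⟨m, hm⟩ := lift_vert hΦ hE h1
  refine ⟨m, 2 * b, ?_⟩
  have him : Tendsto (fun e : ℝ => (Φ ((x : ℂ) + e * I)).im) (𝓝[>] 0) (𝓝 0) := by
    have := (Complex.continuous_im.tendsto _).comp hm
    rwa [Complex.ofReal_im] at this
  have hev : ∀ᶠ e : ℝ in 𝓝[>] (0 : ℝ), (Φ ((x : ℂ) + e * I)).im ≤ 2 * b * e := by
    filter_upwards [him.eventually_le_const (show (0 : ℝ) < 1 by norm_num),
      (vert_E_lim x).eventually hb, self_mem_nhdsWithin] with e he1 he2 he0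
    have he0' : (0 : ℝ) < e := he0
    have hz := vert_mem x he0'
    rw [← hE _ hz, E_norm, E_norm] at he2
    have h3 : ((x : ℂ) + e * I).im = e := by simp
    rw [h3] at he2
    have h40 : 0 < (Φ ((x : ℂ) + e * I)).im := hΦ.2.1 hz
    have h4 := le_one_sub_exp h40.le he1
    have h5 := one_sub_exp_le e
    have h6 : b * (1 - Real.exp (-e)) ≤ b * e := mul_le_mul_of_nonneg_left h5 hb0.le
    linarith
  obtain ⟨δ, hδ, hδ2⟩ := mem_nhdsGT_iff_exists_Ioo_subset.1 hev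
  have hδ0 : (0 : ℝ) < δ := hδ
  set e : ℕ → ℝ := fun k => δ / 2 * (1 / ((k : ℝ) + 1)) with he
  have hepos : ∀ k, 0 < e k := fun k => by rw [he]; positivity
  have helt : ∀ k, e k < δ := fun k => by
    have h : 1 / ((k : ℝ) + 1) ≤ 1 := by
      rw [div_le_one (by positivity)]
      have : (0 : ℝ) ≤ k := Nat.cast_nonneg k
      linarith
    simp only [he]
    nlinarith
  have he0 : Tendsto e atTop (𝓝[>] 0) := by
    rw [tendsto_nhdsWithin_iff]
    refine ⟨?_, Eventually.of_forall hepos⟩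
    have := (tendsto_one_div_add_atTop_nhds_zero_nat (𝕜 := ℝ)).const_mul (δ / 2)
    rw [mul_zero] at this
    exact this
  refine jfin Φ x (x + m * TT) (2 * b) (fun k => (x : ℂ) + e k * I) (fun _ => 2 * b) hΦ.1
    (fun z hz => le_of_lt (hΦ.2.1 hz)) (fun k => vert_mem x (hepos k)) ((vert_lim x).comp he0)
    (hm.comp he0) (fun k => ?_) tendsto_const_nhds
  have h3 : ((x : ℂ) + e k * I).im = e k := by simp
  rw [h3]
  exact hδ2 ⟨hepos k, helt k⟩

theorem hp_nebot (t : ℝ) : (𝓝[Hp] (t : ℂ)).NeBot := by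
  rw [← mem_closure_iff_nhdsWithin_neBot]
  have : closure Hp = {z : ℂ | 0 ≤ z.im} := Complex.closure_setOfPred_lt_im 0
  rw [this]
  simp

/-- order of the boundary values -/
theorem bd_order {g : ℂ → ℂ} {x x' ζ ζ' : ℝ} (h : x < x') (hA : Adm g x ζ) (hA' : Adm g x' ζ') :
    ζ ≤ ζ' := by
  by_contra hc
  push Not at hc
  obtain ⟨-, -, h3, -, -, h6, -⟩ := p_idxa g x ζ hA
  obtain ⟨-, -, -, -, h5, -, -⟩ := p_idxa g x' ζ' hA'
  have e1 := h5 ((ζ + ζ') / 2) (by linarith)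
  have e2 := h6 ((ζ + ζ') / 2) (by linarith)
  have := hp_nebot ((ζ + ζ') / 2)
  obtain ⟨q, hq1, hq2⟩ := (e1.and e2).exists
  exact h3 q ((p_idxb.2.2 g x x' ζ ζ' h hA hA').1 q hq1) hq2

theorem same_m {Φ : ℂ → ℂ} (hΦ : Uni Φ) (hP : Pd Φ) {x x' : ℝ} {m m' : ℤ} {C C' : ℝ}
    (h1 : x < x') (h2 : x' < x + TT) (hJ : Jul Φ x (x + m * TT) C)
    (hJ' : Jul Φ x' (x' + m' * TT) C') : m = m' := by
  have hT := TT_pos
  have him := (pd_jwc hΦ.1 hΦ.2.1 hP).1
  have a1 := bd_order h1 ⟨hΦ, him, C, hJ⟩ ⟨hΦ, him, C', hJ'⟩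
  have hJ2 := jul_shift hP hJ 1
  have e1 : x + ((1 : ℤ) : ℝ) * TT = x + TT := by simp
  rw [e1] at hJ2
  have a2 := bd_order h2 ⟨hΦ, him, C', hJ'⟩ ⟨hΦ, him, C, hJ2⟩
  simp only [Int.cast_one, one_mul] at a2
  have b1 : m - 1 < m' := by
    by_contra hc
    push Not at hc
    have : (m' : ℝ) ≤ (m : ℝ) - 1 := by exact_mod_cast hc
    nlinarith
  have b2 : m' < m + 1 := by
    by_contra hc
    push Not at hc
    have : (m : ℝ) + 1 ≤ (m' : ℝ) := by exact_mod_cast hc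
    nlinarith
  omega

/-- Julia's inequality gives boundary regular fixed points of the map of the disc -/
theorem dm_uniD {ψ : ℂ → ℂ} (hU : Uni ψ) (hP : Pd ψ) : UniD (dm ψ) :=
  ⟨dm_diff hU.1 hU.2.1 hP, dm_maps hU.1 hU.2.1 hP, dm_inj hU hP⟩

theorem dm_brfp {ψ : ℂ → ℂ} (hU : Uni ψ) (hP : Pd ψ) {x C : ℝ} (hJ : Jul ψ x x C) :
    BRFP (dm ψ) (E x) := by
  set e : ℕ → ℝ := fun k => 1 / ((k : ℝ) + 1) with he
  have hepos : ∀ k, 0 < e k := fun k => by rw [he]; positivity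
  have hele : ∀ k, e k ≤ 1 := fun k => by
    simp only [he]
    rw [div_le_one (by positivity)]
    have : (0 : ℝ) ≤ k := Nat.cast_nonneg k
    linarith
  have he0 : Tendsto e atTop (𝓝[>] 0) := by
    rw [tendsto_nhdsWithin_iff]
    exact ⟨tendsto_one_div_add_atTop_nhds_zero_nat, Eventually.of_forall hepos⟩
  obtain ⟨hC0, -, hlim⟩ := jbd ψ x x C hU.2.1 hJ
  refine jd_brfp (dm_uniD hU hP) (E_real_norm x) ⟨fun k => E ((x : ℂ) + e k * I), C * 2,
    fun k => E_ball (vert_mem x (hepos k)), ?_, ?_, Eventually.of_forall fun k => ?_⟩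
  · exact (E_cont.tendsto _).comp ((vert_lim x).comp he0)
  · have h1 : (fun k => dm ψ (E ((x : ℂ) + e k * I))) = fun k => E (ψ ((x : ℂ) + e k * I)) := by
      funext k; exact dm_E hP (vert_mem x (hepos k))
    rw [h1]
    exact (E_cont.tendsto _).comp (hlim.comp he0)
  · rw [dm_E hP (vert_mem x (hepos k)), E_norm, E_norm]
    have h3 : ((x : ℂ) + e k * I).im = e k := by simp
    rw [h3]
    have h4 := one_sub_exp_le (ψ ((x : ℂ) + e k * I)).im
    have h5 := jul_vert_im hU.2.1 hJ (hepos k)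
    have h6 := le_one_sub_exp (hepos k).le (hele k)
    calc 1 - Real.exp (-(ψ ((x : ℂ) + e k * I)).im) ≤ (ψ ((x : ℂ) + e k * I)).im := h4
      _ ≤ C * e k := h5
      _ ≤ C * (2 * (1 - Real.exp (-(e k)))) := mul_le_mul_of_nonneg_left h6 hC0.le
      _ = _ := by ring

theorem E_lip {a b : ℂ} (ha : a ∈ Hp) (hb : b ∈ Hp) : ‖E a - E b‖ ≤ ‖a - b‖ := by
  have h := hp_convex.norm_image_sub_le_of_norm_hasDerivWithin_le (f := E)
    (f' := fun z => I * E z) (C := 1) (fun z _ => (E_hasDeriv z).hasDerivWithinAt)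
    (fun z hz => by
      rw [norm_mul, Complex.norm_I, one_mul]
      exact (mem_ball_zero_iff.1 (E_ball hz)).le) hb ha
  simpa using h

end Pool.Agent.J6H12.LWP
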