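import Pool.Agent.J6H12.LWP.DiscB

/-!
# The embedding theorem for an interior fixed point
-/

set_option autoImplicit false

open Set Filter Topology Complex Metric

noncomputable section

namespace Pool.Agent.J6H12.LWP

open LW242 Pool.Agent.Y256.LW

theorem E_arg {σ : ℂ} (hσ : ‖σ‖ = 1) : E ((arg σ : ℝ) : ℂ) = σ := by
  unfold E
  rw [mul_comm]
  have := Complex.norm_mul_exp_arg_mul_I σ
  rw [hσ, Complex.ofReal_one, one_mul] at this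
  exact this

/-- enumeration of a finite set of points of the unit circle -/
theorem enumP {F : Set ℂ} (hF : F.Finite) (hne : F.Nonempty) (hFs : ∀ σ ∈ F, ‖σ‖ = 1) :
    ∃ (n : ℕ) (x : ℕ → ℝ), 0 < n ∧ (∀ i j, i < j → j ≤ n → x i < x j) ∧ x n = x 0 + TT ∧
      (∀ j < n, E (x j) ∈ F) ∧ ∀ σ ∈ F, ∃ j < n, E (x j) = σ := by
  classical
  set X : Finset ℝ := hF.toFinset.image arg with hX
  have hXne : X.Nonempty := by
    obtain ⟨σ, hσ⟩ := hne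
    exact ⟨_, Finset.mem_image_of_mem _ (hF.mem_toFinset.2 hσ)⟩
  have hcard : 0 < X.card := Finset.card_pos.2 hXne
  have hrange : ∀ t ∈ X, -Real.pi < t ∧ t ≤ Real.pi := by
    intro t ht
    obtain ⟨σ, -, rfl⟩ := Finset.mem_image.1 ht
    exact ⟨neg_pi_lt_arg σ, arg_le_pi σ⟩
  set e := X.orderEmbOfFin rfl with he
  have hmem : ∀ i, e i ∈ X := fun i => Finset.orderEmbOfFin_mem X rfl i
  refine ⟨X.card, fun j => if h : j < X.card then e ⟨j, h⟩ else e ⟨0, hcard⟩ + TT, hcard,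
    fun i j hij hj => ?_, ?_, fun j hj => ?_, fun σ hσ => ?_⟩
  · have hi : i < X.card := by omega
    by_cases hj' : j < X.card
    · simp only [hi, hj', dif_pos]
      exact e.strictMono hij
    · simp only [hi, hj', dif_pos, dif_neg, not_false_eq_true]
      have h1 := hrange _ (hmem ⟨i, hi⟩)
      have h2 := hrange _ (hmem ⟨0, hcard⟩)
      unfold TT
      linarith
  · simp only [lt_irrefl, hcard, dif_pos, dif_neg, not_false_eq_true]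
  · simp only [hj, dif_pos]
    obtain ⟨σ, hσ, h2⟩ := Finset.mem_image.1 (hmem ⟨j, hj⟩)
    have hσ' := hF.mem_toFinset.1 hσ
    rw [← h2, E_arg (hFs σ hσ')]
    exact hσ'
  · have h1 : arg σ ∈ X := Finset.mem_image_of_mem _ (hF.mem_toFinset.2 hσ)
    have h2 : arg σ ∈ Set.range e := by
      rw [he, Finset.range_orderEmbOfFin]
      exact h1
    obtain ⟨⟨j, hj⟩, h3⟩ := h2
    refine ⟨j, hj, ?_⟩
    simp only [hj, dif_pos]
    rw [h3, E_arg (hFs σ hσ)]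

/-- the normalised lift -/
theorem exists_cq {φ : ℂ → ℂ} (hU : UniD φ) (h0 : φ 0 = 0) {n : ℕ} {x : ℕ → ℝ} (hn : 0 < n)
    (hx : ∀ i j, i < j → j ≤ n → x i < x j) (hxn : x n = x 0 + TT)
    (hB : ∀ j < n, BRFP φ (E (x j))) :
    ∃ Φ : ℂ → ℂ, CQ n x Φ ∧ ∀ z ∈ Hp, E (Φ z) = φ (E z) := by
  obtain ⟨Φ, hΦ, hP, hE⟩ := exists_lift hU.1 hU.2.1 hU.2.2 h0
  have hT := TT_pos
  obtain ⟨m, C0, hm⟩ := lift_jul hΦ hE (hB 0 hn)
  have hall : ∀ j < n, ∃ C : ℝ, Jul Φ (x j) (x j + m * TT) C := by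
    intro j hj
    obtain ⟨m', C', hm'⟩ := lift_jul hΦ hE (hB j hj)
    rcases Nat.eq_zero_or_pos j with hj0 | hj0
    · subst hj0; exact ⟨C0, hm⟩
    · have h1 := hx 0 j hj0 hj.le
      have h2 := hx j n hj le_rfl
      rw [hxn] at h2
      have := same_m hΦ hP h1 h2 hm hm'
      rw [this]
      exact ⟨C', hm'⟩
  set Ψ : ℂ → ℂ := fun z => Φ z + (((-m : ℤ) * TT : ℝ) : ℂ) with hΨ
  have hmem : MapsTo Ψ Hp Hp := fun z hz => add_mem (hΦ.2.1 hz) _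
  have hΨU : Uni Ψ := ⟨hΦ.1.add_const _, hmem, fun z hz w hw e => hΦ.2.2 hz hw
    (add_right_cancel e)⟩
  have hΨP : Pd Ψ := by
    intro z hz
    show Φ (z + TT) + _ = Φ z + _ + TT
    rw [hP z hz]; ring
  have him : ∀ z ∈ Hp, z.im ≤ (Ψ z).im := (pd_jwc hΨU.1 hmem hΨP).1
  have hJ : ∀ j < n, ∃ C : ℝ, Jul Ψ (x j) (x j) C := by
    intro j hj
    obtain ⟨C, hC⟩ := hall j hj
    refine ⟨C, fun z hz => ?_⟩
    have h1 := hC z hz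
    have e1 : Ψ z - (x j : ℂ) = Φ z - ((x j + m * TT : ℝ) : ℂ) := by
      simp only [hΨ]; push_cast; ring
    have e2 : (Ψ z).im = (Φ z).im := by
      simp only [hΨ, Complex.add_im, Complex.ofReal_im, add_zero]
    rw [e1, e2]
    exact h1
  refine ⟨Ψ, ⟨hΨU, him, fun j hj => ?_, hΨP⟩, fun z hz => ?_⟩
  · rcases hj.lt_or_eq with hlt | heq
    · exact hJ j hlt
    · subst heq
      obtain ⟨C, hC⟩ := hJ 0 hn
      refine ⟨C, ?_⟩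
      have := jul_shift hΨP hC 1
      have e1 : x 0 + ((1 : ℤ) : ℝ) * TT = x j := by rw [hxn]; simp
      rwa [e1] at this
  · simp only [hΨ]
    rw [E_add]
    exact hE z hz

/-- Lipschitz evolution families -/
def LEv (ψ : ℝ → ℝ → ℂ → ℂ) (K : ℂ → ℝ) : Prop :=
  (∀ s t, 0 ≤ s → s ≤ t → UniD (ψ s t)) ∧
  (∀ s, 0 ≤ s → ∀ z ∈ ball (0 : ℂ) 1, ψ s s z = z) ∧
  (∀ s u t, 0 ≤ s → s ≤ u → u ≤ t → ∀ z ∈ ball (0 : ℂ) 1, ψ s t z = ψ u t (ψ s u z)) ∧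
  (∀ s u t, 0 ≤ s → s ≤ u → u ≤ t → ∀ z ∈ ball (0 : ℂ) 1,
    ‖ψ s u z - ψ s t z‖ ≤ K z * (t - u))

theorem LEv.nonneg {ψ : ℝ → ℝ → ℂ → ℂ} {K : ℂ → ℝ} (h : LEv ψ K) {z : ℂ}
    (hz : z ∈ ball (0 : ℂ) 1) : 0 ≤ K z := by
  have h1 := h.2.2.2 0 0 1 le_rfl le_rfl zero_le_one z hz
  rw [sub_zero, mul_one] at h1
  exact (norm_nonneg _).trans h1

theorem LEv.isEvo {ψ : ℝ → ℝ → ℂ → ℂ} {K : ℂ → ℝ} (h : LEv ψ K) : IsEvo ψ := by
  obtain ⟨h1, h2, h3, h4⟩ := id h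
  refine ⟨fun s t hs hst => ⟨(h1 s t hs hst).1, (h1 s t hs hst).2.1⟩, h2, h3, ?_⟩
  intro z hz T _
  refine ⟨fun _ => K z, fun _ => h.nonneg hz, MeasureTheory.integrableOn_const (by simp), ?_⟩
  intro s u t hs hsu hut _
  rw [intervalIntegral.integral_const, smul_eq_mul, mul_comm]
  exact h4 s u t hs hsu hut z hz

/-- evolution families fixing an interior point -/
theorem embed_interior' (F : Set ℂ) (hF : F.Finite) (hne : F.Nonempty) (hFs : F ⊆ sphere 0 1)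
    (τ : ℂ) (hτ : τ ∈ ball (0 : ℂ) 1) (φ : ℂ → ℂ) (hU : UniD φ) (hfix : φ τ = τ)
    (hB : ∀ σ ∈ F, BRFP φ σ) :
    ∃ (ψ : ℝ → ℝ → ℂ → ℂ) (K : ℂ → ℝ), LEv ψ K ∧
      (∀ s t, 0 ≤ s → s ≤ t → UniD (ψ s t) ∧ (∀ σ ∈ F, BRFP (ψ s t) σ) ∧ ψ s t τ = τ) ∧
      ∀ z ∈ ball (0 : ℂ) 1, ψ 0 1 z = φ z := by
  have ha : ‖τ‖ < 1 := mem_ball_zero_iff.1 hτ
  have hna : ‖-τ‖ < 1 := by rwa [norm_neg]
  have hFn : ∀ σ ∈ F, ‖σ‖ = 1 := fun σ hσ => mem_sphere_zero_iff_norm.1 (hFs hσ)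
  -- normalisation
  set φ₀ : ℂ → ℂ := fun w => mob (-τ) (φ (mob τ w)) with hφ₀
  have hU₀ : UniD φ₀ := by
    have := uniD_conj hU hna
    simpa only [neg_neg] using this
  have hφ₀0 : φ₀ 0 = 0 := by
    simp only [hφ₀]
    rw [mob_zero, hfix]
    simp [mob]
  have hB₀ : ∀ σ ∈ F, BRFP φ₀ (mob (-τ) σ) := by
    intro σ hσ
    have := brfp_conj hU hna (hFn σ hσ) (hB σ hσ)
    simpa only [neg_neg] using this
  obtain ⟨n, x, hn, hx, hxn, hx1, hx2⟩ := enumP (F := mob (-τ) '' F) (hF.image _)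
    (hne.image _) (by
      rintro _ ⟨σ, hσ, rfl⟩
      exact mob_sphere hna (hFn σ hσ))
  obtain ⟨Φ, hΦ, hE⟩ := exists_cq hU₀ hφ₀0 hn hx hxn (by
    intro j hj
    obtain ⟨σ, hσ, e⟩ := hx1 j hj
    rw [← e]
    exact hB₀ σ hσ)
  obtain ⟨ψ, Kc, h1, h2, h3, h4, h5⟩ := gp hx hn hxn hΦ
  have hm : ∀ {w : ℂ}, w ∈ ball (0 : ℂ) 1 → mob (-τ) w ∈ ball (0 : ℂ) 1 :=
    fun hw => mob_ball hna hw
  have hdmU : ∀ s t, 0 ≤ s → s ≤ t → UniD (dm (ψ s t)) := fun s t hs hst =>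
    dm_uniD (h1 s t hs hst).1 (h1 s t hs hst).p
  have hle : ∀ {w : ℂ}, w ∈ ball (0 : ℂ) 1 → ‖w‖ ≤ 1 := fun hw => (mem_ball_zero_iff.1 hw).le
  have hzero : ∀ s t, 0 ≤ s → s ≤ t → dm (ψ s t) 0 = 0 := fun s t hs hst =>
    dm_zero (h1 s t hs hst).1.1 (h1 s t hs hst).1.2.1 (h1 s t hs hst).p
  have hzz : ∀ w : ℂ, ∃ z : ℂ, w ∈ ball (0 : ℂ) 1 → mob (-τ) w ≠ 0 →
      z ∈ Hp ∧ E z = mob (-τ) w := by
    intro w
    by_cases hw : w ∈ ball (0 : ℂ) 1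
    · by_cases h0 : mob (-τ) w = 0
      · exact ⟨0, fun _ h => absurd h0 h⟩
      · obtain ⟨z, hz, hzw⟩ := E_surj' (hm hw) h0
        exact ⟨z, fun _ _ => ⟨hz, hzw⟩⟩
    · exact ⟨0, fun h => absurd h hw⟩
  choose zc hzc using hzz
  refine ⟨fun s t w => mob τ (dm (ψ s t) (mob (-τ) w)),
    fun w => 2 / (1 - ‖τ‖) ^ 2 * max (Kc (zc w)) 0, ⟨?_, ?_, ?_, ?_⟩, ?_, ?_⟩
  · intro s t hs hst
    exact uniD_conj (hdmU s t hs hst) ha
  · intro s hs w hw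
    have e : dm (ψ s s) (mob (-τ) w) = mob (-τ) w := by
      by_cases h0 : mob (-τ) w = 0
      · rw [h0]; exact hzero s s hs le_rfl
      · obtain ⟨z, hz, hzw⟩ := E_surj' (hm hw) h0
        rw [← hzw, dm_E (h1 s s hs le_rfl).p hz, h2 s hs z hz]
    show mob τ (dm (ψ s s) (mob (-τ) w)) = w
    rw [e, mob_inv' ha (hle hw)]
  · intro s u t hs hsu hut w hw
    have hu : 0 ≤ u := hs.trans hsu
    show mob τ (dm (ψ s t) (mob (-τ) w)) =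
      mob τ (dm (ψ u t) (mob (-τ) (mob τ (dm (ψ s u) (mob (-τ) w)))))
    have hv := (hdmU s u hs hsu).2.1 (hm hw)
    rw [mob_inv ha (hle hv)]
    congr 1
    rw [← dm_comp (h1 u t hu hut).1 (h1 u t hu hut).p (h1 s u hs hsu).1 (h1 s u hs hsu).p (hm hw)]
    rw [dm_congr (h3 s u t hs hsu hut)]
  · intro s u t hs hsu hut w hw
    have h6 : 0 < 1 - ‖τ‖ := by linarith
    have hst := hsu.trans hut
    show ‖mob τ (dm (ψ s u) (mob (-τ) w)) - mob τ (dm (ψ s t) (mob (-τ) w))‖ ≤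
      2 / (1 - ‖τ‖) ^ 2 * max (Kc (zc w)) 0 * (t - u)
    have g1 := mob_sub ha (hle ((hdmU s u hs hsu).2.1 (hm hw)))
      (hle ((hdmU s t hs hst).2.1 (hm hw)))
    have g2 : ‖dm (ψ s u) (mob (-τ) w) - dm (ψ s t) (mob (-τ) w)‖ ≤
        max (Kc (zc w)) 0 * (t - u) := by
      by_cases h0 : mob (-τ) w = 0
      · rw [h0, hzero s u hs hsu, hzero s t hs hst, sub_self, norm_zero]
        exact mul_nonneg (le_max_right _ _) (by linarith)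
      · obtain ⟨hz1, hz2⟩ := hzc w hw h0
        rw [← hz2, dm_E (h1 s u hs hsu).p hz1, dm_E (h1 s t hs hst).p hz1]
        refine (E_lip ((h1 s u hs hsu).1.2.1 hz1) ((h1 s t hs hst).1.2.1 hz1)).trans ?_
        refine (h4 s u t hs hsu hut _ hz1).trans ?_
        exact mul_le_mul_of_nonneg_right (le_max_left _ _) (by linarith)
    calc _ ≤ _ := g1
      _ ≤ 2 / (1 - ‖τ‖) ^ 2 * (max (Kc (zc w)) 0 * (t - u)) :=
          mul_le_mul_of_nonneg_left g2 (by positivity)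
      _ = _ := by ring
  · intro s t hs hst
    refine ⟨uniD_conj (hdmU s t hs hst) ha, fun σ hσ => ?_, ?_⟩
    · obtain ⟨j, hj, hjσ⟩ := hx2 (mob (-τ) σ) ⟨σ, hσ, rfl⟩
      obtain ⟨C, hC⟩ := (h1 s t hs hst).2.2.1 j hj.le
      have g1 := dm_brfp (h1 s t hs hst).1 (h1 s t hs hst).p hC
      rw [hjσ] at g1
      have g2 := brfp_conj (hdmU s t hs hst) ha (mob_sphere hna (hFn σ hσ)) g1
      rw [mob_inv' ha (hFn σ hσ).le] at g2
      exact g2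
    · show mob τ (dm (ψ s t) (mob (-τ) τ)) = τ
      have e : mob (-τ) τ = 0 := by simp [mob]
      rw [e, hzero s t hs hst, mob_zero]
  · intro w hw
    show mob τ (dm (ψ 0 1) (mob (-τ) w)) = φ w
    have e : dm (ψ 0 1) (mob (-τ) w) = φ₀ (mob (-τ) w) := by
      by_cases h0 : mob (-τ) w = 0
      · rw [h0, hzero 0 1 le_rfl zero_le_one, hφ₀0]
      · obtain ⟨z, hz, hzw⟩ := E_surj' (hm hw) h0
        rw [← hzw, dm_E (h1 0 1 le_rfl zero_le_one).p hz, h5 z hz, hE z hz]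
    rw [e]
    simp only [hφ₀]
    rw [mob_inv' ha (hle hw), mob_inv' ha (hle (hU.2.1 hw))]

theorem embed_interior (F : Set ℂ) (hF : F.Finite) (hne : F.Nonempty) (hFs : F ⊆ sphere 0 1)
    (τ : ℂ) (hτ : τ ∈ ball (0 : ℂ) 1) (φ : ℂ → ℂ) (hU : UniD φ) (hfix : φ τ = τ)
    (hB : ∀ σ ∈ F, BRFP φ σ) :
    ∃ ψ : ℝ → ℝ → ℂ → ℂ, IsEvo ψ ∧
      (∀ s t, 0 ≤ s → s ≤ t → UniD (ψ s t) ∧ (∀ σ ∈ F, BRFP (ψ s t) σ) ∧ ψ s t τ = τ) ∧
      ∀ z ∈ ball (0 : ℂ) 1, ψ 0 1 z = φ z := by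
  obtain ⟨ψ, K, h1, h2⟩ := embed_interior' F hF hne hFs τ hτ φ hU hfix hB
  exact ⟨ψ, h1.isEvo, h2⟩

end Pool.Agent.J6H12.LWP
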