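import Pool.Agent.J6H12.LWP.Per

/-!
# The correspondence between maps of the disc and their lifts
-/

set_option autoImplicit false

open Set Filter Topology Complex Metric

noncomputable section

namespace Pool.Agent.J6H12.LWP

open LW242

theorem qp (z : ℂ) : Function.Periodic.qParam TT z = E z := by
  unfold Function.Periodic.qParam E TT
  congr 1
  have : ((2 * Real.pi : ℝ) : ℂ) ≠ 0 := by exact_mod_cast (by positivity : (2 * Real.pi) ≠ 0)
  push_cast at this ⊢
  field_simp

/-- the exponential of `f`, extended by zero -/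
def gx (f : ℂ → ℂ) (z : ℂ) : ℂ := if 0 < z.im then E (f z) else 0

/-- the map of the disc with the lift `f` -/
def dm (f : ℂ → ℂ) : ℂ → ℂ := Function.Periodic.cuspFunction TT (gx f)

theorem dm_congr {f g : ℂ → ℂ} (h : ∀ z ∈ Hp, f z = g z) : dm f = dm g := by
  unfold dm
  congr 1
  funext z
  unfold gx
  split_ifs with hz
  · rw [h z hz]
  · rfl

section

variable {f : ℂ → ℂ}

theorem gx_per (hP : Pd f) : Function.Periodic (gx f) (TT : ℂ) := by
  intro z
  unfold gx
  have h1 : (z + (TT : ℂ)).im = z.im := by simp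
  rw [h1]
  split_ifs with hz
  · rw [hP z hz, E_add1]
  · rfl

theorem dm_E (hP : Pd f) {z : ℂ} (hz : z ∈ Hp) : dm f (E z) = E (f z) := by
  have h := Function.Periodic.eq_cuspFunction TT_pos.ne' (gx_per hP) z
  rw [qp] at h
  unfold dm
  rw [h]
  unfold gx
  rw [if_pos (show 0 < z.im from hz)]

theorem gx_diff (hd : DifferentiableOn ℂ f Hp) {z : ℂ} (hz : z ∈ Hp) :
    DifferentiableAt ℂ (gx f) z := by
  have h1 : DifferentiableAt ℂ (fun z => E (f z)) z :=
    (E_diff _).comp z (hd.differentiableAt (hp_open.mem_nhds hz))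
  refine h1.congr_of_eventuallyEq ?_
  filter_upwards [hp_open.mem_nhds hz] with w hw
  unfold gx
  rw [if_pos (show 0 < w.im from hw)]

theorem ev_im : ∀ᶠ z in comap Complex.im atTop, (0 : ℝ) < z.im :=
  (eventually_gt_atTop (0 : ℝ)).comap _

theorem gx_zero (hd : DifferentiableOn ℂ f Hp) (hm : MapsTo f Hp Hp) (hP : Pd f) :
    Filter.ZeroAtFilter (comap Complex.im atTop) (gx f) := by
  have h1 := (pd_jwc hd hm hP).1
  unfold Filter.ZeroAtFilter
  rw [tendsto_zero_iff_norm_tendsto_zero]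
  have h2 : Tendsto (fun z : ℂ => Real.exp (-z.im)) (comap Complex.im atTop) (𝓝 0) :=
    Real.tendsto_exp_neg_atTop_nhds_zero.comp tendsto_comap
  refine squeeze_zero' (Eventually.of_forall fun z => norm_nonneg _) ?_ h2
  filter_upwards [ev_im] with z hz
  unfold gx
  rw [if_pos hz, E_norm]
  exact Real.exp_le_exp.2 (by linarith [h1 z hz])

theorem dm_zero (hd : DifferentiableOn ℂ f Hp) (hm : MapsTo f Hp Hp) (hP : Pd f) :
    dm f 0 = 0 :=
  Function.Periodic.cuspFunction_zero_of_zero_at_inf TT_pos (gx_zero hd hm hP)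

theorem dm_diff (hd : DifferentiableOn ℂ f Hp) (hm : MapsTo f Hp Hp) (hP : Pd f) :
    DifferentiableOn ℂ (dm f) (ball 0 1) := by
  intro w hw
  by_cases h0 : w = 0
  · subst h0
    refine (Function.Periodic.differentiableAt_cuspFunction_zero TT_pos (gx_per hP) ?_
      (gx_zero hd hm hP).boundedAtFilter).differentiableWithinAt
    filter_upwards [ev_im] with z hz
    exact gx_diff hd hz
  · obtain ⟨z, hz, rfl⟩ := E_surj' hw h0
    have := Function.Periodic.differentiableAt_cuspFunction TT_pos.ne' (gx_per hP) (gx_diff hd hz)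
    rw [qp] at this
    exact this.differentiableWithinAt

theorem dm_maps (hd : DifferentiableOn ℂ f Hp) (hm : MapsTo f Hp Hp) (hP : Pd f) :
    MapsTo (dm f) (ball 0 1) (ball 0 1) := by
  intro w hw
  by_cases h0 : w = 0
  · subst h0
    rw [dm_zero hd hm hP]
    exact mem_ball_self one_pos
  · obtain ⟨z, hz, rfl⟩ := E_surj' hw h0
    rw [dm_E hP hz]
    exact E_ball (hm hz)

theorem dm_ne (hP : Pd f) {w : ℂ} (hw : w ∈ ball (0 : ℂ) 1) (h0 : w ≠ 0) : dm f w ≠ 0 := by
  obtain ⟨z, hz, rfl⟩ := E_surj' hw h0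
  rw [dm_E hP hz]
  exact E_ne _

theorem dm_inj (hU : Uni f) (hP : Pd f) : InjOn (dm f) (ball 0 1) := by
  obtain ⟨hd, hm, hi⟩ := hU
  intro w hw v hv h
  by_cases hw0 : w = 0
  · by_cases hv0 : v = 0
    · rw [hw0, hv0]
    · exfalso
      apply dm_ne hP hv hv0
      rw [← h, hw0, dm_zero hd hm hP]
  · by_cases hv0 : v = 0
    · exfalso
      apply dm_ne hP hw hw0
      rw [h, hv0, dm_zero hd hm hP]
    · obtain ⟨z, hz, rfl⟩ := E_surj' hw hw0
      obtain ⟨u, hu, rfl⟩ := E_surj' hv hv0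
      rw [dm_E hP hz, dm_E hP hu] at h
      obtain ⟨k, hk⟩ := E_eq h
      rw [← hP.int k hu] at hk
      have := hi hz (add_mem hu _) hk
      rw [this, E_add]

end

theorem dm_comp {f g : ℂ → ℂ} (hf : Uni f) (hfP : Pd f) (hg : Uni g) (hgP : Pd g) {w : ℂ}
    (hw : w ∈ ball (0 : ℂ) 1) : dm (fun z => f (g z)) w = dm f (dm g w) := by
  have hcd : DifferentiableOn ℂ (fun z => f (g z)) Hp := hf.1.comp hg.1 hg.2.1
  have hcm : MapsTo (fun z => f (g z)) Hp Hp := fun z hz => hf.2.1 (hg.2.1 hz)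
  have hcP := hfP.comp hgP hg.2.1
  by_cases h0 : w = 0
  · subst h0
    rw [dm_zero hcd hcm hcP, dm_zero hg.1 hg.2.1 hgP, dm_zero hf.1 hf.2.1 hfP]
  · obtain ⟨z, hz, rfl⟩ := E_surj' hw h0
    rw [dm_E hcP hz, dm_E hgP hz, dm_E hfP (hg.2.1 hz)]

/-- logarithms of nonvanishing functions in the disc -/
theorem exists_log {H : ℂ → ℂ} (hd : DifferentiableOn ℂ H (ball 0 1))
    (hne : ∀ w ∈ ball (0 : ℂ) 1, H w ≠ 0) :
    ∃ L : ℂ → ℂ, DifferentiableOn ℂ L (ball 0 1) ∧ ∀ w ∈ ball (0 : ℂ) 1, exp (L w) = H w := by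
  have hq : DifferentiableOn ℂ (fun w => deriv H w / H w) (ball 0 1) :=
    (hd.deriv isOpen_ball).div hd hne
  have h00 : (0 : ℂ) ∈ ball (0 : ℂ) 1 := mem_ball_self one_pos
  obtain ⟨L, hL0, hL⟩ := hq.isExactOn_ball.with_val_at 0 (log (H 0))
  have hLd : DifferentiableOn ℂ L (ball 0 1) := fun w hw =>
    (hL w hw).differentiableAt.differentiableWithinAt
  refine ⟨L, hLd, ?_⟩
  have hc : ∀ w ∈ ball (0 : ℂ) 1, HasDerivAt (fun w => exp (-L w) * H w) 0 w := by
    intro w hw
    have h1 := ((hL w hw).neg).cexp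
    have h2 := (hd.differentiableAt (isOpen_ball.mem_nhds hw)).hasDerivAt
    have h3 : HasDerivAt (fun w => cexp (-L w) * H w)
        (cexp (-L w) * -(deriv H w / H w) * H w + cexp (-L w) * deriv H w) w := h1.mul h2
    have h4 : cexp (-L w) * -(deriv H w / H w) * H w + cexp (-L w) * deriv H w = 0 := by
      have h5 : deriv H w / H w * H w = deriv H w := div_mul_cancel₀ _ (hne w hw)
      linear_combination (-cexp (-L w)) * h5
    rw [h4] at h3
    exact h3
  have hconst : ∀ w ∈ ball (0 : ℂ) 1, exp (-L w) * H w = exp (-L 0) * H 0 := by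
    intro w hw
    exact (convex_ball (0 : ℂ) 1).is_const_of_fderivWithin_eq_zero (𝕜 := ℂ)
      (f := fun w => exp (-L w) * H w)
      (fun v hv => (hc v hv).differentiableAt.differentiableWithinAt)
      (fun v hv => by
        rw [fderivWithin_of_isOpen isOpen_ball hv]
        ext
        simpa using (hc v hv).deriv) hw h00
  intro w hw
  have h1 := hconst w hw
  rw [hL0, Complex.exp_neg (log (H 0)), exp_log (hne 0 h00), inv_mul_cancel₀ (hne 0 h00),
    Complex.exp_neg] at h1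
  have h2 := exp_ne_zero (L w)
  field_simp at h1
  exact h1.symm

/-- lifts of univalent maps -/
theorem exists_lift {G : ℂ → ℂ} (hd : DifferentiableOn ℂ G (ball 0 1))
    (hm : MapsTo G (ball 0 1) (ball 0 1)) (hi : InjOn G (ball 0 1)) (h0 : G 0 = 0) :
    ∃ f : ℂ → ℂ, Uni f ∧ Pd f ∧ ∀ z ∈ Hp, E (f z) = G (E z) := by
  have h00 : (0 : ℂ) ∈ ball (0 : ℂ) 1 := mem_ball_self one_pos
  set H : ℂ → ℂ := dslope G 0 with hH
  have hHd : DifferentiableOn ℂ H (ball 0 1) :=
    (differentiableOn_dslope (isOpen_ball.mem_nhds h00)).2 hd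
  have hHne : ∀ w ∈ ball (0 : ℂ) 1, H w ≠ 0 := by
    intro w hw
    by_cases hw0 : w = 0
    · subst hw0
      rw [hH, dslope_same]
      exact Pool.Agent.Helper202.Univ.deriv_ne_zero isOpen_ball hd hi h00
    · rw [hH, dslope_of_ne _ hw0, slope_def_field, h0, sub_zero, sub_zero]
      refine div_ne_zero (fun h => hw0 ?_) hw0
      exact hi hw h00 (h.trans h0.symm)
  have hHG : ∀ w, w * H w = G w := by
    intro w
    have := sub_smul_dslope G 0 w
    rw [sub_zero, smul_eq_mul, h0, sub_zero] at this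
    exact this
  obtain ⟨L, hL1, hL2⟩ := exists_log hHd hHne
  have hkey : ∀ z ∈ Hp, E (z - I * L (E z)) = G (E z) := by
    intro z hz
    rw [← hHG, ← hL2 _ (E_ball hz)]
    have : E (z - I * L (E z)) = exp (I * z + L (E z)) := by
      unfold E
      congr 1
      have := I_mul_I
      linear_combination (-(L (exp (I * z)))) * this
    rw [this, Complex.exp_add]
    rfl
  have hmaps : MapsTo (fun z => z - I * L (E z)) Hp Hp := by
    intro z hz
    rw [← E_mem_iff, hkey z hz]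
    exact hm (E_ball hz)
  have hPd : Pd (fun z => z - I * L (E z)) := by
    intro z _
    show z + (TT : ℂ) - I * L (E (z + (TT : ℂ))) = z - I * L (E z) + (TT : ℂ)
    rw [E_add1]; ring
  refine ⟨fun z => z - I * L (E z), ⟨?_, hmaps, ?_⟩, hPd, hkey⟩
  · have h1 : DifferentiableOn ℂ (fun z => L (E z)) Hp :=
      hL1.comp E_diff.differentiableOn fun z hz => E_ball hz
    exact differentiableOn_id.sub (h1.const_mul I)
  · intro z hz u hu h
    have h1 : G (E z) = G (E u) := by
      rw [← hkey z hz, ← hkey u hu]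
      exact congrArg E h
    have h2 := hi (E_ball hz) (E_ball hu) h1
    obtain ⟨k, hk⟩ := E_eq h2
    have h3 := hPd.int k hu
    rw [← hk] at h3
    have h4 : z - I * L (E z) = u - I * L (E u) := h
    have h5 : z - I * L (E z) = u - I * L (E u) + ((k * TT : ℝ) : ℂ) := h3
    rw [h4] at h5
    have h6 : ((k * TT : ℝ) : ℂ) = 0 := (left_eq_add.1 h5)
    rw [hk, h6, add_zero]

/-- lifts are unique up to translations -/
theorem lift_eq {f g : ℂ → ℂ} (hf : ContinuousOn f Hp) (hg : ContinuousOn g Hp)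
    (h : ∀ z ∈ Hp, E (f z) = E (g z)) :
    ∃ k : ℤ, ∀ z ∈ Hp, f z = g z + ((k * TT : ℝ) : ℂ) := by
  have hc : ContinuousOn (fun z => (f z - g z) / (TT : ℂ)) Hp := (hf.sub hg).div_const _
  have hint : ∀ z ∈ Hp, ∃ k : ℤ, (f z - g z) / (TT : ℂ) = (k : ℂ) := by
    intro z hz
    obtain ⟨k, hk⟩ := E_eq (h z hz)
    refine ⟨k, ?_⟩
    rw [hk]
    have := TT_ne
    push_cast
    field_simp
    ring
  obtain ⟨k, hk⟩ := hint I I_mem_hp
  refine ⟨k, fun z hz => ?_⟩
  have hpc : IsPreconnected ((fun z => (f z - g z) / (TT : ℂ)) '' Hp) :=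
    hp_convex.isPreconnected.image _ hc
  have hsub : ((fun z => (f z - g z) / (TT : ℂ)) '' Hp) ⊆ range ((↑) : ℤ → ℂ) := by
    rintro _ ⟨u, hu, rfl⟩
    obtain ⟨m, hm⟩ := hint u hu
    exact ⟨m, hm.symm⟩
  have hss : ((fun z => (f z - g z) / (TT : ℂ)) '' Hp).Subsingleton :=
    (Set.Countable.isTotallyDisconnected ((countable_range _).mono hsub)) _ Subset.rfl hpc
  have h1 := hss ⟨z, hz, rfl⟩ ⟨I, I_mem_hp, rfl⟩
  simp only at h1
  rw [hk, div_eq_iff TT_ne] at h1
  push_cast
  linear_combination h1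

end Pool.Agent.J6H12.LWP
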