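import Pool.Agent.J6H12.LWP.Cat

/-!
# The embedding theorem for all finite sets
-/

set_option autoImplicit false

open Set Filter Topology Complex Metric ComplexConjugate

noncomputable section

namespace Pool.Agent.J6H12.LWP

open LW242

/-- composition with an automorphism fixing `σ` -/
theorem brfp_aut {φ α : ℂ → ℂ} {σ : ℂ} {C : ℝ} (hU : UniD φ) (hα : UniD α) (hσ : ‖σ‖ = 1)
    (hc : ContinuousAt α σ) (hf : α σ = σ)
    (hd : ∀ w ∈ ball (0 : ℂ) 1, 1 - ‖α w‖ ≤ C * (1 - ‖w‖)) (hC : 0 ≤ C)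
    (h : BRFP φ σ) : BRFP (fun z => α (φ z)) σ := by
  obtain ⟨w, hw, hwl⟩ := radial hσ
  obtain ⟨h1, b, hb0, hb⟩ := brfp_ev hσ h (show (1 : ℝ) < 2 by norm_num)
  have hc' : Tendsto α (𝓝 σ) (𝓝 σ) := by
    have := hc.tendsto
    rwa [hf] at this
  refine jd_brfp (uniD_comp hα hU) hσ ⟨w, C * b, hw, hwl.mono_right nhdsWithin_le_nhds,
    hc'.comp (h1.comp hwl), ?_⟩
  filter_upwards [hwl.eventually hb] with k hk
  calc 1 - ‖α (φ (w k))‖ ≤ C * (1 - ‖φ (w k)‖) := hd _ (hU.2.1 (hw k))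
    _ ≤ C * (b * (1 - ‖w k‖)) := mul_le_mul_of_nonneg_left hk hC
    _ = _ := by ring

section

variable {a : ℂ} {ρ : ℝ → ℂ} {c : ℝ}

theorem af_dist (ha : ‖a‖ < 1) (hρ : Rot ρ c) {t : ℝ} (ht : t ∈ Icc (0 : ℝ) 1) :
    ∀ w ∈ ball (0 : ℂ) 1, 1 - ‖Af a ρ t w‖ ≤ 2 / (1 - ‖(t : ℂ) * a‖) ^ 2 * (1 - ‖w‖) := by
  intro w hw
  have h1 := mob_dist_le (w := ρ t * w) (ta_lt ha ht)
    (by rw [mul_norm_one (hρ.one t ht)]; exact (mem_ball_zero_iff.1 hw).le)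
  rw [mul_norm_one (hρ.one t ht)] at h1
  exact h1

theorem bf_dist (ha : ‖a‖ < 1) (hρ : Rot ρ c) {t : ℝ} (ht : t ∈ Icc (0 : ℝ) 1) :
    ∀ w ∈ ball (0 : ℂ) 1, 1 - ‖Bf a ρ t w‖ ≤ 2 / (1 - ‖(t : ℂ) * a‖) ^ 2 * (1 - ‖w‖) := by
  intro w hw
  have h0 : ‖-((t : ℂ) * a)‖ < 1 := by rw [norm_neg]; exact ta_lt ha ht
  have h1 := mob_dist_le (w := w) h0 (mem_ball_zero_iff.1 hw).le
  rw [norm_neg] at h1
  unfold Bf
  rw [mul_norm_one (by rw [norm_inv, hρ.one t ht, inv_one])]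
  exact h1

theorem af_cont (ha : ‖a‖ < 1) (hρ : Rot ρ c) {t : ℝ} (ht : t ∈ Icc (0 : ℝ) 1) {σ : ℂ}
    (hσ : ‖σ‖ = 1) : ContinuousAt (Af a ρ t) σ := by
  have h1 : ContinuousAt (mob (t * a)) (ρ t * σ) :=
    (mob_diffAt (ta_lt ha ht) (by rw [mul_norm_one (hρ.one t ht)]; exact hσ.le)).continuousAt
  have h2 : ContinuousAt (fun w => ρ t * w) σ := by fun_prop
  exact ContinuousAt.comp (f := fun w => ρ t * w) (g := mob (t * a)) h1 h2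

theorem bf_cont (ha : ‖a‖ < 1) {t : ℝ} (ht : t ∈ Icc (0 : ℝ) 1) {σ : ℂ}
    (hσ : ‖σ‖ = 1) : ContinuousAt (Bf a ρ t) σ := by
  have h0 : ‖-((t : ℂ) * a)‖ < 1 := by rw [norm_neg]; exact ta_lt ha ht
  exact continuousAt_const.mul (mob_diffAt h0 hσ.le).continuousAt

theorem bf_zero (hρ : Rot ρ c) (w : ℂ) : Bf a ρ 0 w = w := by
  unfold Bf
  rw [hρ.zero]
  simp [mob]

theorem bf_self (_ha : ‖a‖ < 1) : Bf a ρ 1 a = 0 := by
  unfold Bf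
  simp [mob]

end

/-- one boundary fixed point -/
theorem embed_one (σ : ℂ) (hσ : ‖σ‖ = 1) (φ : ℂ → ℂ) (hU : UniD φ) (hB : BRFP φ σ) :
    ∃ ψ : ℝ → ℝ → ℂ → ℂ, IsEvo ψ ∧
      (∀ s t, 0 ≤ s → s ≤ t → UniD (ψ s t) ∧ BRFP (ψ s t) σ) ∧
      ∀ z ∈ ball (0 : ℂ) 1, ψ 0 1 z = φ z := by
  obtain ⟨a, had⟩ : ∃ a, a = φ 0 := ⟨_, rfl⟩
  have ha : ‖a‖ < 1 := by rw [had]; exact mem_ball_zero_iff.1 (hU.2.1 z0)
  have hσ0 : σ ≠ 0 := by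
    rintro rfl
    rw [norm_zero] at hσ
    exact zero_ne_one hσ
  set ρ : ℝ → ℂ := fun t => mob (-((t : ℂ) * a)) σ / σ with hρd
  have h6 : 0 < 1 - ‖a‖ := by linarith
  have hρ : Rot ρ (2 / (1 - ‖a‖) ^ 2) := by
    refine ⟨fun t ht => ?_, fun u hu t ht hut => ?_, ?_⟩
    · have h0 : ‖-((t : ℂ) * a)‖ < 1 := by rw [norm_neg]; exact ta_lt ha ht
      simp only [hρd]
      rw [norm_div, mob_sphere h0 hσ, hσ, div_one]
    · simp only [hρd]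
      rw [← sub_div, norm_div, hσ, div_one]
      have h1 := mob_par (a := -a) (by rwa [norm_neg]) hu ht hut hσ.le
      rw [norm_neg, mul_neg, mul_neg] at h1
      exact h1
    · simp [hρd, mob, hσ0]
  have hafσ : ∀ t ∈ Icc (0 : ℝ) 1, Af a ρ t σ = σ := by
    intro t ht
    unfold Af
    simp only [hρd]
    rw [div_mul_cancel₀ _ hσ0, mob_inv' (ta_lt ha ht) hσ.le]
  have hbfσ : ∀ t ∈ Icc (0 : ℝ) 1, Bf a ρ t σ = σ := by
    intro t ht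
    have := bf_af ha hρ ht hσ.le
    rwa [hafσ t ht] at this
  have hone : (1 : ℝ) ∈ Icc (0 : ℝ) 1 := ⟨zero_le_one, le_rfl⟩
  have hAB : ∀ t ∈ Icc (0 : ℝ) 1, ∀ f : ℂ → ℂ, UniD f → BRFP f σ →
      UniD (fun z => Af a ρ t (f z)) ∧ BRFP (fun z => Af a ρ t (f z)) σ ∧
      UniD (fun z => Bf a ρ t (f z)) ∧ BRFP (fun z => Bf a ρ t (f z)) σ := by
    intro t ht f hf hfB
    have hpos : 0 ≤ 2 / (1 - ‖(t : ℂ) * a‖) ^ 2 := by positivity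
    exact ⟨uniD_comp (af_uni ha hρ ht) hf,
      brfp_aut hf (af_uni ha hρ ht) hσ (af_cont ha hρ ht hσ) (hafσ t ht) (af_dist ha hρ ht) hpos hfB,
      uniD_comp (bf_uni ha hρ ht) hf,
      brfp_aut hf (bf_uni ha hρ ht) hσ (bf_cont ha ht hσ) (hbfσ t ht) (bf_dist ha hρ ht) hpos hfB⟩
  set φ₁ : ℂ → ℂ := fun z => Bf a ρ 1 (φ z) with hφ₁
  obtain ⟨-, -, h1, h2⟩ := hAB 1 hone φ hU hB
  have h3 : φ₁ 0 = 0 := by
    simp only [hφ₁]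
    rw [← had]
    exact bf_self ha
  obtain ⟨ψ₁, K, hL, hm, he⟩ := embed_interior' {σ} (finite_singleton σ) (singleton_nonempty σ)
    (by rw [singleton_subset_iff, mem_sphere_zero_iff_norm]; exact hσ) 0 z0 φ₁ h1 h3
    (by intro s hs; rw [mem_singleton_iff] at hs; rw [hs]; exact h2)
  obtain ⟨ψ, K', g1, g2, g3⟩ := cat hL (aut_lev ha hρ (by positivity))
  refine ⟨ψ, g1.isEvo, fun s t hs hst => ?_, fun z hz => ?_⟩
  · obtain ⟨p, q, p', q', k1, k2, k3, k4, k5⟩ := g2 s t hs hst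
    obtain ⟨m1, m2, -⟩ := hm p q k1 k2
    have hp' : min p' 1 ∈ Icc (0 : ℝ) 1 := ⟨le_min k3 zero_le_one, min_le_right _ _⟩
    have hq' : min q' 1 ∈ Icc (0 : ℝ) 1 := ⟨le_min (k3.trans k4) zero_le_one, min_le_right _ _⟩
    obtain ⟨-, -, u1, u2⟩ := hAB _ hp' _ m1 (m2 σ rfl)
    obtain ⟨v1, v2, -, -⟩ := hAB _ hq' _ u1 u2
    rw [k5]
    exact ⟨v1, v2⟩
  · rw [g3 z, he z hz]
    show Af a ρ (min 1 1) (Bf a ρ (min 0 1) (Bf a ρ 1 (φ z))) = φ z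
    rw [min_self, min_eq_left zero_le_one, bf_zero hρ,
      af_bf ha hρ hone (mem_ball_zero_iff.1 (hU.2.1 hz)).le]

/-- no boundary fixed points -/
theorem embed_zero (φ : ℂ → ℂ) (hU : UniD φ) :
    ∃ ψ : ℝ → ℝ → ℂ → ℂ, IsEvo ψ ∧
      (∀ s t, 0 ≤ s → s ≤ t → UniD (ψ s t)) ∧
      ∀ z ∈ ball (0 : ℂ) 1, ψ 0 1 z = φ z := by
  obtain ⟨a, had⟩ : ∃ a, a = φ 0 := ⟨_, rfl⟩
  have ha : ‖a‖ < 1 := by rw [had]; exact mem_ball_zero_iff.1 (hU.2.1 z0)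
  have hna : ‖-a‖ < 1 := by rwa [norm_neg]
  have hχU : UniD (fun z => mob (-a) (φ z)) := uniD_comp (uniD_mob hna) hU
  obtain ⟨l, hl⟩ : ∃ l, l = deriv (fun z => mob (-a) (φ z)) 0 := ⟨_, rfl⟩
  have hl0 : l ≠ 0 := by
    rw [hl]
    exact Pool.Agent.Helper202.Univ.deriv_ne_zero isOpen_ball hχU.1 hχU.2.2 z0
  have hln : 0 < ‖l‖ := norm_pos_iff.2 hl0
  set ρ : ℝ → ℂ := fun t => cexp (I * ((t * arg l : ℝ) : ℂ)) with hρd
  have hn1 : ∀ t : ℝ, ‖ρ t‖ = 1 := by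
    intro t
    simp only [hρd]
    rw [Complex.norm_exp]
    simp
  have hρ : Rot ρ |arg l| := by
    refine ⟨fun t _ => hn1 t, fun u _ t _ hut => ?_, ?_⟩
    · have e : ρ u - ρ t = -(ρ u * (cexp (I * (((t - u) * arg l : ℝ) : ℂ)) - 1)) := by
        simp only [hρd]
        rw [mul_sub, ← Complex.exp_add, mul_one]
        have : I * ((u * arg l : ℝ) : ℂ) + I * (((t - u) * arg l : ℝ) : ℂ) =
            I * ((t * arg l : ℝ) : ℂ) := by push_cast; ring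
        rw [this]; ring
      rw [e, norm_neg, norm_mul, hn1, one_mul]
      have h1 := Real.norm_exp_I_mul_ofReal_sub_one_le (x := (t - u) * arg l)
      refine h1.trans ?_
      rw [Real.norm_eq_abs, abs_mul, abs_of_nonneg (by linarith : 0 ≤ t - u), mul_comm]
    · simp [hρd]
  have hone : (1 : ℝ) ∈ Icc (0 : ℝ) 1 := ⟨zero_le_one, le_rfl⟩
  set φ₁ : ℂ → ℂ := fun z => Bf a ρ 1 (φ z) with hφ₁
  have h1 : UniD φ₁ := uniD_comp (bf_uni ha hρ hone) hU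
  have h3 : φ₁ 0 = 0 := by
    simp only [hφ₁]
    rw [← had]
    exact bf_self ha
  have hdv : deriv φ₁ 0 = (‖l‖ : ℂ) := by
    have e : φ₁ = fun z => (ρ 1)⁻¹ * mob (-a) (φ z) := by
      funext z
      simp only [hφ₁, Bf, Complex.ofReal_one, one_mul]
    rw [e, deriv_const_mul _ (uz_diffAt hχU z0), ← hl]
    have h5 : ρ 1 * (‖l‖ : ℂ) = l := by
      simp only [hρd, one_mul]
      rw [mul_comm, mul_comm I]
      exact Complex.norm_mul_exp_arg_mul_I l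
    have h6 : ρ 1 ≠ 0 := rot_ne hρ hone
    rw [inv_mul_eq_iff_eq_mul₀ h6]
    exact h5.symm
  have hrr : rr φ₁ = ‖l‖ := by unfold rr; rw [hdv]; simp
  have hUZ : UZ φ₁ := ⟨h1, h3, by rw [hrr]; exact hln, by rw [hrr]; exact hdv⟩
  obtain ⟨ψ₁, K, k1, k2, k3, k4, k5⟩ := Rad.gz hUZ
  have hL : LEv ψ₁ K := ⟨fun s t hs hst => (k1 s t hs hst).1, k2, k3, k4⟩
  obtain ⟨ψ, K', g1, g2, g3⟩ := cat hL (aut_lev ha hρ (abs_nonneg _))
  refine ⟨ψ, g1.isEvo, g1.1, fun z hz => ?_⟩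
  rw [g3 z, k5 z hz]
  show Af a ρ (min 1 1) (Bf a ρ (min 0 1) (Bf a ρ 1 (φ z))) = φ z
  rw [min_self, min_eq_left zero_le_one, bf_zero hρ,
    af_bf ha hρ hone (mem_ball_zero_iff.1 (hU.2.1 hz)).le]

/-- the embedding property of `𝔘[F]` for every finite set -/
theorem embed_finite (F : Set ℂ) (hF : F.Finite) (hFs : F ⊆ sphere 0 1)
    (φ : ℂ → ℂ) (hU : UniD φ) (hB : ∀ σ ∈ F, BRFP φ σ) (hid : ¬ IsIdD φ) :
    ∃ ψ : ℝ → ℝ → ℂ → ℂ, IsEvo ψ ∧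
      (∀ s t, 0 ≤ s → s ≤ t → UniD (ψ s t) ∧ ∀ σ ∈ F, BRFP (ψ s t) σ) ∧
      ∀ z ∈ ball (0 : ℂ) 1, ψ 0 1 z = φ z := by
  rcases F.subsingleton_or_nontrivial with h | h
  · rcases h.eq_empty_or_singleton with h | ⟨σ, h⟩
    · subst h
      obtain ⟨ψ, h1, h2, h3⟩ := embed_zero φ hU
      exact ⟨ψ, h1, fun s t hs hst => ⟨h2 s t hs hst, fun σ hσ => absurd hσ (notMem_empty σ)⟩, h3⟩
    · subst h
      have hσ : ‖σ‖ = 1 := mem_sphere_zero_iff_norm.1 (hFs rfl)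
      obtain ⟨ψ, h1, h2, h3⟩ := embed_one σ hσ φ hU (hB σ rfl)
      refine ⟨ψ, h1, fun s t hs hst => ⟨(h2 s t hs hst).1, fun s' hs' => ?_⟩, h3⟩
      rw [mem_singleton_iff] at hs'
      rw [hs']
      exact (h2 s t hs hst).2
  · exact embed_all F hF h hFs φ hU hB hid

end Pool.Agent.J6H12.LWP
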