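import Pool.Agent.J6H12.LWP.DatP
import Pool.Agent.J6H12.LWP.B0P

/-!
# There are no indecomposable elements in the periodic semigroup
-/

set_option autoImplicit false

open Set Filter Topology Complex Metric

noncomputable section

namespace Pool.Agent.J6H12.LWP

open LW242

section

variable {n : ℕ} {φ : ℂ → ℂ} {x A : ℕ → ℝ}

/-- Lemma B -/
theorem lemB' (h : PB n φ x A) {f g : ℂ → ℂ} {ζ : ℕ → ℝ} (hD : DP n φ x A f g ζ) {j : ℕ}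
    (hj : j < n) {p : ℂ} (hp : p ∈ VV φ x j) (hpf : p ∉ f '' Hp) :
    ∃ (f' g' : ℂ → ℂ) (ζ' : ℕ → ℝ), DP n φ x A f' g' ζ' ∧ f '' Hp ⊆ f' '' Hp ∧
      (∃ q ∈ f' '' Hp, q ∉ f '' Hp) ∧ ∀ q ∈ f' '' Hp, q ∉ f '' Hp → q ∈ VV φ x j := by
  obtain ⟨hV, hVH, hVc⟩ := VV_reg h hj
  have hVc' : ∀ p ∈ Hp, p ∈ closure (VV φ x j) → p ∈ VV φ x j ∨ p ∈ f '' Hp := by
    intro p hp hpc
    rcases hVc p hp hpc with h | h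
    · exact Or.inl h
    · exact Or.inr (dat_sub hD.d h)
  obtain ⟨q, hqV, hqf, hqc⟩ := bdry_pt' (uni_img_open hD.d.f_uni) (uni_img_sub hD.d.f_uni)
    uni_img_ne hV hVH hVc' hp hpf
  obtain ⟨F, hF, hFP, h1, h2, h3, -⟩ := b0p f (VV φ x j) q hD.d.f_uni hD.pf hV hVH
    (fun z hz k => VV_sh hz k) hVc' hqV hqf hqc
  obtain ⟨f', g', ζ', hD', hfF⟩ := rp h hF hFP ((dat_sub hD.d).trans h1)
  refine ⟨f', g', ζ', hD', ?_, ⟨q, ?_, hqf⟩, ?_⟩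
  · rw [hfF]; exact h1
  · rw [hfF]; exact h2
  · rw [hfF]; exact h3

/-- Lemma C -/
theorem lemC' (h : PB n φ x A) {f g : ℂ → ℂ} {ζ : ℕ → ℝ} (hD : DP n φ x A f g ζ)
    {f₂ g₂ : ℂ → ℂ} {ζ₂ : ℕ → ℝ} (hD₂ : DP n φ x A f₂ g₂ ζ₂)
    (hsub : f '' Hp ⊆ f₂ '' Hp) {p : ℂ} (hp : p ∈ f₂ '' Hp) (hpf : p ∉ f '' Hp) :
    ∃ (f' g' : ℂ → ℂ) (ζ' : ℕ → ℝ), DP n φ x A f' g' ζ' ∧ f '' Hp ⊆ f' '' Hp ∧
      f' '' Hp ⊆ f₂ '' Hp ∧ (∃ q ∈ f' '' Hp, q ∉ f '' Hp) ∧ (∃ q ∈ f₂ '' Hp, q ∉ f' '' Hp) := by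
  obtain ⟨k, hk, hkP, hcomp, -⟩ := op h hD hD₂ hsub
  obtain ⟨u, hu, rfl⟩ := hp
  have hu' : u ∉ k '' Hp := by
    rintro ⟨v, hv, rfl⟩
    exact hpf ⟨v, hv, (hcomp v hv).symm⟩
  obtain ⟨q, hq, hqh, hqc⟩ := bdry_pt (uni_img_open hk) (uni_img_sub hk) uni_img_ne hu hu'
  obtain ⟨F₁, hF₁, hF₁P, h1, h2, -, h4⟩ := b0p k Hp q hk hkP hp_open subset_rfl
    (fun z hz k => add_mem hz _) (fun p hp _ => Or.inl hp) hq hqh hqc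
  have hF : Uni (fun z => f₂ (F₁ z)) := uni_comp hD₂.d.f_uni hF₁
  have hFP : Pd (fun z => f₂ (F₁ z)) := hD₂.pf.comp hF₁P hF₁.2.1
  have hfF : f '' Hp ⊆ (fun z => f₂ (F₁ z)) '' Hp := by
    rintro _ ⟨z, hz, rfl⟩
    obtain ⟨v, hv, hv2⟩ := h1 ⟨z, hz, rfl⟩
    exact ⟨v, hv, by simp only [hv2]; exact hcomp z hz⟩
  obtain ⟨f', g', ζ', hD', hfF'⟩ := rp h hF hFP ((dat_sub hD.d).trans hfF)
  refine ⟨f', g', ζ', hD', ?_, ?_, ⟨f₂ q, ?_, ?_⟩, ?_⟩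
  · rw [hfF']; exact hfF
  · rw [hfF']
    rintro _ ⟨z, hz, rfl⟩
    exact ⟨F₁ z, hF₁.2.1 hz, rfl⟩
  · rw [hfF']
    obtain ⟨v, hv, hv2⟩ := h2
    exact ⟨v, hv, by simp only [hv2]⟩
  · rintro ⟨z, hz, hzq⟩
    rw [← hcomp z hz] at hzq
    have := hD₂.d.f_uni.2.2 (hk.2.1 hz) hq hzq
    exact hqh ⟨z, hz, this⟩
  · rw [hfF']
    have h5 : ∃ r ∈ Hp, r ∉ F₁ '' Hp := by
      by_contra hcon
      push Not at hcon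
      exact h4 (Subset.antisymm (uni_img_sub hF₁) hcon)
    obtain ⟨r, hr, hr2⟩ := h5
    refine ⟨f₂ r, ⟨r, hr, rfl⟩, ?_⟩
    rintro ⟨z, hz, hzq⟩
    exact hr2 ⟨z, hz, hD₂.d.f_uni.2.2 (hF₁.2.1 hz) hr hzq⟩

theorem rho_lt' (h : PB n φ x A) {f g : ℂ → ℂ} {ζ : ℕ → ℝ}
    (hD : DP n φ x A f g ζ) {f₂ g₂ : ℂ → ℂ} {ζ₂ : ℕ → ℝ} (hD₂ : DP n φ x A f₂ g₂ ζ₂)
    (hsub : f '' Hp ⊆ f₂ '' Hp) {p : ℂ} (hp : p ∈ f₂ '' Hp) (hpf : p ∉ f '' Hp) :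
    rho g₂ < rho g := rho_lt p_o p_rho h.b hD.d hD₂.d hsub hp hpf

/-- extremal data exist for closed conditions -/
theorem extremal' (h : PB n φ x A) (s : ℝ)
    (P : (ℂ → ℂ) → (ℂ → ℂ) → (ℕ → ℝ) → Prop)
    (hne : ∃ f g ζ, DP n φ x A f g ζ ∧ P f g ζ)
    (hcl : ∀ (f g : ℕ → ℂ → ℂ) (ζ : ℕ → ℕ → ℝ) (f' g' : ℂ → ℂ) (ζ' : ℕ → ℝ),
      (∀ k, DP n φ x A (f k) (g k) (ζ k)) → (∀ k, P (f k) (g k) (ζ k)) →
      DP n φ x A f' g' ζ' →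
      (∀ j ≤ n, Tendsto (fun k => ζ k j) (hyperfilter ℕ) (𝓝 (ζ' j))) →
      (∀ p ∈ Hp, (∀ k, p ∉ f k '' Hp) → p ∉ f' '' Hp) →
      (∀ (f₁ g₁ : ℂ → ℂ) (ζ₁ : ℕ → ℝ), DP n φ x A f₁ g₁ ζ₁ →
        (∀ k, f₁ '' Hp ⊆ f k '' Hp) → f₁ '' Hp ⊆ f' '' Hp) → P f' g' ζ') :
    ∃ f g ζ, DP n φ x A f g ζ ∧ P f g ζ ∧
      ∀ f₁ g₁ ζ₁, DP n φ x A f₁ g₁ ζ₁ → P f₁ g₁ ζ₁ → s * rho g ≤ s * rho g₁ := by
  set S : Set ℝ := {r | ∃ f g ζ, DP n φ x A f g ζ ∧ P f g ζ ∧ r = s * rho g} with hS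
  have hSne : S.Nonempty := by
    obtain ⟨f, g, ζ, h1, h2⟩ := hne
    exact ⟨_, f, g, ζ, h1, h2, rfl⟩
  have hSb : BddBelow S := by
    refine ⟨-|s|, ?_⟩
    rintro r ⟨f, g, ζ, h1, -, rfl⟩
    have h3 := rho_nonneg h1.d.g_uni
    have h4 := rho_le_one p_rho h1.d.g_uni
    have h5 : |s * rho g| ≤ |s| := by
      rw [abs_mul, abs_of_nonneg h3]
      nlinarith [abs_nonneg s]
    exact (neg_le_neg h5).trans (neg_abs_le _)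
  have hseq : ∀ k : ℕ, ∃ f g ζ, DP n φ x A f g ζ ∧ P f g ζ ∧
      s * rho g < sInf S + 1 / ((k : ℝ) + 1) := by
    intro k
    obtain ⟨r, ⟨f, g, ζ, h1, h2, rfl⟩, h3⟩ := exists_lt_of_csInf_lt hSne
      (show sInf S < sInf S + 1 / ((k : ℝ) + 1) by
        have : (0 : ℝ) < 1 / ((k : ℝ) + 1) := by positivity
        linarith)
    exact ⟨f, g, ζ, h1, h2, h3⟩
  choose f g ζ h1 h2 h3 using hseq
  obtain ⟨f', g', ζ', hD, hζ, hrho, hom, hin⟩ := kp h f g ζ h1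
  have hle : ((hyperfilter ℕ : Ultrafilter ℕ) : Filter ℕ) ≤ atTop := by
    rw [← Nat.cofinite_eq_atTop]; exact Filter.hyperfilter_le_cofinite
  have hP : P f' g' ζ' := hcl f g ζ f' g' ζ' h1 h2 hD hζ
    (fun p hp h => hom p hp (Eventually.of_forall h))
    (fun f₁ g₁ ζ₁ hd h => hin f₁ g₁ ζ₁ hd (Eventually.of_forall h))
  refine ⟨f', g', ζ', hD, hP, ?_⟩
  intro f₁ g₁ ζ₁ hd₁ hP₁
  have h4 : sInf S ≤ s * rho g₁ := csInf_le hSb ⟨f₁, g₁, ζ₁, hd₁, hP₁, rfl⟩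
  have h5 : Tendsto (fun k => s * rho (g k)) (hyperfilter ℕ) (𝓝 (s * rho g')) :=
    hrho.const_mul s
  have h6 : Tendsto (fun k : ℕ => sInf S + 1 / ((k : ℝ) + 1)) (hyperfilter ℕ)
      (𝓝 (sInf S + 0)) :=
    (tendsto_const_nhds.add tendsto_one_div_add_atTop_nhds_zero_nat).mono_left hle
  rw [add_zero] at h6
  have h7 : s * rho g' ≤ sInf S := le_of_tendsto_of_tendsto' h5 h6 fun k => (h3 k).le
  linarith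

/-- equal images have equal lengths -/
theorem len_eq' (h : PB n φ x A) {f g : ℂ → ℂ} {ζ : ℕ → ℝ}
    (hD : DP n φ x A f g ζ) {f₂ g₂ : ℂ → ℂ} {ζ₂ : ℕ → ℝ} (hD₂ : DP n φ x A f₂ g₂ ζ₂)
    (heq : f '' Hp = f₂ '' Hp) {j : ℕ} (hj : j < n) :
    ζ (j + 1) - ζ j = ζ₂ (j + 1) - ζ₂ j := len_eq p_m h.b hD.d hD₂.d heq hj

/-- intermediate value lemma -/
theorem interm' (h : PB n φ x A) {f g : ℂ → ℂ} {ζ : ℕ → ℝ}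
    (hD : DP n φ x A f g ζ) {f₂ g₂ : ℂ → ℂ} {ζ₂ : ℕ → ℝ} (hD₂ : DP n φ x A f₂ g₂ ζ₂)
    (hsub : f '' Hp ⊆ f₂ '' Hp) {p : ℂ} (hp : p ∈ f₂ '' Hp) (hpf : p ∉ f '' Hp)
    {j : ℕ} (hj : j < n) {a : ℝ} (ha : a < ζ (j + 1) - ζ j) :
    ∃ (f' g' : ℂ → ℂ) (ζ' : ℕ → ℝ), DP n φ x A f' g' ζ' ∧ f '' Hp ⊆ f' '' Hp ∧
      f' '' Hp ⊆ f₂ '' Hp ∧ (∃ q ∈ f' '' Hp, q ∉ f '' Hp) ∧ a ≤ ζ' (j + 1) - ζ' j := by
  by_cases h0 : a ≤ ζ₂ (j + 1) - ζ₂ j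
  · exact ⟨f₂, g₂, ζ₂, hD₂, hsub, subset_rfl, ⟨p, hp, hpf⟩, h0⟩
  push Not at h0
  obtain ⟨f₁, g₁, ζ₁, hD₁, ⟨hs1, hs2, hs3⟩, hext⟩ := extremal' h (-1)
    (fun f' _ ζ' => f '' Hp ⊆ f' '' Hp ∧ f' '' Hp ⊆ f₂ '' Hp ∧ ζ' (j + 1) - ζ' j ≤ a)
    ⟨f₂, g₂, ζ₂, hD₂, hsub, subset_rfl, h0.le⟩
    (by
      intro f g ζ' f' g' ζ'' hd hP hd' hζ hom hin
      refine ⟨hin _ _ _ hD fun k => (hP k).1, ?_, ?_⟩
      · intro q hq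
        by_contra hq2
        refine hom q (uni_img_sub hd'.d.f_uni hq) (fun k hk => hq2 ((hP k).2.1 hk)) hq
      · have h1 := (hζ (j + 1) hj).sub (hζ j hj.le)
        exact le_of_tendsto h1 (Eventually.of_forall fun k => (hP k).2.2))
  have hne : f '' Hp ≠ f₁ '' Hp := by
    intro e
    have := len_eq' h hD hD₁ e hj
    linarith
  have hex : ∃ q ∈ f₁ '' Hp, q ∉ f '' Hp := by
    by_contra hcon
    push Not at hcon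
    exact hne (Subset.antisymm hs1 hcon)
  obtain ⟨q, hq, hqf⟩ := hex
  obtain ⟨f₃, g₃, ζ₃, hD₃, k1, k2, k3, q', hq', hq'3⟩ := lemC' h hD hD₁ hs1 hq hqf
  refine ⟨f₃, g₃, ζ₃, hD₃, k1, k2.trans hs2, k3, ?_⟩
  by_contra hcon
  push Not at hcon
  have h1 := hext f₃ g₃ ζ₃ hD₃ ⟨k1, k2.trans hs2, hcon.le⟩
  have h2 := rho_lt' h hD₃ hD₁ k2 hq' hq'3
  linarith

/-- the extremal argument -/
theorem ext_main' (h : PB n φ x A) {f₀ g₀ : ℂ → ℂ} {ζ₀ : ℕ → ℝ} (hD₀ : DP n φ x A f₀ g₀ ζ₀)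
    {j₀ : ℕ} (hj₀ : j₀ < n)
    (hL₀ : ∀ j < n, j ≠ j₀ → x (j + 1) - x j ≤ ζ₀ (j + 1) - ζ₀ j)
    {p₀ : ℂ} (hp₀ : p₀ ∉ f₀ '' Hp) (hp₀V : p₀ ∈ VV φ x j₀) :
    ∃ (f g : ℂ → ℂ) (ζ : ℕ → ℝ), DP n φ x A f g ζ ∧ f₀ '' Hp ⊆ f '' Hp ∧
      p₀ ∉ f '' Hp ∧ ∀ j < n, j ≠ j₀ → ζ (j + 1) - ζ j = x (j + 1) - x j := by
  obtain ⟨f, g, ζ, hD, ⟨h1, h2, h3⟩, hext⟩ := extremal' h 1
    (fun f _ ζ => f₀ '' Hp ⊆ f '' Hp ∧ p₀ ∉ f '' Hp ∧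
      ∀ j < n, j ≠ j₀ → x (j + 1) - x j ≤ ζ (j + 1) - ζ j)
    ⟨f₀, g₀, ζ₀, hD₀, subset_rfl, hp₀, hL₀⟩
    (by
      intro f g ζ f' g' ζ' hd hP hd' hζ hom hin
      refine ⟨hin _ _ _ hD₀ fun k => (hP k).1, ?_, ?_⟩
      · intro hpf
        exact hom p₀ (uni_img_sub hd'.d.f_uni hpf) (fun k => (hP k).2.1) hpf
      · intro j hj hjj
        have h1 := (hζ (j + 1) hj).sub (hζ j hj.le)
        exact ge_of_tendsto h1 (Eventually.of_forall fun k => (hP k).2.2 j hj hjj))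
  refine ⟨f, g, ζ, hD, h1, h2, fun j hj hjj => ?_⟩
  by_contra hne
  have hgt : x (j + 1) - x j < ζ (j + 1) - ζ j := lt_of_le_of_ne (h3 j hj hjj) (Ne.symm hne)
  -- obstacle
  have hobs : ∃ p ∈ Hp, p ∉ f '' Hp ∧ p ∈ Sec φ x j := by
    by_contra hcon
    push Not at hcon
    have h4 := p_m n φ 1 x A h.b f g ζ _ _ _ hD.d (dat_H h.b)
      (by
        rintro p hp
        exact ⟨p, uni_img_sub hD.d.f_uni hp, rfl⟩) j hj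
      (by
        rintro p ⟨p', hp', rfl⟩ hpf hk
        exact hcon p' hp' hpf hk)
    linarith
  obtain ⟨p, hp, hpf, hpV⟩ := hobs
  obtain ⟨f₂, g₂, ζ₂, hD₂, hs, ⟨q, hq, hqf⟩, hnew⟩ := lemB' h hD hj (sec_sub_VV hpV) hpf
  obtain ⟨f₃, g₃, ζ₃, hD₃, k1, k2, ⟨q', hq', hq'f⟩, k4⟩ := interm' h hD hD₂ hs hq hqf hj hgt
  have h6 := hext f₃ g₃ ζ₃ hD₃ ⟨h1.trans k1, ?_, ?_⟩
  · have h7 := rho_lt' h hD hD₃ k1 hq' hq'f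
    linarith
  · intro hr3
    exact VV_disj h hj hj₀ hjj (hnew p₀ (k2 hr3) h2) hp₀V
  · intro i hi hii
    by_cases hij : i = j
    · subst hij; exact k4
    · refine (h3 i hi hii).trans (p_m n φ 1 x A h.b f g ζ f₃ g₃ ζ₃ hD.d hD₃.d k1 i hi ?_)
      intro r hr hrf hri
      exact VV_disj h hi hj hij (sec_sub_VV hri) (hnew r (k2 hr) hrf)

/-- the marked points are fixed -/
theorem zeta_eq' (h : PB n φ x A) {f g : ℂ → ℂ} {ζ : ℕ → ℝ} (hD : DP n φ x A f g ζ) {j₀ : ℕ}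
    (hj₀ : j₀ < n) (hL : ∀ j < n, j ≠ j₀ → ζ (j + 1) - ζ j = x (j + 1) - x j) :
    ∀ j ≤ n, ζ j = x j := by
  have h0 := hD.d.zero
  have hlow : ∀ j ≤ j₀, ζ j = x j := by
    intro j
    induction j with
    | zero => intro _; exact h0
    | succ j ih =>
      intro hj
      have h1 := ih (by omega)
      have h2 := hL j (by omega) (by omega)
      linarith
  have hn : ζ n = x n := by rw [zeta_n h hD, h.xn, h0]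
  have hhigh : ∀ k, j₀ < n - k → ζ (n - k) = x (n - k) := by
    intro k
    induction k with
    | zero => intro _; simpa using hn
    | succ k ih =>
      intro hk
      have h1 := ih (by omega)
      have h2 := hL (n - (k + 1)) (by omega) (by omega)
      have e : n - (k + 1) + 1 = n - k := by omega
      rw [e] at h2
      linarith
  intro j hj
  rcases Nat.lt_or_ge j₀ j with hlt | hge
  · have := hhigh (n - j) (by omega)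
    rwa [show n - (n - j) = j by omega] at this
  · exact hlow j hge

end

/-- the periodic semigroup -/
def CP (n : ℕ) (x : ℕ → ℝ) (f : ℂ → ℂ) : Prop := Cls n x f ∧ Pd f

theorem pb_of_cp {n : ℕ} {x : ℕ → ℝ} (hx : ∀ i j, i < j → j ≤ n → x i < x j) (h0 : 0 < n)
    (hxn : x n = x 0 + TT) {φ : ℂ → ℂ} (hφ : CP n x φ) : ∃ A : ℕ → ℝ, PB n φ x A := by
  obtain ⟨⟨hu, him, hj⟩, hP⟩ := hφ
  have hlim := (pd_jwc hu.1 hu.2.1 hP).2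
  choose! A hA using hj
  have hy : Tendsto (fun y : ℝ => (y : ℂ) * I) atTop (NTI 1) := by
    rw [NTI, tendsto_inf]
    constructor
    · rw [tendsto_comap_iff]
      have : ((fun z : ℂ => ‖z‖) ∘ fun y : ℝ => (y : ℂ) * I) = fun y : ℝ => |y| := by
        funext y
        simp
      rw [this]
      exact tendsto_abs_atTop_atTop
    · rw [tendsto_principal]
      filter_upwards [eventually_gt_atTop 0] with y hy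
      simp [hy, abs_of_pos hy]
  have hl : Tendsto (fun y : ℝ => φ (y * I) / (y * I)) atTop (𝓝 ((1 : ℝ) : ℂ)) := by
    rw [Complex.ofReal_one]
    exact (hlim 1).comp hy
  exact ⟨A, ⟨⟨hu, hx, le_rfl, fun z hz => by rw [one_mul]; exact him z hz, hl, hA⟩, hP, h0, hxn⟩⟩

/-- Theorem N, periodic -/
theorem thmN' {n : ℕ} {x : ℕ → ℝ} (hx : ∀ i j, i < j → j ≤ n → x i < x j) (h0 : 0 < n)
    (hxn : x n = x 0 + TT) {φ : ℂ → ℂ} (hφ : CP n x φ) (hnt : ∃ z ∈ Hp, φ z ≠ z) :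
    ∃ f g : ℂ → ℂ, CP n x f ∧ CP n x g ∧ (∀ z ∈ Hp, f (g z) = φ z) ∧
      (∃ z ∈ Hp, f z ≠ z) ∧ (∃ z ∈ Hp, g z ≠ z) := by
  obtain ⟨A, h⟩ := pb_of_cp hx h0 hxn hφ
  have hobs : ∃ p ∈ Hp, p ∉ φ '' Hp := by
    by_contra hcon
    push Not at hcon
    obtain ⟨z, hz, hz2⟩ := hnt
    exact hz2 (p_m3 n φ x A h.b (fun p hp hp2 => absurd (hcon p hp) hp2) z hz)
  obtain ⟨p, hp, hpφ⟩ := hobs
  obtain ⟨j₀, hj₀, hpV⟩ := VV_cover h hp hpφ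
  have hOm := dp_Om h
  obtain ⟨f₂, g₂, ζ₂, hD₂, hs, ⟨q, hq, hqf⟩, hnew⟩ := lemB' h hOm hj₀ hpV hpφ
  obtain ⟨f₀, g₀, ζ₀, hD₀, k1, k2, ⟨q₁, hq₁, hq₁f⟩, ⟨p₀, hp₀, hp₀f⟩⟩ :=
    lemC' h hOm hD₂ hs hq hqf
  have hp₀V : p₀ ∈ VV φ x j₀ := hnew p₀ hp₀ fun e => hp₀f (k1 e)
  have hL₀ : ∀ j < n, j ≠ j₀ → x (j + 1) - x j ≤ ζ₀ (j + 1) - ζ₀ j := by
    intro j hj hjj
    refine p_m n φ 1 x A h.b _ _ _ f₀ g₀ ζ₀ hOm.d hD₀.d k1 j hj ?_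
    intro r hr hrf hrS
    exact VV_disj h hj hj₀ hjj (sec_sub_VV hrS) (hnew r (k2 hr) hrf)
  obtain ⟨f, g, ζ, hD, m1, m2, m3⟩ := ext_main' h hD₀ hj₀ hL₀ hp₀f hp₀V
  have hζ := zeta_eq' h hD hj₀ m3
  refine ⟨f, g, ⟨⟨hD.d.f_uni, hD.d.f_im, fun j hj => ⟨A j, ?_⟩⟩, hD.pf⟩,
    ⟨⟨hD.d.g_uni, fun z hz => ?_, fun j hj => ⟨A j, ?_⟩⟩, hD.pg⟩, hD.d.comp, ?_, ?_⟩
  · have := hD.d.f_jul j hj
    rwa [hζ j hj] at this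
  · have := hD.d.g_im z hz
    linarith
  · have := hD.d.g_jul j hj
    rwa [hζ j hj] at this
  · by_contra hcon
    push Not at hcon
    refine m2 ⟨p₀, ?_, hcon p₀ ?_⟩
    · exact uni_img_sub hD₂.d.f_uni hp₀
    · exact uni_img_sub hD₂.d.f_uni hp₀
  · by_contra hcon
    push Not at hcon
    have h1 : q₁ ∈ f '' Hp := m1 hq₁
    obtain ⟨z, hz, hz2⟩ := h1
    apply hq₁f
    refine ⟨z, hz, ?_⟩
    rw [← hD.d.comp z hz, hcon z hz, hz2]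

end Pool.Agent.J6H12.LWP
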