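import Pool.Agent.Y242.LW.TK3
import Pool.Agent.Y405.LW.Cay
import Pool.Agent.Helper202.Univ

/-!
# Periodic self-maps of the half-plane

Self-maps of the upper half-plane which commute with the translation by `2 π` are the lifts of the
self-maps `φ` of the unit disc with `φ 0 = 0` and `φ w ≠ 0` for `w ≠ 0`.
-/

set_option autoImplicit false

open Set Filter Topology Complex Metric

noncomputable section

namespace Pool.Agent.J6H12.LWP

open LW242

/-- the period -/
def TT : ℝ := 2 * Real.pi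

theorem TT_pos : 0 < TT := by unfold TT; positivity

theorem TT_ne : (TT : ℂ) ≠ 0 := by exact_mod_cast TT_pos.ne'

/-- maps of the half-plane which commute with the translation by `2 π` -/
def Pd (f : ℂ → ℂ) : Prop := ∀ z ∈ Hp, f (z + TT) = f z + TT

theorem add_mem {z : ℂ} (hz : z ∈ Hp) (t : ℝ) : z + (t : ℂ) ∈ Hp := by
  have h : 0 < z.im := hz
  show 0 < (z + (t : ℂ)).im
  simpa using h

theorem add_mem_iff {z : ℂ} (t : ℝ) : z + (t : ℂ) ∈ Hp ↔ z ∈ Hp := by
  show 0 < (z + (t : ℂ)).im ↔ 0 < z.im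
  simp

theorem Pd.nat {f : ℂ → ℂ} (h : Pd f) (k : ℕ) : ∀ z ∈ Hp,
    f (z + ((k * TT : ℝ) : ℂ)) = f z + ((k * TT : ℝ) : ℂ) := by
  induction k with
  | zero => intro z _; simp
  | succ k ih =>
    intro z hz
    have h1 := h _ (add_mem hz (k * TT))
    rw [ih z hz] at h1
    have e : z + (((k + 1 : ℕ) * TT : ℝ) : ℂ) = z + ((k * TT : ℝ) : ℂ) + (TT : ℂ) := by
      push_cast; ring
    rw [e, h1]
    push_cast; ring

theorem Pd.int {f : ℂ → ℂ} (h : Pd f) (k : ℤ) {z : ℂ} (hz : z ∈ Hp) :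
    f (z + ((k * TT : ℝ) : ℂ)) = f z + ((k * TT : ℝ) : ℂ) := by
  obtain ⟨m, hm | hm⟩ := k.eq_nat_or_neg
  · subst hm
    exact_mod_cast h.nat m z hz
  · subst hm
    have h1 := h.nat m _ (add_mem hz (((-(m : ℤ) : ℤ) : ℝ) * TT))
    have e : z + ((((-(m : ℤ) : ℤ) : ℝ) * TT : ℝ) : ℂ) + ((m * TT : ℝ) : ℂ) = z := by
      push_cast; ring
    rw [e] at h1
    rw [h1]
    push_cast; ring

theorem Pd.comp {f g : ℂ → ℂ} (hf : Pd f) (hg : Pd g) (hm : MapsTo g Hp Hp) :
    Pd (fun z => f (g z)) := by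
  intro z hz
  show f (g (z + TT)) = f (g z) + TT
  rw [hg z hz, hf _ (hm hz)]

theorem pd_id : Pd (fun z => z) := fun _ _ => rfl

/-- `h z / z → 1` for periodic maps -/
theorem pd_jwc {h : ℂ → ℂ} (hd : DifferentiableOn ℂ h Hp) (hm : MapsTo h Hp Hp) (hP : Pd h) :
    (∀ z ∈ Hp, z.im ≤ (h z).im) ∧ ∀ M : ℝ, Tendsto (fun z => h z / z) (NTI M) (𝓝 1) := by
  obtain ⟨c, -, hc1, hc2⟩ := jwc h hd (fun z hz => le_of_lt (hm hz))
  have hT := TT_pos
  set w : ℕ → ℂ := fun k => (((k : ℝ) + 1) * TT : ℝ) * I with hw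
  have hwH : ∀ k, w k ∈ Hp := by
    intro k
    show 0 < (w k).im
    have : (w k).im = ((k : ℝ) + 1) * TT := by simp [hw]
    rw [this]; positivity
  have hpos : ∀ k : ℕ, 0 < ((k : ℝ) + 1) * TT := fun k => by positivity
  have hnorm : ∀ k, ‖w k‖ = ((k : ℝ) + 1) * TT := by
    intro k
    simp only [hw]
    rw [norm_mul, Complex.norm_I, mul_one, Complex.norm_real, Real.norm_eq_abs,
      abs_of_pos (hpos k)]
  have him : ∀ k, (w k).im = ((k : ℝ) + 1) * TT := by intro k; simp [hw]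
  have hinf : Tendsto (fun k : ℕ => ((k : ℝ) + 1) * TT) atTop atTop :=
    (tendsto_atTop_add_const_right _ _ tendsto_natCast_atTop_atTop).atTop_mul_const hT
  have h1 : Tendsto w atTop (NTI 1) := by
    refine tendsto_inf.2 ⟨tendsto_comap_iff.2 ?_, tendsto_principal.2 ?_⟩
    · have : ((fun z : ℂ => ‖z‖) ∘ w) = fun k : ℕ => ((k : ℝ) + 1) * TT := funext hnorm
      rw [this]; exact hinf
    · exact Eventually.of_forall fun k => ⟨hwH k, by rw [hnorm, him]; linarith⟩
  set v : ℕ → ℂ := fun k => w k + ((((k + 1 : ℕ) : ℝ) * TT : ℝ) : ℂ) with hv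
  have hvi : ∀ k, (v k).im = ((k : ℝ) + 1) * TT := by
    intro k; simp only [hv, Complex.add_im, Complex.ofReal_im, add_zero, him]
  have hvn1 : ∀ k : ℕ, ((k : ℝ) + 1) * TT ≤ ‖v k‖ := by
    intro k
    have := Complex.abs_im_le_norm (v k)
    rw [hvi, abs_of_pos (hpos k)] at this
    exact this
  have hvn2 : ∀ k : ℕ, ‖v k‖ ≤ 2 * (((k : ℝ) + 1) * TT) := by
    intro k
    refine (norm_add_le _ _).trans ?_
    rw [hnorm, Complex.norm_real, Real.norm_eq_abs]
    have : |((k + 1 : ℕ) : ℝ) * TT| = ((k : ℝ) + 1) * TT := by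
      push_cast; exact abs_of_pos (hpos k)
    rw [this]; linarith
  have h2 : Tendsto v atTop (NTI 2) := by
    refine tendsto_inf.2 ⟨tendsto_comap_iff.2 ?_, tendsto_principal.2 ?_⟩
    · exact tendsto_atTop_mono hvn1 hinf
    · exact Eventually.of_forall fun k => ⟨by
        show 0 < (v k).im
        rw [hvi]; exact hpos k, by rw [hvi]; exact hvn2 k⟩
  have l1 := (hc2 1).comp h1
  have l2 := (hc2 2).comp h2
  have hI1 : (I : ℂ) + 1 ≠ 0 := by
    intro h
    have := congrArg Complex.im h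
    simp at this
  have l3 : Tendsto (fun k => (h (w k) / w k * I + 1) / (I + 1)) atTop
      (𝓝 (((c : ℂ) * I + 1) / (I + 1))) := ((l1.mul_const I).add_const 1).div_const _
  have e : ∀ k, (h (w k) / w k * I + 1) / (I + 1) = h (v k) / v k := by
    intro k
    have h3 : h (v k) = h (w k) + ((((k + 1 : ℕ) : ℝ) * TT : ℝ) : ℂ) := hP.nat (k + 1) _ (hwH k)
    have h4 : v k = (((k : ℝ) + 1) * TT : ℝ) * (I + 1) := by
      simp only [hv, hw]; push_cast; ring
    have h5 : w k = (((k : ℝ) + 1) * TT : ℝ) * I := rfl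
    have h6 : ((((k : ℝ) + 1) * TT : ℝ) : ℂ) ≠ 0 := by exact_mod_cast (hpos k).ne'
    have h7 : ((((k + 1 : ℕ) : ℝ) * TT : ℝ) : ℂ) = ((((k : ℝ) + 1) * TT : ℝ) : ℂ) := by
      push_cast; ring
    rw [h3, h4, h7]
    generalize hw5 : h (w k) = a
    rw [h5]
    generalize ((((k : ℝ) + 1) * TT : ℝ) : ℂ) = b at h6 ⊢
    have := I_ne_zero
    field_simp
  have l4 : Tendsto (fun k => h (v k) / v k) atTop (𝓝 (((c : ℂ) * I + 1) / (I + 1))) :=
    l3.congr e
  have h5 := tendsto_nhds_unique l2 l4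
  have h6 : (c : ℂ) = 1 := by
    rw [eq_div_iff hI1] at h5
    linear_combination h5
  have h7 : c = 1 := by exact_mod_cast h6
  subst h7
  refine ⟨fun z hz => by simpa using hc1 z hz, fun M => by simpa using hc2 M⟩

/-! ### the covering map -/

/-- the covering map of the punctured disc -/
def E (z : ℂ) : ℂ := exp (I * z)

theorem E_ne (z : ℂ) : E z ≠ 0 := exp_ne_zero _

theorem E_norm (z : ℂ) : ‖E z‖ = Real.exp (-z.im) := by
  rw [E, Complex.norm_exp]; simp

theorem E_ball {z : ℂ} (hz : z ∈ Hp) : E z ∈ ball (0 : ℂ) 1 := by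
  have : 0 < z.im := hz
  rw [mem_ball_zero_iff, E_norm, Real.exp_lt_one_iff]
  linarith

theorem E_mem_iff {z : ℂ} : E z ∈ ball (0 : ℂ) 1 ↔ z ∈ Hp := by
  rw [mem_ball_zero_iff, E_norm, Real.exp_lt_one_iff]
  show -z.im < 0 ↔ 0 < z.im
  constructor <;> intro h <;> linarith

theorem E_add (z : ℂ) (k : ℤ) : E (z + ((k * TT : ℝ) : ℂ)) = E z := by
  unfold E TT
  have : I * (z + ((k * (2 * Real.pi) : ℝ) : ℂ)) = I * z + k * (2 * Real.pi * I) := by
    push_cast; ring
  rw [this, Complex.exp_add, Complex.exp_int_mul_two_pi_mul_I, mul_one]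

theorem E_add1 (z : ℂ) : E (z + (TT : ℂ)) = E z := by
  have := E_add z 1
  simpa using this

theorem E_eq {z w : ℂ} (h : E z = E w) : ∃ k : ℤ, z = w + ((k * TT : ℝ) : ℂ) := by
  unfold E at h
  obtain ⟨k, hk⟩ := Complex.exp_eq_exp_iff_exists_int.1 h
  refine ⟨k, ?_⟩
  unfold TT
  have hI := I_ne_zero
  have : I * (z - (w + ((k * (2 * Real.pi) : ℝ) : ℂ))) = 0 := by
    push_cast
    linear_combination hk
  rcases mul_eq_zero.1 this with h1 | h1
  · exact absurd h1 hI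
  · linear_combination h1

theorem E_surj {w : ℂ} (hw : w ≠ 0) : ∃ z, E z = w := by
  refine ⟨-I * Complex.log w, ?_⟩
  unfold E
  have : I * (-I * Complex.log w) = Complex.log w := by
    rw [← mul_assoc, mul_neg, I_mul_I]; ring
  rw [this, exp_log hw]

theorem E_surj' {w : ℂ} (hw : w ∈ ball (0 : ℂ) 1) (h0 : w ≠ 0) : ∃ z ∈ Hp, E z = w := by
  obtain ⟨z, rfl⟩ := E_surj h0
  exact ⟨z, E_mem_iff.1 hw, rfl⟩

theorem E_hasDeriv (z : ℂ) : HasDerivAt E (I * E z) z := by
  unfold E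
  have h1 : HasDerivAt (fun z : ℂ => I * z) (I * 1) z := (hasDerivAt_id z).const_mul I
  have := h1.cexp
  rw [mul_one, mul_comm] at this
  exact this

theorem E_diff : Differentiable ℂ E := fun z => (E_hasDeriv z).differentiableAt

theorem E_cont : Continuous E := E_diff.continuous

end Pool.Agent.J6H12.LWP
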