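import Pool.Agent.J6H12.LWP.Mob
import Pool.Agent.Y242.LW.Main

/-!
# Univalent self-maps of the disc with `f 0 = 0`, `f' 0 > 0`
-/

set_option autoImplicit false

open Set Filter Topology Complex Metric

noncomputable section

namespace Pool.Agent.J6H12.LWP

open LW242 Y405LW

/-- the derivative at the origin -/
def rr (f : ℂ → ℂ) : ℝ := (deriv f 0).re

/-- univalent, `f 0 = 0`, `f' 0 > 0` -/
def UZ (f : ℂ → ℂ) : Prop := UniD f ∧ f 0 = 0 ∧ 0 < rr f ∧ deriv f 0 = (rr f : ℂ)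

theorem z0 : (0 : ℂ) ∈ ball (0 : ℂ) 1 := mem_ball_self one_pos

theorem uz_diffAt {f : ℂ → ℂ} (h : UniD f) {w : ℂ} (hw : w ∈ ball (0 : ℂ) 1) :
    DifferentiableAt ℂ f w := h.1.differentiableAt (isOpen_ball.mem_nhds hw)

theorem uz_norm {f : ℂ → ℂ} (h : UniD f) (h0 : f 0 = 0) {w : ℂ} (hw : w ∈ ball (0 : ℂ) 1) :
    ‖f w‖ ≤ ‖w‖ :=
  Complex.norm_le_norm_of_mapsTo_ball h.1 (h.2.1.mono_right ball_subset_closedBall) h0
    (mem_ball_zero_iff.1 hw)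

theorem rr_congr {f g : ℂ → ℂ} (e : ∀ z ∈ ball (0 : ℂ) 1, g z = f z) : deriv g 0 = deriv f 0 :=
  Filter.EventuallyEq.deriv_eq (by
    filter_upwards [isOpen_ball.mem_nhds z0] with w hw using e w hw)

/-- the bound for the displacement -/
def kap (r : ℝ) : ℝ := 2 + 4 * r ^ 2 / (1 - r ^ 2)

theorem kap_nn {r : ℝ} (h0 : 0 ≤ r) (h1 : r < 1) : 0 ≤ kap r := by
  unfold kap
  have : 0 < 1 - r ^ 2 := by nlinarith
  positivity

theorem kap_mono {r s : ℝ} (h0 : 0 ≤ r) (h : r ≤ s) (h1 : s < 1) : kap r ≤ kap s := by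
  unfold kap
  have h2 : 0 < 1 - s ^ 2 := by nlinarith
  have h3 : r ^ 2 ≤ s ^ 2 := pow_le_pow_left₀ h0 h 2
  have : 4 * r ^ 2 / (1 - r ^ 2) ≤ 4 * s ^ 2 / (1 - s ^ 2) :=
    div_le_div₀ (by positivity) (by linarith) h2 (by linarith)
  linarith

/-- Harnack type bound for functions with nonnegative real part -/
theorem harnack {p : ℂ → ℂ} (hp : DifferentiableOn ℂ p (ball 0 1))
    (hr : ∀ w ∈ ball (0 : ℂ) 1, 0 ≤ (p w).re) {c : ℝ} (h0 : p 0 = (c : ℂ)) {v : ℂ}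
    (hv : v ∈ ball (0 : ℂ) 1) : ‖p v‖ ≤ c * kap ‖v‖ := by
  have hc : 0 ≤ c := by
    have := hr 0 z0
    rw [h0] at this
    simpa using this
  have hv1 : ‖v‖ < 1 := mem_ball_zero_iff.1 hv
  set z := yac v with hz
  have hzH : z ∈ Hp := yac_mem hv
  have hzv : cay z = v := cay_yac hv
  have hI : cay I = 0 := by simp [cay]
  have h1 := sp (fun z => I * p (cay z))
    ((differentiableOn_const _).mul (hp.comp cay_diff fun z hz => cay_mem hz))
    (fun z hz => by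
      have := hr _ (cay_mem hz)
      simpa using this) z hzH I I_mem_hp
  simp only [hzv, hI, h0] at h1
  have e1 : ‖I * p v - I * (c : ℂ)‖ = ‖p v - c‖ := by
    rw [← mul_sub, norm_mul, Complex.norm_I, one_mul]
  have e2 : (I * p v).im = (p v).re := by simp
  have e3 : (I * (c : ℂ)).im = c := by simp
  rw [e1, e2, e3, Complex.I_im, mul_one] at h1
  have hzI : 0 < ‖z + I‖ := norm_pos_iff.2 (add_ne hzH)
  have hz0 : 0 < z.im := hzH
  have e4 : ‖v‖ = ‖z - I‖ / ‖z + I‖ := by rw [← hzv, cay, norm_div]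
  have e5 : ‖z + I‖ ^ 2 - ‖z - I‖ ^ 2 = 4 * z.im := Pool.Agent.Y256.LW.norm_sq_sub z
  have hv2 : 0 < 1 - ‖v‖ ^ 2 := by nlinarith [norm_nonneg v]
  -- |z - I|² / im z
  have e6 : ‖z - I‖ ^ 2 = (4 * ‖v‖ ^ 2 / (1 - ‖v‖ ^ 2)) * z.im := by
    have e7 : ‖z - I‖ = ‖v‖ * ‖z + I‖ := by rw [e4]; field_simp
    have e8 : (1 - ‖v‖ ^ 2) * ‖z + I‖ ^ 2 = 4 * z.im := by
      rw [← e5, e7]; ring
    rw [div_mul_eq_mul_div, eq_div_iff hv2.ne', e7]
    linear_combination ‖v‖ ^ 2 * e8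
  set q := 4 * ‖v‖ ^ 2 / (1 - ‖v‖ ^ 2) with hq
  have hq0 : 0 ≤ q := by positivity
  have h2 : ‖p v - c‖ ^ 2 ≤ q * (p v).re * c := by
    rw [e6] at h1
    have : z.im * ‖p v - c‖ ^ 2 ≤ z.im * (q * (p v).re * c) := by linarith
    exact le_of_mul_le_mul_left this hz0
  have h3 : (p v).re ≤ ‖p v‖ := (le_abs_self _).trans (Complex.abs_re_le_norm _)
  have h4 : ‖p v‖ - c ≤ ‖p v - c‖ := by
    have := norm_sub_norm_le (p v) (c : ℂ)
    rwa [Complex.norm_real, Real.norm_eq_abs, abs_of_nonneg hc] at this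
  have hk : kap ‖v‖ = 2 + q := rfl
  rw [hk]
  by_contra hcon
  push Not at hcon
  have h5 : c < ‖p v‖ := by nlinarith
  have h6 : (‖p v‖ - c) ^ 2 ≤ ‖p v - c‖ ^ 2 := pow_le_pow_left₀ (by linarith) h4 2
  have h7 : q * (p v).re * c ≤ q * ‖p v‖ * c := by gcongr
  nlinarith [norm_nonneg (p v)]

/-- displacement -/
theorem uz_disp {f : ℂ → ℂ} (h : UZ f) {w : ℂ} (hw : w ∈ ball (0 : ℂ) 1) :
    ‖f w - w‖ ≤ (1 - rr f) * kap ‖w‖ := by
  obtain ⟨hU, h0, hp, hi⟩ := h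
  set H : ℂ → ℂ := dslope f 0 with hH
  have hHd : DifferentiableOn ℂ H (ball 0 1) :=
    (differentiableOn_dslope (isOpen_ball.mem_nhds z0)).2 hU.1
  have hHG : ∀ w, w * H w = f w := by
    intro w
    have := sub_smul_dslope f 0 w
    rw [sub_zero, smul_eq_mul, h0, sub_zero] at this
    exact this
  have hH1 : ∀ w ∈ ball (0 : ℂ) 1, ‖H w‖ ≤ 1 := by
    intro w hw
    by_cases hw0 : w = 0
    · subst hw0
      rw [hH, dslope_same]
      exact norm_deriv_le_one_of_mapsTo_ball hU.1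
        (by rw [h0]; exact hU.2.1.mono_right ball_subset_closedBall) one_pos
    · have h1 := uz_norm hU h0 hw
      rw [← hHG w, norm_mul] at h1
      have h2 : 0 < ‖w‖ := norm_pos_iff.2 hw0
      by_contra hc
      push Not at hc
      nlinarith
  have h1 := harnack (p := fun w => 1 - H w) ((differentiableOn_const _).sub hHd)
    (fun w hw => by
      have h2 : (H w).re ≤ 1 := ((le_abs_self _).trans (Complex.abs_re_le_norm _)).trans (hH1 w hw)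
      simp only [Complex.sub_re, Complex.one_re]
      linarith)
    (c := 1 - rr f) (by
      simp only [hH, dslope_same]
      rw [hi]; push_cast; ring) hw
  have h2 : ‖f w - w‖ = ‖w‖ * ‖1 - H w‖ := by
    rw [← hHG w, ← norm_mul, ← norm_neg]
    congr 1
    ring
  rw [h2]
  have hw1 : ‖w‖ < 1 := mem_ball_zero_iff.1 hw
  calc ‖w‖ * ‖1 - H w‖ ≤ 1 * ‖1 - H w‖ := mul_le_mul_of_nonneg_right hw1.le (norm_nonneg _)
    _ = ‖1 - H w‖ := one_mul _
    _ ≤ _ := h1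

theorem rr_le {f : ℂ → ℂ} (h : UZ f) : rr f ≤ 1 := by
  obtain ⟨hU, h0, hp, hi⟩ := h
  have h1 : ‖deriv f 0‖ ≤ 1 := norm_deriv_le_one_of_mapsTo_ball hU.1
    (by rw [h0]; exact hU.2.1.mono_right ball_subset_closedBall) one_pos
  exact ((le_abs_self _).trans (Complex.abs_re_le_norm _)).trans h1

theorem uz_id : UZ (fun z => z) := by
  refine ⟨⟨differentiableOn_id, fun _ h => h, fun _ _ _ _ h => h⟩, rfl, ?_, ?_⟩ <;>
    simp [rr]

theorem uz_congr {f g : ℂ → ℂ} (h : UZ f) (e : ∀ z ∈ ball (0 : ℂ) 1, g z = f z) : UZ g := by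
  obtain ⟨hU, h0, hp, hi⟩ := h
  have hd := rr_congr e
  refine ⟨⟨hU.1.congr e, fun z hz => by rw [e z hz]; exact hU.2.1 hz, fun z hz w hw k => ?_⟩,
    by rw [e 0 z0]; exact h0, ?_, ?_⟩
  · rw [e z hz, e w hw] at k
    exact hU.2.2 hz hw k
  · unfold rr; rw [hd]; exact hp
  · unfold rr; rw [hd]; exact hi

theorem deriv_comp0 {f g : ℂ → ℂ} (hf : UniD f) (hg : UniD g) (g0 : g 0 = 0) :
    deriv (fun z => f (g z)) 0 = deriv f 0 * deriv g 0 := by
  have h1 : HasDerivAt g (deriv g 0) 0 := (uz_diffAt hg z0).hasDerivAt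
  have h2 : HasDerivAt f (deriv f 0) (g 0) := by
    rw [g0]; exact (uz_diffAt hf z0).hasDerivAt
  exact (h2.comp 0 h1).deriv

theorem uniD_comp {f g : ℂ → ℂ} (hf : UniD f) (hg : UniD g) : UniD (fun z => f (g z)) :=
  ⟨hf.1.comp hg.1 hg.2.1, fun _ hz => hf.2.1 (hg.2.1 hz), fun _ hz _ hw e =>
    hg.2.2 hz hw (hf.2.2 (hg.2.1 hz) (hg.2.1 hw) e)⟩

theorem rr_comp {f g : ℂ → ℂ} (hf : UZ f) (hg : UZ g) :
    rr (fun z => f (g z)) = rr f * rr g := by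
  unfold rr
  rw [deriv_comp0 hf.1 hg.1 hg.2.1, hf.2.2.2, hg.2.2.2]
  simp

theorem uz_comp {f g : ℂ → ℂ} (hf : UZ f) (hg : UZ g) : UZ (fun z => f (g z)) := by
  refine ⟨uniD_comp hf.1 hg.1, by show f (g 0) = 0; rw [hg.2.1, hf.2.1], ?_, ?_⟩
  · rw [rr_comp hf hg]; exact mul_pos hf.2.2.1 hg.2.2.1
  · rw [rr_comp hf hg, deriv_comp0 hf.1 hg.1 hg.2.1, hf.2.2.2, hg.2.2.2]
    push_cast; ring

theorem id_of_rr {f : ℂ → ℂ} (h : UZ f) (h1 : rr f = 1) : ∀ z ∈ ball (0 : ℂ) 1, f z = z := by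
  intro z hz
  have := uz_disp h hz
  rw [h1, sub_self, zero_mul] at this
  exact sub_eq_zero.1 (norm_le_zero_iff.1 this)

end Pool.Agent.J6H12.LWP
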