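import Pool.Agent.J6H12.LWP.RadA
import Pool.Agent.J6H12.LWP.DiscA

/-!
# Limits and factorisations
-/

set_option autoImplicit false

open Set Filter Topology Complex Metric

noncomputable section

namespace Pool.Agent.J6H12.LWP

open LW242 Y405LW

theorem yac_zero : yac 0 = I := by simp [yac]

/-- the limit lemma -/
theorem uz_limit (F : ℕ → ℂ → ℂ) (hF : ∀ k, UZ (F k)) {r₀ : ℝ} (hr₀ : 0 < r₀)
    (hr : ∀ k, r₀ ≤ rr (F k)) :
    ∃ G : ℂ → ℂ, UZ G ∧
      (∀ z ∈ ball (0 : ℂ) 1, Tendsto (fun k => F k z) (hyperfilter ℕ) (𝓝 (G z))) ∧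
      (∀ z ∈ ball (0 : ℂ) 1, ∀ w : ℕ → ℂ, Tendsto w (hyperfilter ℕ) (𝓝 z) →
        Tendsto (fun k => F k (w k)) (hyperfilter ℕ) (𝓝 (G z))) ∧
      Tendsto (fun k => rr (F k)) (hyperfilter ℕ) (𝓝 (rr G)) := by
  obtain ⟨g, g1, g2, g3, g4, g5, -⟩ := p_nf (fun k z => F k (cay z))
    (fun k => (hF k).1.1.comp cay_diff fun z hz => cay_mem hz)
    (fun z hz => ⟨1, one_pos, 1, fun k w _ hwH =>
      (mem_ball_zero_iff.1 ((hF k).1.2.1 (cay_mem hwH))).le⟩)
  set G : ℂ → ℂ := fun w => g (yac w) with hG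
  have hpt : ∀ z ∈ ball (0 : ℂ) 1, Tendsto (fun k => F k z) (hyperfilter ℕ) (𝓝 (G z)) := by
    intro z hz
    have := g2 (yac z) (yac_mem hz)
    simp only [cay_yac hz] at this
    exact this
  have hyI : HasDerivAt yac (deriv yac 0) 0 :=
    (yac_diff.differentiableAt (isOpen_ball.mem_nhds z0)).hasDerivAt
  have hgI : HasDerivAt g (deriv g I) (yac 0) := by
    rw [yac_zero]
    exact (g1.differentiableAt (hp_open.mem_nhds I_mem_hp)).hasDerivAt
  have hdG : deriv G 0 = deriv g I * deriv yac 0 := (hgI.comp 0 hyI).deriv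
  have hdF : ∀ k, deriv (F k) 0 = deriv (fun z => F k (cay z)) I * deriv yac 0 := by
    intro k
    have h1 : DifferentiableAt ℂ (fun z => F k (cay z)) I :=
      ((hF k).1.1.comp cay_diff fun z hz => cay_mem hz).differentiableAt
        (hp_open.mem_nhds I_mem_hp)
    have h2 : HasDerivAt (fun z => F k (cay z)) (deriv (fun z => F k (cay z)) I) (yac 0) := by
      rw [yac_zero]; exact h1.hasDerivAt
    have h3 := (h2.comp 0 hyI).deriv
    rw [← h3]
    apply Filter.EventuallyEq.deriv_eq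
    filter_upwards [isOpen_ball.mem_nhds z0] with w hw
    simp only [Function.comp_apply, cay_yac hw]
  have hdl : Tendsto (fun k => deriv (F k) 0) (hyperfilter ℕ) (𝓝 (deriv G 0)) := by
    rw [hdG]
    simp only [hdF]
    exact (g3 I I_mem_hp).mul_const _
  have hrl : Tendsto (fun k => rr (F k)) (hyperfilter ℕ) (𝓝 (rr G)) :=
    (Complex.continuous_re.tendsto _).comp hdl
  have hrG : r₀ ≤ rr G := ge_of_tendsto' hrl hr
  have hiG : deriv G 0 = (rr G : ℂ) := by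
    have h1 : Tendsto (fun k => (rr (F k) : ℂ)) (hyperfilter ℕ) (𝓝 (rr G : ℂ)) :=
      (Complex.continuous_ofReal.tendsto _).comp hrl
    have h2 : (fun k => (rr (F k) : ℂ)) = fun k => deriv (F k) 0 :=
      funext fun k => (hF k).2.2.2.symm
    rw [h2] at h1
    exact tendsto_nhds_unique hdl h1
  have hG0 : G 0 = 0 := by
    have h1 := hpt 0 z0
    have h2 : (fun k => F k 0) = fun _ => (0 : ℂ) := funext fun k => (hF k).2.1
    rw [h2] at h1
    exact (tendsto_nhds_unique tendsto_const_nhds h1).symm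
  have hGn : ∀ z ∈ ball (0 : ℂ) 1, ‖G z‖ ≤ ‖z‖ := fun z hz =>
    le_of_tendsto (hpt z hz).norm (Eventually.of_forall fun k => uz_norm (hF k).1 (hF k).2.1 hz)
  have hinj : InjOn g Hp := by
    rcases g5 (fun k z hz w hw e => cay_inj hz hw ((hF k).1.2.2 (cay_mem hz) (cay_mem hw) e))
      with h | ⟨c, hc⟩
    · exact h
    · exfalso
      have h1 : deriv G 0 = 0 := by
        have : G =ᶠ[𝓝 0] fun _ => c := by
          filter_upwards [isOpen_ball.mem_nhds z0] with w hw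
          exact hc _ (yac_mem hw)
        rw [this.deriv_eq]; simp
      have h2 : rr G = 0 := by unfold rr; rw [h1]; simp
      linarith
  refine ⟨G, ⟨⟨g1.comp yac_diff fun w hw => yac_mem hw, fun z hz => ?_, ?_⟩, hG0, by linarith,
    hiG⟩, hpt, ?_, hrl⟩
  · rw [mem_ball_zero_iff] at hz ⊢
    exact (hGn z (mem_ball_zero_iff.2 hz)).trans_lt hz
  · intro z hz w hw e
    exact yac_inj hz hw (hinj (yac_mem hz) (yac_mem hw) e)
  · intro z hz w hw
    have hc : Tendsto (fun k => yac (w k)) (hyperfilter ℕ) (𝓝 (yac z)) :=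
      (yac_diff.continuousOn.continuousAt (isOpen_ball.mem_nhds hz)).tendsto.comp hw
    have h1 := g4 (yac z) (yac_mem hz) (fun k => yac (w k)) hc
    refine h1.congr' ?_
    filter_upwards [hw.eventually (isOpen_ball.mem_nhds hz)] with k hk
    simp only [cay_yac hk]

/-- normalisation of a univalent map onto a domain containing `0` -/
theorem normalise {F : ℂ → ℂ} (hF : UniD F) (h0 : (0 : ℂ) ∈ F '' ball 0 1) :
    ∃ G : ℂ → ℂ, UZ G ∧ G '' ball 0 1 = F '' ball 0 1 := by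
  obtain ⟨a, ha, ha0⟩ := h0
  have ha1 : ‖a‖ < 1 := by rwa [mem_ball_zero_iff] at ha
  have hna1 : ‖-a‖ < 1 := by rwa [norm_neg]
  set G0 : ℂ → ℂ := fun w => F (mob a w) with hG0
  have hmU : UniD (mob a) := ⟨mob_diff ha1, fun w hw => mob_ball ha1 hw, fun w hw v hv e => by
    rw [← mob_inv ha1 (mem_ball_zero_iff.1 hw).le, ← mob_inv ha1 (mem_ball_zero_iff.1 hv).le, e]⟩
  have hG0U : UniD G0 := uniD_comp hF hmU
  have hG00 : G0 0 = 0 := by
    simp only [hG0]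
    rw [mob_zero, ha0]
  have hG0W : G0 '' ball 0 1 = F '' ball 0 1 := by
    apply Subset.antisymm
    · rintro _ ⟨w, hw, rfl⟩
      exact ⟨mob a w, mob_ball ha1 hw, rfl⟩
    · rintro _ ⟨w, hw, rfl⟩
      refine ⟨mob (-a) w, mob_ball hna1 hw, ?_⟩
      simp only [hG0]
      rw [mob_inv' ha1 (mem_ball_zero_iff.1 hw).le]
  set l := deriv G0 0 with hl
  have hl0 : l ≠ 0 := Pool.Agent.Helper202.Univ.deriv_ne_zero isOpen_ball hG0U.1 hG0U.2.2 z0
  have hln : 0 < ‖l‖ := norm_pos_iff.2 hl0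
  set u : ℂ := (‖l‖ : ℂ) / l with hu
  have hlnC : (‖l‖ : ℂ) ≠ 0 := by exact_mod_cast hln.ne'
  have hu1 : ‖u‖ = 1 := by
    rw [hu, norm_div, Complex.norm_real, norm_norm, div_self hln.ne']
  have hu0 : u ≠ 0 := div_ne_zero hlnC hl0
  have hrU : UniD (fun w => u * w) := by
    refine ⟨(differentiable_id.const_mul u).differentiableOn, fun w hw => ?_, fun w _ v _ e =>
      mul_left_cancel₀ hu0 e⟩
    rw [mem_ball_zero_iff] at hw ⊢
    rw [norm_mul, hu1, one_mul]; exact hw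
  refine ⟨fun w => G0 (u * w), ?_, ?_⟩
  · have hd : deriv (fun w => G0 (u * w)) 0 = (‖l‖ : ℂ) := by
      rw [deriv_comp0 hG0U hrU (by simp)]
      have : deriv (fun w : ℂ => u * w) 0 = u := by
        have := (hasDerivAt_id (0 : ℂ)).const_mul u
        rw [mul_one] at this
        exact this.deriv
      rw [this, ← hl, hu]
      field_simp
    have hr : rr (fun w => G0 (u * w)) = ‖l‖ := by
      unfold rr; rw [hd]; simp
    refine ⟨uniD_comp hG0U hrU, by simp only [mul_zero]; exact hG00, ?_, ?_⟩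
    · rw [hr]; exact hln
    · rw [hr]; exact hd
  · rw [← hG0W]
    apply Subset.antisymm
    · rintro _ ⟨w, hw, rfl⟩
      exact ⟨u * w, hrU.2.1 hw, rfl⟩
    · rintro _ ⟨w, hw, rfl⟩
      refine ⟨u⁻¹ * w, ?_, ?_⟩
      · rw [mem_ball_zero_iff] at hw ⊢
        rw [norm_mul, norm_inv, hu1, inv_one, one_mul]; exact hw
      · simp only [mul_inv_cancel_left₀ hu0]

/-- factorisation through an intermediate domain -/
theorem factor {f G : ℂ → ℂ} (hf : UZ f) (hG : UZ G) (hs : f '' ball 0 1 ⊆ G '' ball 0 1) :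
    ∃ h : ℂ → ℂ, UZ h ∧ ∀ z ∈ ball (0 : ℂ) 1, G (h z) = f z := by
  have hfG : ∀ z ∈ ball (0 : ℂ) 1, f z ∈ G '' ball 0 1 := fun z hz => hs ⟨z, hz, rfl⟩
  set h : ℂ → ℂ := fun z => Function.invFunOn G (ball 0 1) (f z) with hh
  have hGh : ∀ z ∈ ball (0 : ℂ) 1, G (h z) = f z := fun z hz =>
    Pool.Agent.Helper202.Univ.invFunOn_right (hfG z hz)
  have hm : MapsTo h (ball 0 1) (ball 0 1) := fun z hz =>
    Pool.Agent.Helper202.Univ.invFunOn_mem (hfG z hz)
  have hd : DifferentiableOn ℂ h (ball 0 1) := by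
    intro z hz
    have h1 := Pool.Agent.Helper202.Univ.differentiableAt_inv isOpen_ball hG.1.1 hG.1.2.2
      (hfG z hz)
    exact (h1.comp z (uz_diffAt hf.1 hz)).differentiableWithinAt
  have hi : InjOn h (ball 0 1) := by
    intro z hz w hw e
    apply hf.1.2.2 hz hw
    rw [← hGh z hz, ← hGh w hw, e]
  have hU : UniD h := ⟨hd, hm, hi⟩
  have h0 : h 0 = 0 := by
    apply hG.1.2.2 (hm z0) z0
    rw [hGh 0 z0, hf.2.1, hG.2.1]
  have hder : deriv f 0 = deriv G 0 * deriv h 0 := by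
    rw [← deriv_comp0 hG.1 hU h0]
    exact rr_congr (fun z hz => (hGh z hz).symm)
  rw [hf.2.2.2, hG.2.2.2] at hder
  have hG0 : (rr G : ℂ) ≠ 0 := by exact_mod_cast hG.2.2.1.ne'
  have hdh : deriv h 0 = ((rr f / rr G : ℝ) : ℂ) := by
    push_cast
    rw [eq_div_iff hG0, mul_comm]
    exact hder.symm
  have hr : rr h = rr f / rr G := by unfold rr; rw [hdh]; simp; rfl
  exact ⟨h, ⟨hU, h0, by rw [hr]; exact div_pos hf.2.2.1 hG.2.2.1, by rw [hr]; exact hdh⟩, hGh⟩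

/-- the only automorphism in the class is the identity -/
theorem id_of_surj {f : ℂ → ℂ} (hf : UZ f) (h : ball (0 : ℂ) 1 ⊆ f '' ball 0 1) :
    ∀ z ∈ ball (0 : ℂ) 1, f z = z := by
  obtain ⟨g, hg, hgf⟩ := factor uz_id hf (by
    rintro _ ⟨z, hz, rfl⟩
    exact h hz)
  have h1 : rr f * rr g = 1 := by
    rw [← rr_comp hf hg]
    have h2 : deriv (fun z => f (g z)) 0 = deriv (fun z : ℂ => z) 0 := rr_congr hgf
    unfold rr
    rw [h2]; simp
  have h2 := rr_le hf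
  have h3 := rr_le hg
  have h4 := hf.2.2.1
  have h5 := hg.2.2.1
  exact id_of_rr hf (by nlinarith)

/-- no indecomposable elements -/
theorem thmZ {f : ℂ → ℂ} (hf : UZ f) (hne : ∃ z ∈ ball (0 : ℂ) 1, f z ≠ z) :
    ∃ g h : ℂ → ℂ, UZ g ∧ UZ h ∧ (∀ z ∈ ball (0 : ℂ) 1, g (h z) = f z) ∧
      (∃ z ∈ ball (0 : ℂ) 1, g z ≠ z) ∧ (∃ z ∈ ball (0 : ℂ) 1, h z ≠ z) := by
  have hns : ∃ w ∈ ball (0 : ℂ) 1, w ∉ f '' ball 0 1 := by
    by_contra hcon
    push Not at hcon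
    obtain ⟨z, hz, hz2⟩ := hne
    exact hz2 (id_of_surj hf hcon z hz)
  obtain ⟨w, hw, hwf⟩ := hns
  -- transfer to the half-plane
  set φ : ℂ → ℂ := fun z => yac (f (cay z)) with hφ
  have hφU : Uni φ := by
    refine ⟨yac_diff.comp (hf.1.1.comp cay_diff fun z hz => cay_mem hz)
      fun z hz => hf.1.2.1 (cay_mem hz), fun z hz => yac_mem (hf.1.2.1 (cay_mem hz)), ?_⟩
    intro a ha b hb e
    exact cay_inj ha hb (hf.1.2.2 (cay_mem ha) (cay_mem hb)
      (yac_inj (hf.1.2.1 (cay_mem ha)) (hf.1.2.1 (cay_mem hb)) e))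
  have hmem : ∀ v ∈ ball (0 : ℂ) 1, (v ∈ f '' ball 0 1 ↔ yac v ∈ φ '' Hp) := by
    intro v hv
    constructor
    · rintro ⟨z, hz, rfl⟩
      exact ⟨yac z, yac_mem hz, by simp only [hφ, cay_yac hz]⟩
    · rintro ⟨z, hz, hzv⟩
      simp only [hφ] at hzv
      exact ⟨cay z, cay_mem hz, yac_inj (hf.1.2.1 (cay_mem hz)) hv hzv⟩
  have hwφ : yac w ∉ φ '' Hp := fun h => hwf ((hmem w hw).2 h)
  obtain ⟨q, hq, hqφ, hqc⟩ := bdry_pt (uni_img_open hφU) (uni_img_sub hφU) uni_img_ne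
    (yac_mem hw) hwφ
  obtain ⟨Φ, hΦ, h1, h2, -, h4⟩ := p_b0 φ Hp q hφU hp_open subset_rfl
    (fun p hp _ => Or.inl hp) hq hqφ hqc
  set F : ℂ → ℂ := fun v => cay (Φ (yac v)) with hF
  have hFU : UniD F := by
    refine ⟨cay_diff.comp (hΦ.1.comp yac_diff fun z hz => yac_mem hz)
      fun z hz => hΦ.2.1 (yac_mem hz), fun z hz => cay_mem (hΦ.2.1 (yac_mem hz)), ?_⟩
    intro a ha b hb e
    exact yac_inj ha hb (hΦ.2.2 (yac_mem ha) (yac_mem hb)
      (cay_inj (hΦ.2.1 (yac_mem ha)) (hΦ.2.1 (yac_mem hb)) e))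
  have hmemF : ∀ p ∈ Hp, (cay p ∈ F '' ball 0 1 ↔ p ∈ Φ '' Hp) := by
    intro p hp
    constructor
    · rintro ⟨z, hz, hzv⟩
      simp only [hF] at hzv
      exact ⟨yac z, yac_mem hz, cay_inj (hΦ.2.1 (yac_mem hz)) hp hzv⟩
    · rintro ⟨z, hz, rfl⟩
      exact ⟨cay z, cay_mem hz, by simp only [hF, yac_cay hz]⟩
  have hfF : f '' ball 0 1 ⊆ F '' ball 0 1 := by
    rintro _ ⟨z, hz, rfl⟩
    have h5 := hf.1.2.1 hz
    have h6 : yac (f z) ∈ Φ '' Hp := h1 ((hmem _ h5).1 ⟨z, hz, rfl⟩)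
    have h7 := (hmemF _ (yac_mem h5)).2 h6
    rwa [cay_yac h5] at h7
  have hqF : cay q ∈ F '' ball 0 1 := (hmemF q hq).2 h2
  have hqf : cay q ∉ f '' ball 0 1 := by
    intro h
    have := (hmem _ (cay_mem hq)).1 h
    rw [yac_cay hq] at this
    exact hqφ this
  have hFne : ∃ r ∈ ball (0 : ℂ) 1, r ∉ F '' ball 0 1 := by
    by_contra hcon
    push Not at hcon
    apply h4
    refine Subset.antisymm (uni_img_sub hΦ) fun p hp => ?_
    exact (hmemF p hp).1 (hcon _ (cay_mem hp))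
  have h0F : (0 : ℂ) ∈ F '' ball 0 1 := hfF ⟨0, z0, hf.2.1⟩
  obtain ⟨G, hG, hGF⟩ := normalise hFU h0F
  obtain ⟨h, hh, hGh⟩ := factor hf hG (by rw [hGF]; exact hfF)
  refine ⟨G, h, hG, hh, hGh, ?_, ?_⟩
  · by_contra hcon
    push Not at hcon
    obtain ⟨r, hr, hr2⟩ := hFne
    rw [← hGF] at hr2
    exact hr2 ⟨r, hr, hcon r hr⟩
  · by_contra hcon
    push Not at hcon
    rw [← hGF] at hqF
    obtain ⟨z, hz, hzq⟩ := hqF
    apply hqf
    refine ⟨z, hz, ?_⟩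
    rw [← hzq, ← hGh z hz, hcon z hz]

end Pool.Agent.J6H12.LWP
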