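import Pool.Agent.J6H12.LWP.Dm
import Pool.Agent.Y242.LW.Main

/-!
# Periodic regions
-/

set_option autoImplicit false

open Set Filter Topology Complex Metric

noncomputable section

namespace Pool.Agent.J6H12.LWP

open LW242

variable {φ : ℂ → ℂ}

/-- translation by `k` periods -/
def sh (k : ℤ) (z : ℂ) : ℂ := z + ((k * TT : ℝ) : ℂ)

theorem sh_mem {z : ℂ} (hz : z ∈ Hp) (k : ℤ) : sh k z ∈ Hp := add_mem hz _

theorem sh_im (k : ℤ) (z : ℂ) : (sh k z).im = z.im := by simp [sh]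

theorem sh_re (k : ℤ) (z : ℂ) : (sh k z).re = z.re + k * TT := by simp [sh]

theorem sh_sh (k l : ℤ) (z : ℂ) : sh k (sh l z) = sh (k + l) z := by
  unfold sh; push_cast; ring

theorem sh_zero (z : ℂ) : sh 0 z = z := by simp [sh]

theorem sh_neg (k : ℤ) (z : ℂ) : sh (-k) (sh k z) = z := by
  rw [sh_sh, neg_add_cancel, sh_zero]

theorem sh_neg' (k : ℤ) (z : ℂ) : sh k (sh (-k) z) = z := by
  rw [sh_sh, add_neg_cancel, sh_zero]

theorem sh_cont (k : ℤ) : Continuous (sh k) := continuous_id.add continuous_const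

theorem pd_sh (hP : Pd φ) (k : ℤ) {z : ℂ} (hz : z ∈ Hp) : φ (sh k z) = sh k (φ z) :=
  hP.int k hz

theorem img_sh (hP : Pd φ) (k : ℤ) {p : ℂ} (hp : p ∈ φ '' Hp) : sh k p ∈ φ '' Hp := by
  obtain ⟨z, hz, rfl⟩ := hp
  exact ⟨sh k z, sh_mem hz k, pd_sh hP k hz⟩

theorem img_sh' (hP : Pd φ) (k : ℤ) {p : ℂ} (hp : p ∉ φ '' Hp) : sh k p ∉ φ '' Hp := fun h => by
  have := img_sh hP (-k) h
  rw [sh_neg] at this
  exact hp this

theorem jul_shift (hP : Pd φ) {x ξ C : ℝ} (h : Jul φ x ξ C) (k : ℤ) :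
    Jul φ (x + k * TT) (ξ + k * TT) C := by
  intro z hz
  have h1 := h (sh (-k) z) (sh_mem hz _)
  rw [pd_sh hP _ hz, sh_im, sh_im] at h1
  have e1 : sh (-k) (φ z) - (ξ : ℂ) = φ z - ((ξ + k * TT : ℝ) : ℂ) := by
    unfold sh; push_cast; ring
  have e2 : sh (-k) z - (x : ℂ) = z - ((x + k * TT : ℝ) : ℂ) := by
    unfold sh; push_cast; ring
  rw [e1, e2] at h1
  exact h1

theorem ray_mem (x : ℝ) {s : ℝ} (hs : s ∈ Ioo (0 : ℝ) 1) : ray x s ∈ Hp := by
  show 0 < (ray x s).im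
  have h1 : (ray x s).im = s / (1 - s) := by
    simp only [ray, Complex.add_im, Complex.ofReal_im, Complex.mul_im, Complex.ofReal_re,
      Complex.I_im, Complex.I_re, mul_one, mul_zero, zero_add, add_zero]
  rw [h1]
  exact div_pos hs.1 (by linarith [hs.2])

theorem ray_sh (x s : ℝ) (k : ℤ) : ray (x + k * TT) s = sh k (ray x s) := by
  unfold ray sh; push_cast; ring

theorem Mq_sh (q w : ℂ) (k : ℤ) : Mq (sh k q) (sh k w) = Mq q w := by
  unfold Mq sh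
  rw [map_add, Complex.conj_ofReal]
  congr 1 <;> ring

theorem rti_shift (hP : Pd φ) (k : ℤ) {x ζ : ℝ} {q : ℂ} (h : RtI φ x ζ q) :
    RtI φ (x + k * TT) (ζ + k * TT) (sh k q) := by
  obtain ⟨h0, l, h1, h2, h3, h4⟩ := h
  refine ⟨by rw [sh_im]; exact h0, l, h1, h2, ?_, ?_⟩
  · rw [h3]
    have : sh k q - ((ζ + k * TT : ℝ) : ℂ) = q - (ζ : ℂ) := by unfold sh; push_cast; ring
    rw [this]
  · intro s hs
    rw [h4 s hs, ray_sh, pd_sh hP k (ray_mem x hs), Mq_sh]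

theorem lti_shift (hP : Pd φ) (k : ℤ) {x ζ : ℝ} {q : ℂ} (h : LtI φ x ζ q) :
    LtI φ (x + k * TT) (ζ + k * TT) (sh k q) := by
  obtain ⟨h0, l, h1, h2, h3, h4⟩ := h
  refine ⟨by rw [sh_im]; exact h0, l, h1, h2, ?_, ?_⟩
  · rw [h3]
    have : sh k q - ((ζ + k * TT : ℝ) : ℂ) = q - (ζ : ℂ) := by unfold sh; push_cast; ring
    rw [this]
  · intro s hs
    rw [h4 s hs, ray_sh, pd_sh hP k (ray_mem x hs), Mq_sh]

/-- periodic base -/
structure PB (n : ℕ) (φ : ℂ → ℂ) (x A : ℕ → ℝ) : Prop where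
  b : Base n φ 1 x A
  p : Pd φ
  n0 : 0 < n
  xn : x n = x 0 + TT

/-- the `j`-th sector -/
def Sec (φ : ℂ → ℂ) (x : ℕ → ℝ) (j : ℕ) : Set ℂ :=
  {q | RtI φ (x j) (x j) q ∧ LtI φ (x (j + 1)) (x (j + 1)) q}

/-- the `j`-th periodic region -/
def VV (φ : ℂ → ℂ) (x : ℕ → ℝ) (j : ℕ) : Set ℂ := {q | ∃ k : ℤ, sh k q ∈ Sec φ x j}

theorem sec_sub_VV {x : ℕ → ℝ} {j : ℕ} {q : ℂ} (h : q ∈ Sec φ x j) : q ∈ VV φ x j :=
  ⟨0, by rwa [sh_zero]⟩

theorem VV_sh {x : ℕ → ℝ} {j : ℕ} {q : ℂ} (h : q ∈ VV φ x j) (k : ℤ) : sh k q ∈ VV φ x j := by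
  obtain ⟨l, hl⟩ := h
  refine ⟨l - k, ?_⟩
  rw [sh_sh, sub_add_cancel]
  exact hl

theorem VV_hp {x : ℕ → ℝ} {j : ℕ} : VV φ x j ⊆ Hp := by
  rintro q ⟨k, hk⟩
  have h1 := hk.1.1
  rw [sh_im] at h1
  exact h1

/-- growth condition -/
theorem grow {y : ℝ} (hA : Adm φ y y) : ∃ R : ℝ, ∀ q ∈ Hp,
    (R ≤ q.re → q.im ≤ q.re → RtI φ y y q) ∧ (q.re ≤ -R → q.im ≤ -q.re → LtI φ y y q) := by
  obtain ⟨-, -, -, -, -, -, h⟩ := p_idxa φ y y hA
  obtain ⟨R, hR⟩ := h (1 / 2) (by norm_num)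
  refine ⟨max R 0, fun q hq => ?_⟩
  have hq0 : 0 < q.im := hq
  have h1 := Complex.norm_le_abs_re_add_abs_im q
  have h2 := Complex.abs_re_le_norm q
  rw [abs_of_pos hq0] at h1
  constructor
  · intro h3 h4
    have h5 : 0 < q.re := by linarith
    rw [abs_of_pos h5] at h1 h2
    have h6 : R ≤ q.re := (le_max_left _ _).trans h3
    refine (hR q hq (h6.trans h2)).1 ?_
    linarith
  · intro h3 h4
    have h5 : q.re < 0 := by linarith
    rw [abs_of_neg h5] at h1 h2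
    have h6 : R ≤ -q.re := (le_max_left _ _).trans (by linarith)
    refine (hR q hq (h6.trans h2)).2 ?_
    linarith

theorem mono_adm {y y' : ℝ} (h : y ≤ y') (hA : Adm φ y y) (hA' : Adm φ y' y') (q : ℂ) :
    (RtI φ y' y' q → RtI φ y y q) ∧ (LtI φ y y q → LtI φ y' y' q) := by
  rcases h.eq_or_lt with h | h
  · subst h; exact ⟨id, id⟩
  · have := p_idxb.2.2 φ y y' y y' h hA hA'
    exact ⟨this.1 q, this.2 q⟩

theorem not_both {y : ℝ} (hA : Adm φ y y) {q : ℂ} (h1 : RtI φ y y q) (h2 : LtI φ y y q) :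
    False := (p_idxa φ y y hA).2.2.1 q h1 h2

section

variable {n : ℕ} {x A : ℕ → ℝ}

theorem PB.adm (h : PB n φ x A) {j : ℕ} (hj : j ≤ n) : Adm φ (x j) (x j) := base_adm h.b hj

theorem PB.adm' (h : PB n φ x A) {j : ℕ} (hj : j ≤ n) (k : ℤ) :
    Adm φ (x j + k * TT) (x j + k * TT) := by
  obtain ⟨h1, h2, C, h3⟩ := h.adm hj
  exact ⟨h1, h2, C, jul_shift h.p h3 k⟩

theorem PB.mono (h : PB n φ x A) {i j : ℕ} (hij : i ≤ j) (hj : j ≤ n) : x i ≤ x j := by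
  rcases hij.eq_or_lt with e | e
  · rw [e]
  · exact (h.b.mono i j e hj).le

theorem sec_open (h : PB n φ x A) {j : ℕ} (hj : j < n) : IsOpen (Sec φ x j) :=
  (rt_open p_idxa (h.adm hj.le)).inter (lt_open p_idxa (h.adm hj))

theorem VV_open (h : PB n φ x A) {j : ℕ} (hj : j < n) : IsOpen (VV φ x j) := by
  have : VV φ x j = ⋃ k : ℤ, sh k ⁻¹' (Sec φ x j) := by
    ext q; simp [VV]
  rw [this]
  exact isOpen_iUnion fun k => (sec_open h hj).preimage (sh_cont k)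

theorem VV_reg (h : PB n φ x A) {j : ℕ} (hj : j < n) : Reg φ (VV φ x j) := by
  apply reg_of VV_hp (VV_open h hj)
  intro p hp hpφ
  have hp0 : 0 < p.im := hp
  obtain ⟨R0, hR0⟩ := grow (h.adm hj.le)
  obtain ⟨R1, hR1⟩ := grow (h.adm (show j + 1 ≤ n from hj))
  have hT := TT_pos
  obtain ⟨K, hK⟩ := exists_nat_gt ((|p.re| + 1 + |R0| + |R1| + p.im + 1) / TT)
  rw [div_lt_iff₀ hT] at hK
  have hfar : ∀ q ∈ Hp, ‖q - p‖ < 1 → ∀ k : ℤ, k ∉ Icc (-(K : ℤ)) K → sh k q ∉ Sec φ x j := by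
    intro q hq hqp k hk hs
    have h1 := (Complex.abs_re_le_norm (q - p)).trans hqp.le
    have h2 := (Complex.abs_im_le_norm (q - p)).trans hqp.le
    rw [Complex.sub_re] at h1
    rw [Complex.sub_im] at h2
    obtain ⟨h1a, h1b⟩ := abs_le.1 h1
    obtain ⟨h2a, h2b⟩ := abs_le.1 h2
    have a1 := neg_abs_le p.re
    have a2 := le_abs_self p.re
    have a3 := le_abs_self R0
    have a4 := le_abs_self R1
    have a5 := abs_nonneg R0
    have a6 := abs_nonneg R1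
    rw [mem_Icc, not_and_or, not_le, not_le] at hk
    rcases hk with hk | hk
    · -- k < -K
      have h3 : (k : ℝ) ≤ -(K : ℝ) := by exact_mod_cast hk.le
      have h4 : (k : ℝ) * TT ≤ -((K : ℝ) * TT) := by nlinarith
      refine not_both (h.adm hj.le) hs.1 ((hR0 _ (sh_mem hq k)).2 ?_ ?_)
      · rw [sh_re]; linarith
      · rw [sh_re, sh_im]; linarith
    · have h3 : (K : ℝ) ≤ (k : ℝ) := by exact_mod_cast hk.le
      have h4 : (K : ℝ) * TT ≤ (k : ℝ) * TT := by nlinarith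
      refine not_both (h.adm (show j + 1 ≤ n from hj)) ((hR1 _ (sh_mem hq k)).1 ?_ ?_) hs.2
      · rw [sh_re]; linarith
      · rw [sh_re, sh_im]; linarith
  have hnear : ∀ k : ℤ, ∀ᶠ q in 𝓝 p, (sh k q ∈ Sec φ x j ↔ sh k p ∈ Sec φ x j) := by
    intro k
    obtain ⟨-, -, -, h4, -⟩ := p_idxa φ (x j) (x j) (h.adm hj.le)
    obtain ⟨-, -, -, h4', -⟩ := p_idxa φ (x (j + 1)) (x (j + 1)) (h.adm (show j + 1 ≤ n from hj))
    have hk1 := h4 (sh k p) (sh_mem hp k) (fun hc => img_sh' h.p k hpφ (curve_sub hc))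
    have hk2 := h4' (sh k p) (sh_mem hp k) (fun hc => img_sh' h.p k hpφ (curve_sub hc))
    filter_upwards [(sh_cont k).continuousAt.eventually hk1,
      (sh_cont k).continuousAt.eventually hk2] with q hq1 hq2
    exact and_congr hq1.1 hq2.2
  have hall : ∀ᶠ q in 𝓝 p, ∀ k ∈ Icc (-(K : ℤ)) K,
      (sh k q ∈ Sec φ x j ↔ sh k p ∈ Sec φ x j) :=
    (Filter.eventually_all_finite (Set.finite_Icc _ _)).2 fun k _ => hnear k
  filter_upwards [hall, hp_open.mem_nhds hp, Metric.ball_mem_nhds p one_pos] with q hq hqH hqb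
  have hqp : ‖q - p‖ < 1 := by rwa [mem_ball, dist_eq_norm] at hqb
  constructor
  · rintro ⟨k, hk⟩
    by_cases hkK : k ∈ Icc (-(K : ℤ)) K
    · exact ⟨k, (hq k hkK).1 hk⟩
    · exact absurd hk (hfar q hqH hqp k hkK)
  · rintro ⟨k, hk⟩
    by_cases hkK : k ∈ Icc (-(K : ℤ)) K
    · exact ⟨k, (hq k hkK).2 hk⟩
    · exact absurd hk (hfar p hp (by simp) k hkK)

/-- different regions are disjoint -/
theorem VV_disj (h : PB n φ x A) {i j : ℕ} (hi : i < n) (hj : j < n) (hij : i ≠ j) {q : ℂ}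
    (h1 : q ∈ VV φ x i) (h2 : q ∈ VV φ x j) : False := by
  obtain ⟨k, hk⟩ := h1
  obtain ⟨l, hl⟩ := h2
  have hT := TT_pos
  set p := sh k q with hp
  obtain ⟨m, hm⟩ : ∃ m : ℤ, m = k - l := ⟨_, rfl⟩
  have e : sh m (sh l q) = p := by rw [sh_sh, hm, sub_add_cancel]
  have hR := rti_shift h.p m hl.1
  have hL := lti_shift h.p m hl.2
  rw [e] at hR hL
  have hj' : j + 1 ≤ n := hj
  have hi' : i + 1 ≤ n := hi
  have A1 : x j + m * TT < x (i + 1) := by
    by_contra hc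
    push Not at hc
    exact not_both (h.adm' hj.le m) hR ((mono_adm hc (h.adm hi') (h.adm' hj.le m) p).2 hk.2)
  have A2 : x i < x (j + 1) + m * TT := by
    by_contra hc
    push Not at hc
    exact not_both (h.adm hi.le) hk.1 ((mono_adm hc (h.adm' hj' m) (h.adm hi.le) p).2 hL)
  have b1 := h.mono (Nat.zero_le j) hj.le
  have b2 := h.mono hi' le_rfl
  have b3 := h.mono (Nat.zero_le i) hi.le
  have b4 := h.mono hj' le_rfl
  have hxn := h.xn
  have m1 : m < 1 := by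
    by_contra hc
    push Not at hc
    have : (1 : ℝ) ≤ m := by exact_mod_cast hc
    nlinarith
  have m2 : -1 < m := by
    by_contra hc
    push Not at hc
    have : (m : ℝ) ≤ -1 := by exact_mod_cast hc
    nlinarith
  have m0 : m = 0 := by omega
  rw [m0] at A1 A2
  simp only [Int.cast_zero, zero_mul, add_zero] at A1 A2
  rcases lt_or_gt_of_ne hij with hlt | hlt
  · have := h.mono (show i + 1 ≤ j from hlt) hj.le
    linarith
  · have := h.mono (show j + 1 ≤ i from hlt) hi.le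
    linarith

/-- the regions cover the complement -/
theorem VV_cover (h : PB n φ x A) {p : ℂ} (hp : p ∈ Hp) (hpφ : p ∉ φ '' Hp) :
    ∃ j < n, p ∈ VV φ x j := by
  have hp0 : 0 < p.im := hp
  have hT := TT_pos
  obtain ⟨R, hR⟩ := grow (h.adm (Nat.zero_le n))
  obtain ⟨K, hK⟩ := exists_nat_gt ((|p.re| + |R| + p.im) / TT)
  rw [div_lt_iff₀ hT] at hK
  have a1 := neg_abs_le p.re
  have a2 := le_abs_self p.re
  have a3 := le_abs_self R
  have a4 := abs_nonneg R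
  -- sides of the shifts of the base point
  have hRK : RtI φ (x 0) (x 0) (sh K p) := by
    refine (hR _ (sh_mem hp _)).1 ?_ ?_
    · rw [sh_re]; push_cast; linarith
    · rw [sh_re, sh_im]; push_cast; linarith
  have hLK : LtI φ (x 0) (x 0) (sh (-(K : ℤ)) p) := by
    refine (hR _ (sh_mem hp _)).2 ?_ ?_
    · rw [sh_re]; push_cast; linarith
    · rw [sh_re, sh_im]; push_cast; linarith
  classical
  have hex : ∃ m : ℕ, ¬ RtI φ (x 0) (x 0) (sh ((K : ℤ) - m) p) := by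
    refine ⟨2 * K, fun hc => ?_⟩
    have e : ((K : ℤ) - ((2 * K : ℕ) : ℤ)) = -(K : ℤ) := by push_cast; ring
    rw [e] at hc
    exact not_both (h.adm (Nat.zero_le n)) hc hLK
  obtain ⟨m, hm⟩ : ∃ m, m = Nat.find hex := ⟨_, rfl⟩
  have hm1 : ¬ RtI φ (x 0) (x 0) (sh ((K : ℤ) - m) p) := by rw [hm]; exact Nat.find_spec hex
  have hm0 : m ≠ 0 := by
    rintro rfl
    apply hm1
    simpa using hRK
  have hm2 : RtI φ (x 0) (x 0) (sh ((K : ℤ) - (m - 1 : ℕ)) p) := by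
    have := Nat.find_min hex (m := m - 1) (by omega)
    exact not_not.1 this
  set q := sh ((K : ℤ) - (m - 1 : ℕ)) p with hq
  have hqφ : q ∉ φ '' Hp := img_sh' h.p _ hpφ
  have hqH : q ∈ Hp := sh_mem hp _
  have hmL : LtI φ (x 0) (x 0) (sh ((K : ℤ) - m) p) := by
    rcases (p_idxb.1 φ (x 0) (x 0) (h.adm (Nat.zero_le n))).2.2 _ (sh_mem hp _)
      (fun hc => img_sh' h.p _ hpφ (curve_sub hc)) with hc | hc
    · exact absurd hc hm1
    · exact hc
  have hLn : LtI φ (x n) (x n) q := by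
    have h1 := lti_shift h.p 1 hmL
    rw [sh_sh] at h1
    have e : 1 + ((K : ℤ) - m) = (K : ℤ) - (m - 1 : ℕ) := by
      have : ((m - 1 : ℕ) : ℤ) = (m : ℤ) - 1 := by
        rw [Nat.cast_sub (Nat.one_le_iff_ne_zero.2 hm0)]; simp
      rw [this]; ring
    rw [e] at h1
    have e2 : x 0 + ((1 : ℤ) : ℝ) * TT = x n := by rw [h.xn]; simp
    rw [e2] at h1
    exact h1
  -- find the sector
  have hex2 : ∃ i : ℕ, i ≤ n ∧ ¬ RtI φ (x i) (x i) q :=
    ⟨n, le_rfl, fun hc => not_both (h.adm le_rfl) hc hLn⟩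
  obtain ⟨i, hi⟩ : ∃ i, i = Nat.find hex2 := ⟨_, rfl⟩
  have hi1 : i ≤ n ∧ ¬ RtI φ (x i) (x i) q := by rw [hi]; exact Nat.find_spec hex2
  have hi0 : i ≠ 0 := by
    rintro rfl
    exact hi1.2 hm2
  have hi2 : RtI φ (x (i - 1)) (x (i - 1)) q := by
    have := Nat.find_min hex2 (m := i - 1) (by omega)
    by_contra hc
    exact this ⟨by omega, hc⟩
  have hi3 : LtI φ (x i) (x i) q := by
    rcases (p_idxb.1 φ (x i) (x i) (h.adm hi1.1)).2.2 _ hqH
      (fun hc => hqφ (curve_sub hc)) with hc | hc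
    · exact absurd hc hi1.2
    · exact hc
  refine ⟨i - 1, by omega, (K : ℤ) - (m - 1 : ℕ), hi2, ?_⟩
  have e : i - 1 + 1 = i := by omega
  rw [e]
  exact hi3

end

end Pool.Agent.J6H12.LWP
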